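import Pool.Agent.W_f569db_gs.Shift

set_option autoImplicit false

/-!
# Actions of representable classes
-/

noncomputable section

namespace Pool.Agent.GSp

open Pool.Agent.WeilH_h6 Pool.Agent.WeilH_h6.VarClass Pool.Agent.WeilH_h6.Weil GTh
open scoped TensorProduct

universe u v w u' w'

variable {k₀ : Type u'} {k : Type u} [Field k₀] [Field k] {𝒱₀ : VarClass k₀} {𝒱 : VarClass k}
  {K : Type v} [Field K] {W₀ : Weil.{u', v, w'} 𝒱₀ K} {W : Weil.{u, v, w} 𝒱 K}

/-! ### Representable classes -/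

section rep

variable {B B' : 𝒱.Obj} {S : Sys W₀ W B} {S' : Sys W₀ W B'} {n : ℤ}

theorem Rep.zero (S : Sys W₀ W B) (n : ℤ) : S.Rep n 0 :=
  ⟨fun _ => 0, fun _ => zero_mem _, fun _ _ => rfl, by simp⟩

theorem Rep.add {x y : W.H B} (hx : S.Rep n x) (hy : S.Rep n y) : S.Rep n (x + y) := by
  obtain ⟨e, he, he0, rfl⟩ := hx
  obtain ⟨f, hf, hf0, rfl⟩ := hy
  refine ⟨fun a => e a + f a, fun a => add_mem (he a) (hf a), fun a ha => ?_, ?_⟩
  · change e a + f a = 0
    rw [he0 a ha, hf0 a ha, add_zero]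
  · rw [← Finset.sum_add_distrib]
    exact Finset.sum_congr rfl fun a _ => (map_add _ _ _).symm

theorem Rep.sum {ι : Type} (s : Finset ι) {x : ι → W.H B} (h : ∀ i ∈ s, S.Rep n (x i)) :
    S.Rep n (∑ i ∈ s, x i) := by
  classical
  induction s using Finset.induction_on with
  | empty => simpa using Rep.zero S n
  | insert a s ha ih =>
    rw [Finset.sum_insert ha]
    exact Rep.add (h a (Finset.mem_insert_self _ _))
      (ih fun i hi => h i (Finset.mem_insert_of_mem hi))

theorem Rep.smulQ [CharZero K] {x : W.H B} (hx : S.Rep n x) (q : ℚ) :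
    S.Rep n ((q : K) • x) := by
  obtain ⟨e, he, he0, rfl⟩ := hx
  refine ⟨fun a => (q : K) • e a, fun a => W₀.ratSpan_smul (he a) q, fun a ha => ?_, ?_⟩
  · change (q : K) • e a = 0
    rw [he0 a ha, smul_zero]
  · rw [Finset.smul_sum]
    exact Finset.sum_congr rfl fun a _ => (map_smul _ _ _).symm

theorem Rep.single (a : S.J) {e : W₀.H (S.Y a)} (he : e ∈ W₀.ratSpan (S.Y a))
    (h : S.wt a ≠ n → e = 0) : S.Rep n (S.π a e) := by
  classical
  refine ⟨fun b => if hb : a = b then hb ▸ e else 0, fun b => ?_, fun b hb => ?_, ?_⟩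
  · by_cases hb : a = b
    · subst hb
      simpa using he
    · simp only [hb, dite_false]
      exact zero_mem _
  · by_cases hab : a = b
    · subst hab
      simpa using h hb
    · simp only [hab, dite_false]
  · rw [Finset.sum_eq_single a]
    · simp
    · intro b _ hb
      simp only [Ne.symm hb, dite_false, map_zero]
    · intro ha
      exact absurd (Finset.mem_univ a) ha

theorem Rep.induction {P : W.H B → Prop} (h0 : P 0) (hadd : ∀ x y, P x → P y → P (x + y))
    (h : ∀ a e, e ∈ W₀.ratSpan (S.Y a) → S.wt a = n → P (S.π a e)) {x : W.H B}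
    (hx : S.Rep n x) : P x := by
  classical
  obtain ⟨e, he, he0, rfl⟩ := hx
  refine Finset.sum_induction _ P hadd h0 fun a _ => ?_
  by_cases ha : S.wt a = n
  · exact h a (e a) (he a) ha
  · rw [he0 a ha, map_zero]; exact h0

theorem Rep.par [CharZero K] (hS : S.Good) {x : W.H B} (hx : S.Rep n x) :
    W.par B x = sg K n • x := by
  refine Rep.induction (P := fun x => W.par B x = sg K n • x) ?_ ?_ ?_ hx
  · rw [map_zero, smul_zero]
  · intro x y hx hy
    rw [map_add, hx, hy, smul_add]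
  · intro a e he ha
    rw [hS.par, par_rat he, ha]

theorem Rep.cross [CharZero K] {n' : ℤ} {x : W.H B} {x' : W.H B'} (hx : S.Rep n x)
    (hx' : S'.Rep n' x') : (S.prod S').Rep (n + n') (W.p1 B B' x * W.p2 B B' x') := by
  refine Rep.induction (P := fun x => (S.prod S').Rep (n + n') (W.p1 B B' x * W.p2 B B' x'))
    ?_ ?_ ?_ hx
  · rw [map_zero, zero_mul]; exact Rep.zero _ _
  · intro x y hx hy
    rw [map_add, add_mul]; exact Rep.add hx hy
  intro a e he ha
  refine Rep.induction (P := fun x' => (S.prod S').Rep (n + n')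
    (W.p1 B B' (S.π a e) * W.p2 B B' x')) ?_ ?_ ?_ hx'
  · rw [map_zero, mul_zero]; exact Rep.zero _ _
  · intro x y hx hy
    rw [map_add, mul_add]; exact Rep.add hx hy
  intro a' e' he' ha'
  have h1 : W.p1 B B' (S.π a e) * W.p2 B B' (S'.π a' e') =
      (S.prod S').π (a, a') (W₀.p1 (S.Y a) (S'.Y a') e * W₀.p2 (S.Y a) (S'.Y a') e') := by
    rw [prod_π]
    refine Eq.trans ?_ (xtp_cross _ _ _ _ _).symm
    rw [parP_rat he']
  rw [h1]
  refine Rep.single (S := S.prod S') (a, a') ?_ fun hne => ?_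
  · exact W₀.mul_mem_ratSpan (W₀.pull_mem_ratSpan _ he) (W₀.pull_mem_ratSpan _ he')
  · exact absurd (by change S.wt a + S'.wt a' = n + n'; rw [ha, ha']) hne

end rep

/-! ### The action -/

section act

variable {A A' : 𝒱₀.Obj} {B B' : 𝒱.Obj}

theorem p2_p1_parP [CharZero K] {x : W.H B} {i : ℤ} (hx : W.par B x = sg K i • x) (v : W.H B') :
    W.p2 B B' v * W.p1 B B' x = W.p1 B B' x * W.p2 B B' (parP W B' i v) := by
  refine par_induction (P := fun v => W.p2 B B' v * W.p1 B B' x =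
    W.p1 B B' x * W.p2 B B' (parP W B' i v)) ?_ ?_ v
  · intro v v' hv hv'
    rw [map_add, add_mul, hv, hv', map_add, map_add, mul_add]
  intro t v hv
  rw [parP_apply hv, map_smul, mul_smul_comm, mul_comm i t]
  refine supercomm_sg ?_ ?_
  · rw [W.par_pull, hv, map_smul]
  · rw [W.par_pull, hx, map_smul]

theorem tr_cross_parP [CharZero K] {x : W.H B} {i : ℤ} (hx : W.par B x = sg K i • x) (u : W.H B)
    (v w : W.H B') : W.tr (B.prod B') (W.p1 B B' u * W.p2 B B' v * (W.p1 B B' x * W.p2 B B' w)) =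
      W.tr B (u * x) * W.tr B' (parP W B' i v * w) := by
  have h : W.p1 B B' u * W.p2 B B' v * (W.p1 B B' x * W.p2 B B' w) =
      W.p1 B B' (u * x) * W.p2 B B' (parP W B' i v * w) := by
    rw [map_mul, map_mul, mul_assoc, ← mul_assoc (W.p2 B B' v), p2_p1_parP hx, mul_assoc, mul_assoc]
  rw [h, W.tr_prod]

theorem act_cross [CharZero K] {x : W.H B} {i : ℤ} (hx : W.par B x = sg K i • x) (u : W.H B)
    (v : W.H B') : W.act (W.p1 B B' u * W.p2 B B' v) x = W.tr B (u * x) • parP W B' i v := by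
  refine W.ext_tr fun w => ?_
  rw [W.tr_act, tr_cross_parP hx, smul_mul_assoc, map_smul, smul_eq_mul]

theorem act_xt [CharZero K] (φ : W₀.H A →ₗ[K] W.H B) (ψ : W₀.H A' →ₗ[K] W.H B') {x : W.H B}
    {z : W₀.H A} {i j : ℤ} (hx : W.par B x = sg K i • x) (hz : W₀.par A z = sg K j • z)
    (h : ∀ u, W.tr B (φ u * x) = W₀.tr A (u * z)) (E : W₀.H (A.prod A')) :
    W.act (xt W₀ W φ ψ E) x = parP W B' i (ψ (parP W₀ A' j (W₀.act E z))) := by
  refine W₀.kunneth_induction A A' (P := fun E => W.act (xt W₀ W φ ψ E) x =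
    parP W B' i (ψ (parP W₀ A' j (W₀.act E z)))) ?_ ?_ E
  · intro E E' hE hE'
    simp only [map_add, W.act_add, W₀.act_add, LinearMap.add_apply] at hE hE' ⊢
    rw [hE, hE']
  intro u v
  rw [xt_cross, act_cross hx, act_cross hz, h, map_smul, map_smul, map_smul, parP_parP]

/-- The action of a class `π_{(a,a')} (E)` on `π_c (y)`. -/
theorem act_xtp_general [CharZero K] {S : Sys W₀ W B} (hS : S.Good) {S' : Sys W₀ W B'}
    (hS' : S'.Good) (a c : S.J) (a' : S'.J) {κ : W₀.Hom (S.Y c) (S.Y a)} (hκ : RatMap W₀ κ)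
    (hκt : ∀ y y', W.tr B (S.π a y * S.π c (parP W₀ (S.Y c) (S.wt a) y')) =
      W₀.tr (S.Y a) (y * κ y')) {E : W₀.H ((S.Y a).prod (S'.Y a'))}
    (hE : E ∈ W₀.ratSpan ((S.Y a).prod (S'.Y a'))) {t : ℤ} {y : W₀.H (S.Y c)}
    (hy : W₀.par (S.Y c) y = sg K t • y) :
    W.act (xtp (S.π a) (S'.π a') (S.wt a) E) (S.π c y) =
      sg K (t * (S'.wt a' + S.wt c) + S.wt c * S'.wt a') • S'.π a' (W₀.act E (κ y)) := by
  have hz : W₀.par (S.Y a) (sg K (t * S.wt a) • κ y) = sg K t • (sg K (t * S.wt a) • κ y) := by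
    rw [map_smul, hκ.parity hy, smul_comm]
  have hx := hS.parity c hy
  have h1 : ∀ u, W.tr B (S.π a u * S.π c y) = W₀.tr (S.Y a) (u * (sg K (t * S.wt a) • κ y)) := by
    intro u
    have h2 := hκt u y
    rw [parP_apply hy, map_smul, mul_smul_comm, map_smul, smul_eq_mul] at h2
    rw [mul_smul_comm, map_smul, smul_eq_mul, ← h2, ← mul_assoc, mul_comm t, sg_mul_self, one_mul]
  have hE' : W₀.par _ (W₀.act E (κ y)) = sg K t • W₀.act E (κ y) :=
    (RatMap.act hE).parity (hκ.parity hy)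
  unfold xtp
  rw [act_xt _ _ hx hz h1]
  simp only [map_smul, LinearMap.comp_apply]
  rw [parP_apply hE']
  simp only [map_smul]
  rw [parP_apply hE']
  simp only [map_smul]
  rw [parP_apply (hS'.parity a' hE')]
  simp only [smul_smul, ← sg_add]
  congr 1
  apply sg_congr
  refine ⟨t * S.wt a + t * t + t * S'.wt a' + S.wt c * S'.wt a' + S.wt c * t, by ring⟩

end act

end Pool.Agent.GSp
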