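import Pool.Agent.W_f569db_gs.Sgn

set_option autoImplicit false

/-!
# Good systems
-/

noncomputable section

namespace Pool.Agent.GSp

open Pool.Agent.WeilH_h6 Pool.Agent.WeilH_h6.VarClass Pool.Agent.WeilH_h6.Weil GTh
open scoped TensorProduct

universe u v w u' w'

variable {k₀ : Type u'} {k : Type u} [Field k₀] [Field k] {𝒱₀ : VarClass k₀} {𝒱 : VarClass k}
  {K : Type v} [Field K] {W₀ : Weil.{u', v, w'} 𝒱₀ K} {W : Weil.{u, v, w} 𝒱 K}

/-- Good systems: surjectivity, parity, and bilinear form given by cycles and compatible with the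
weights. -/
structure Sys.Good {B : 𝒱.Obj} (S : Sys W₀ W B) : Prop where
  surj : ⨆ a, LinearMap.range (S.π a) = ⊤
  par : ∀ a y, W.par B (S.π a y) = sg K (S.wt a) • S.π a (W₀.par (S.Y a) y)
  form : ∀ a b, ∃ κ : W₀.Hom (S.Y b) (S.Y a), RatMap W₀ κ ∧ (S.wt a + S.wt b ≠ 0 → κ = 0) ∧
    ∀ y y', W.tr B (S.π a y * S.π b (parP W₀ (S.Y b) (S.wt a) y')) = W₀.tr (S.Y a) (y * κ y')

/-- Parity of linear maps. -/
def HasPar {A : 𝒱₀.Obj} {B : 𝒱.Obj} (φ : W₀.H A →ₗ[K] W.H B) (n : ℤ) : Prop :=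
  ∀ y, W.par B (φ y) = sg K n • φ (W₀.par A y)

theorem HasPar.parity {A : 𝒱₀.Obj} {B : 𝒱.Obj} {φ : W₀.H A →ₗ[K] W.H B} {n : ℤ}
    (h : HasPar φ n) {y : W₀.H A} {t : ℤ} (hy : W₀.par A y = sg K t • y) :
    W.par B (φ y) = sg K (n + t) • φ y := by
  rw [h, hy, map_smul, smul_smul, ← sg_add]

/-- The parity of `π_a y`. -/
theorem Sys.Good.parity {B : 𝒱.Obj} {S : Sys W₀ W B} (hS : S.Good) (a : S.J) {y : W₀.H (S.Y a)}
    {t : ℤ} (hy : W₀.par (S.Y a) y = sg K t • y) :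
    W.par B (S.π a y) = sg K (S.wt a + t) • S.π a y := by
  rw [hS.par, hy, map_smul, smul_smul, ← sg_add]

/-- Induction on elements of `H(B)`. -/
theorem Sys.Good.induction [CharZero K] {B : 𝒱.Obj} {S : Sys W₀ W B} (hS : S.Good)
    {P : W.H B → Prop} (h0 : P 0) (hadd : ∀ x y, P x → P y → P (x + y))
    (h : ∀ (a : S.J) (t : ℤ) (y : W₀.H (S.Y a)), W₀.par (S.Y a) y = sg K t • y → P (S.π a y))
    (x : W.H B) : P x := by
  have hx : x ∈ ⨆ a, LinearMap.range (S.π a) := by rw [hS.surj]; exact Submodule.mem_top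
  refine Submodule.iSup_induction _ (motive := P) hx ?_ h0 hadd
  rintro a _ ⟨y, rfl⟩
  refine par_induction (P := fun y => P (S.π a y)) ?_ (fun t y hy => h a t y hy) y
  intro y y' hy hy'
  rw [map_add]
  exact hadd _ _ hy hy'

/-- Extensionality for linear maps on `H(B)`. -/
theorem Sys.Good.ext {B : 𝒱.Obj} {S : Sys W₀ W B} (hS : S.Good) {M : Type*} [AddCommGroup M]
    [Module K M] {f g : W.H B →ₗ[K] M} (h : ∀ a y, f (S.π a y) = g (S.π a y)) : f = g := by
  ext x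
  have hx : x ∈ ⨆ a, LinearMap.range (S.π a) := by rw [hS.surj]; exact Submodule.mem_top
  refine Submodule.iSup_induction _ (motive := fun x => f x = g x) hx ?_ ?_ ?_
  · rintro a _ ⟨y, rfl⟩
    exact h a y
  · rw [map_zero, map_zero]
  · intro x y hx hy
    rw [map_add, map_add, hx, hy]

/-- An element orthogonal to all `π_a y` is zero. -/
theorem Sys.Good.eq_zero {B : 𝒱.Obj} {S : Sys W₀ W B} (hS : S.Good) {x : W.H B}
    (h : ∀ a y, W.tr B (S.π a y * x) = 0) : x = 0 := by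
  have h1 : W.tr B ∘ₗ (LinearMap.mulRight K x) = 0 := hS.ext fun a y => h a y
  refine W.ext_tr' fun v => ?_
  rw [mul_zero, map_zero]
  exact LinearMap.congr_fun h1 v

/-! ### The unit -/

/-- the map of the unit system -/
def uπ (W₀ : Weil.{u', v, w'} 𝒱₀ K) (W : Weil.{u, v, w} 𝒱 K) :
    W₀.H (Obj.pt : 𝒱₀.Obj) →ₗ[K] W.H (Obj.pt : 𝒱.Obj) :=
  LinearMap.toSpanSingleton K (W.H Obj.pt) 1 ∘ₗ W₀.tr Obj.pt

theorem uπ_apply (y : W₀.H (Obj.pt : 𝒱₀.Obj)) : uπ W₀ W y = W₀.tr Obj.pt y • 1 :=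
  LinearMap.toSpanSingleton_apply _ _ _ _

theorem uπ_form (y y' : W₀.H (Obj.pt : 𝒱₀.Obj)) :
    W.tr Obj.pt (uπ W₀ W y * uπ W₀ W y') = W₀.tr Obj.pt (y * y') := by
  rw [uπ_apply, uπ_apply, smul_mul_smul_comm, one_mul, map_smul, W.tr_pt_one, smul_eq_mul, mul_one]
  conv_rhs => rw [W₀.eq_smul_one y, W₀.eq_smul_one y', smul_mul_smul_comm, one_mul, map_smul,
    W₀.tr_pt_one, smul_eq_mul, mul_one]

theorem uπ_surj (x : W.H (Obj.pt : 𝒱.Obj)) : ∃ y, uπ W₀ W y = x := by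
  refine ⟨W.tr Obj.pt x • 1, ?_⟩
  rw [uπ_apply, map_smul, W₀.tr_pt_one, smul_eq_mul, mul_one]
  exact (W.eq_smul_one x).symm

theorem uπ_par [CharZero K] : HasPar (uπ W₀ W) 0 := by
  intro y
  rw [sg_zero, one_smul, uπ_apply, uπ_apply, W₀.tr_par, map_smul,
    W.par_algSpan (W.ratSpan_le (W.one_mem_ratSpan _))]

theorem good_unit [CharZero K] : (Sys.unit : Sys W₀ W Obj.pt).Good where
  surj := by
    rw [eq_top_iff]
    intro x _
    refine Submodule.mem_iSup_of_mem (p := fun _ : Unit => LinearMap.range (uπ W₀ W)) () ?_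
    exact uπ_surj x
  par := fun _ y => uπ_par y
  form := fun _ _ => ⟨LinearMap.id, RatMap.id _, fun h => absurd (add_zero (0 : ℤ)) h,
    fun y y' => by
      have h := uπ_form (W₀ := W₀) (W := W) y (parP W₀ Obj.pt 0 y')
      rw [parP_zero (W := W₀) Obj.pt y'] at h
      exact (congrArg (W.tr Obj.pt) (congrArg (uπ W₀ W y * uπ W₀ W ·)
        (parP_zero (W := W₀) Obj.pt y'))).trans h⟩

/-! ### Products -/

section xtp

variable {A A' C C' : 𝒱₀.Obj} {B B' : 𝒱.Obj}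

/-- the maps of the product system -/
def xtp (φ : W₀.H A →ₗ[K] W.H B) (ψ : W₀.H A' →ₗ[K] W.H B') (n : ℤ) :
    W₀.H (A.prod A') →ₗ[K] W.H (B.prod B') := xt W₀ W φ (ψ ∘ₗ parP W₀ A' n)

theorem xtp_cross (φ : W₀.H A →ₗ[K] W.H B) (ψ : W₀.H A' →ₗ[K] W.H B') (n : ℤ)
    (x : W₀.H A) (y : W₀.H A') : xtp φ ψ n (W₀.p1 A A' x * W₀.p2 A A' y) =
      W.p1 B B' (φ x) * W.p2 B B' (ψ (parP W₀ A' n y)) := xt_cross _ _ _ _

theorem prod_π (S : Sys W₀ W B) (S' : Sys W₀ W B') (a : S.J) (a' : S'.J) :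
    (S.prod S').π (a, a') = xtp (S.π a) (S'.π a') (S.wt a) := rfl

theorem parP_parP (Y : 𝒱.Obj) (n : ℤ) (x : W.H Y) : parP W Y n (parP W Y n x) = x := by
  rw [parP_def]
  split_ifs
  · rfl
  · exact W.par_par x

theorem parP_par (Y : 𝒱.Obj) (n : ℤ) (x : W.H Y) :
    parP W Y n (W.par Y x) = W.par Y (parP W Y n x) := by
  rw [parP_def]
  split_ifs <;> rfl

theorem xtp_par {φ : W₀.H A →ₗ[K] W.H B} {ψ : W₀.H A' →ₗ[K] W.H B'} {p p' : ℤ} (n : ℤ)
    (hφ : HasPar φ p) (hψ : HasPar ψ p') : HasPar (xtp φ ψ n) (p + p') := by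
  intro y
  have h : W.par (B.prod B') ∘ₗ xtp φ ψ n = sg K (p + p') • (xtp φ ψ n ∘ₗ W₀.par (A.prod A')) := by
    refine ext_cross fun x y => ?_
    rw [LinearMap.comp_apply, xtp_cross, par_cross, LinearMap.smul_apply, LinearMap.comp_apply,
      par_cross, xtp_cross, hφ, hψ, sg_add, map_smul, map_smul, smul_mul_smul_comm, parP_par]
  exact LinearMap.congr_fun h y

/-- Induction on `H(A × A')` for homogeneous elements. -/
theorem cross_induction [CharZero K] {P : W₀.H (A.prod A') → Prop}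
    (hadd : ∀ a b, P a → P b → P (a + b))
    (h : ∀ (i j : ℤ) (x : W₀.H A) (y : W₀.H A'), W₀.par A x = sg K i • x →
      W₀.par A' y = sg K j • y → P (W₀.p1 A A' x * W₀.p2 A A' y)) (u : W₀.H (A.prod A')) : P u := by
  refine W₀.kunneth_induction A A' hadd (fun x y => ?_) u
  refine par_induction (P := fun x => P (W₀.p1 A A' x * W₀.p2 A A' y)) ?_ ?_ x
  · intro x x' hx hx'
    rw [map_add, add_mul]
    exact hadd _ _ hx hx'
  intro i x hx
  refine par_induction (P := fun y => P (W₀.p1 A A' x * W₀.p2 A A' y)) ?_ ?_ y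
  · intro y y' hy hy'
    rw [map_add, mul_add]
    exact hadd _ _ hy hy'
  intro j y hy
  exact h i j x y hx hy

theorem xtp_form [CharZero K] {φ : W₀.H A →ₗ[K] W.H B} {ψ : W₀.H A' →ₗ[K] W.H B'}
    {φ' : W₀.H C →ₗ[K] W.H B} {ψ' : W₀.H C' →ₗ[K] W.H B'} {p p' q : ℤ}
    (hψ : HasPar ψ p') (hφ' : HasPar φ' q) {κ : W₀.Hom C A} {κ' : W₀.Hom C' A'}
    (hκ : RatMap W₀ κ) (hκ0 : p + q ≠ 0 → κ = 0)
    (hκt : ∀ y y', W.tr B (φ y * φ' (parP W₀ C p y')) = W₀.tr A (y * κ y'))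
    (hκt' : ∀ y y', W.tr B' (ψ y * ψ' (parP W₀ C' p' y')) = W₀.tr A' (y * κ' y'))
    (u : W₀.H (A.prod A')) (u' : W₀.H (C.prod C')) :
    W.tr (B.prod B') (xtp φ ψ p u * xtp φ' ψ' q (parP W₀ (C.prod C') (p + p') u')) =
      W₀.tr (A.prod A') (u * (sg K (p * p') • W₀.extHom κ κ' u')) := by
  refine cross_induction (P := fun u => W.tr (B.prod B') (xtp φ ψ p u *
    xtp φ' ψ' q (parP W₀ (C.prod C') (p + p') u')) =
      W₀.tr (A.prod A') (u * (sg K (p * p') • W₀.extHom κ κ' u'))) ?_ ?_ u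
  · intro x y hx hy
    rw [map_add, add_mul, map_add, hx, hy, add_mul, map_add]
  intro i j x y hx hy
  refine cross_induction (P := fun u' => W.tr (B.prod B') (xtp φ ψ p
    (W₀.p1 A A' x * W₀.p2 A A' y) * xtp φ' ψ' q (parP W₀ (C.prod C') (p + p') u')) =
      W₀.tr (A.prod A') (W₀.p1 A A' x * W₀.p2 A A' y *
        (sg K (p * p') • W₀.extHom κ κ' u'))) ?_ ?_ u'
  · intro x' y' hx hy
    rw [map_add, map_add, mul_add, map_add, hx, hy, map_add, smul_add, mul_add, map_add]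
  intro i' j' x' y' hx' hy'
  have e1 : W.tr B (φ x * φ' x') = sg K (p * i') * W₀.tr A (x * κ x') := by
    have h1 := hκt x x'
    rw [parP_apply hx', map_smul, mul_smul_comm, map_smul, smul_eq_mul] at h1
    rw [← h1, ← mul_assoc, sg_mul_self, one_mul]
  have e2 : W.tr B' (ψ y * ψ' y') = sg K (p' * j') * W₀.tr A' (y * κ' y') := by
    have h1 := hκt' y y'
    rw [parP_apply hy', map_smul, mul_smul_comm, map_smul, smul_eq_mul] at h1
    rw [← h1, ← mul_assoc, sg_mul_self, one_mul]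
  have e3 : W₀.tr (A.prod A') (W₀.p1 A A' x * W₀.p2 A A' y *
      (W₀.p1 A A' (κ x') * W₀.p2 A A' (κ' y'))) =
      sg K (j * i') * (W₀.tr A (x * κ x') * W₀.tr A' (y * κ' y')) :=
    tr_cross_mul _ _ _ _ hy (hκ.parity hx')
  have e4 : W.tr (B.prod B') (W.p1 B B' (φ x) * W.p2 B B' (ψ y) *
      (W.p1 B B' (φ' x') * W.p2 B B' (ψ' y'))) =
      sg K ((p' + j) * (q + i')) * (W.tr B (φ x * φ' x') * W.tr B' (ψ y * ψ' y')) :=
    tr_cross_mul _ _ _ _ (hψ.parity hy) (hφ'.parity hx')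
  rw [parP_cross, xtp_cross, xtp_cross, parP_apply hx', parP_apply hy', parP_apply hy,
    map_smul (parP W₀ C' q), parP_apply hy', map_smul φ', map_smul ψ, map_smul ψ', map_smul ψ',
    W₀.extHom_apply]
  simp only [map_smul, mul_smul_comm, smul_mul_assoc, smul_eq_mul]
  rw [e4, e1, e2, e3]
  by_cases hw : p + q = 0
  · have hb : q = - p := by linarith
    subst hb
    have e5 : sg K ((p + p') * j') = sg K (p * j') * sg K (p' * j') := by rw [add_mul, sg_add]
    have e6 : sg K ((p + p') * i') = sg K (p * i') * sg K (p' * i') := by rw [add_mul, sg_add]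
    have e7 : sg K (-p * j') = sg K (p * j') :=
      sg_congr (by rw [neg_mul, neg_add_cancel]; exact Even.zero)
    have e8 : sg K ((p' + j) * (-p + i')) = sg K (p * p') * sg K (p' * i') *
        (sg K (p * j) * sg K (j * i')) := by
      have : (p' + j) * (-p + i') = -(p * p') + p' * i' + (-(p * j) + j * i') := by ring
      rw [this, sg_add, sg_add, sg_add]
      have n1 : sg K (-(p * p')) = sg K (p * p') :=
        sg_congr (by rw [neg_add_cancel]; exact Even.zero)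
      have n2 : sg K (-(p * j)) = sg K (p * j) :=
        sg_congr (by rw [neg_add_cancel]; exact Even.zero)
      rw [n1, n2]
    rw [e5, e6, e7, e8]
    have q1 := sg_mul_self (K := K) (p * j')
    have q2 := sg_mul_self (K := K) (p' * j')
    have q3 := sg_mul_self (K := K) (p * i')
    have q4 := sg_mul_self (K := K) (p' * i')
    have q5 := sg_mul_self (K := K) (p * j)
    generalize sg K (p * j') = A1 at *
    generalize sg K (p' * j') = A2 at *
    generalize sg K (p * i') = A3 at *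
    generalize sg K (p' * i') = A4 at *
    generalize sg K (p * j) = A5 at *
    generalize sg K (p * p') = A6 at *
    generalize sg K (j * i') = A7 at *
    generalize W₀.tr A (x * κ x') = T1
    generalize W₀.tr A' (y * κ' y') = T2
    have q : (A1 * A1) * (A2 * A2) * (A3 * A3) * (A4 * A4) * (A5 * A5) * (A6 * A7 * (T1 * T2)) =
        A6 * (A7 * (T1 * T2)) := by
      rw [q1, q2, q3, q4, q5]; ring
    rw [← q]
    ring
  · rw [hκ0 hw, LinearMap.zero_apply, mul_zero, map_zero]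
    ring

theorem xtp_surj [CharZero K] {S : Sys W₀ W B} {S' : Sys W₀ W B'} (hS : S.Good) (hS' : S'.Good) :
    ⨆ p : S.J × S'.J, LinearMap.range (xtp (S.π p.1) (S'.π p.2) (S.wt p.1)) = ⊤ := by
  rw [eq_top_iff]
  intro x _
  refine W.kunneth_induction B B' (P := fun x => x ∈ ⨆ p : S.J × S'.J,
    LinearMap.range (xtp (S.π p.1) (S'.π p.2) (S.wt p.1))) ?_ ?_ x
  · intro x y hx hy
    exact Submodule.add_mem _ hx hy
  intro x y
  refine hS.induction (P := fun x => W.p1 B B' x * W.p2 B B' y ∈ ⨆ p : S.J × S'.J,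
    LinearMap.range (xtp (S.π p.1) (S'.π p.2) (S.wt p.1))) ?_ ?_ ?_ x
  · rw [map_zero, zero_mul]; exact Submodule.zero_mem _
  · intro x x' hx hx'
    rw [map_add, add_mul]
    exact Submodule.add_mem _ hx hx'
  intro a t x _
  refine hS'.induction (P := fun y => W.p1 B B' (S.π a x) * W.p2 B B' y ∈ ⨆ p : S.J × S'.J,
    LinearMap.range (xtp (S.π p.1) (S'.π p.2) (S.wt p.1))) ?_ ?_ ?_ y
  · rw [map_zero, mul_zero]; exact Submodule.zero_mem _
  · intro x x' hx hx'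
    rw [map_add, mul_add]
    exact Submodule.add_mem _ hx hx'
  intro a' t' y _
  refine Submodule.mem_iSup_of_mem (a, a') ?_
  refine ⟨W₀.p1 (S.Y a) (S'.Y a') x * W₀.p2 (S.Y a) (S'.Y a')
    (parP W₀ (S'.Y a') (S.wt a) y), ?_⟩
  change xtp (S.π a) (S'.π a') (S.wt a) (W₀.p1 (S.Y a) (S'.Y a') x * W₀.p2 (S.Y a) (S'.Y a')
    (parP W₀ (S'.Y a') (S.wt a) y)) = _
  rw [xtp_cross, parP_parP]

theorem extHom_zero_left {C C' D D' : 𝒱.Obj} (ψ : W.Hom D D') :
    W.extHom (0 : W.Hom C C') ψ = 0 := by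
  refine ext_cross fun x y => ?_
  rw [W.extHom_apply, LinearMap.zero_apply, map_zero, zero_mul, LinearMap.zero_apply]

theorem extHom_zero_right {C C' D D' : 𝒱.Obj} (ψ : W.Hom D D') :
    W.extHom ψ (0 : W.Hom C C') = 0 := by
  refine ext_cross fun x y => ?_
  rw [W.extHom_apply, LinearMap.zero_apply, map_zero, mul_zero, LinearMap.zero_apply]

theorem smul_extHom_zero {C C' D D' : 𝒱.Obj} {κ : W.Hom C D} {κ' : W.Hom C' D'} (c : K)
    (h : κ = 0 ∨ κ' = 0) : c • W.extHom κ κ' = 0 := by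
  rcases h with rfl | rfl
  · rw [extHom_zero_left, smul_zero]
  · rw [extHom_zero_right, smul_zero]

theorem Sys.Good.prod [CharZero K] {S : Sys W₀ W B} {S' : Sys W₀ W B'}
    (hS : S.Good) (hS' : S'.Good) : (S.prod S').Good where
  surj := xtp_surj hS hS'
  par := fun p y => xtp_par (S.wt p.1) (hS.par p.1) (hS'.par p.2) y
  form := by
    rintro ⟨a, a'⟩ ⟨b, b'⟩
    obtain ⟨κ, hκ, hκ0, hκt⟩ := hS.form a b
    obtain ⟨κ', hκ', hκ0', hκt'⟩ := hS'.form a' b'
    refine ⟨sg K (S.wt a * S'.wt a') • W₀.extHom κ κ', (hκ.extHom hκ').sg_smul _, ?_, ?_⟩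
    · intro hne
      have h1 : S.wt a + S.wt b ≠ 0 ∨ S'.wt a' + S'.wt b' ≠ 0 := by
        by_contra hcon
        push Not at hcon
        apply hne
        change S.wt a + S'.wt a' + (S.wt b + S'.wt b') = 0
        linarith [hcon.1, hcon.2]
      exact smul_extHom_zero _ (h1.imp hκ0 hκ0')
    · exact xtp_form (hS'.par a') (hS.par b) hκ hκ0 hκt hκt'

end xtp

theorem Sys.Good.pow [CharZero K] {X : 𝒱.Obj} {S : Sys W₀ W X} (hS : S.Good) :
    ∀ m, (S.pow m).Good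
  | 0 => good_unit
  | m + 1 => (hS.pow m).prod hS

end Pool.Agent.GSp
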