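import Pool.Agent.W_f569db_gs.Skew

set_option autoImplicit false

/-!
# Isomorphisms of systems
-/

noncomputable section

namespace Pool.Agent.GSp

open AlgebraicGeometry CategoryTheory
open Pool.Agent.WeilH_h6 Pool.Agent.WeilH_h6.VarClass Pool.Agent.WeilH_h6.Weil GTh
open scoped TensorProduct

universe u v w u' w'

variable {k₀ : Type u'} {k : Type u} [Field k₀] [Field k] {𝒱₀ : VarClass k₀} {𝒱 : VarClass k}
  {K : Type v} [Field K] {W₀ : Weil.{u', v, w'} 𝒱₀ K} {W : Weil.{u, v, w} 𝒱 K}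

/-! ### Morphisms -/

section mor

variable {k : Type u} [Field k] {𝒱 : VarClass k}

/-- `f × g` -/
def pm {B B' C C' : 𝒱.Obj} (f : B ⟶ B') (g : C ⟶ C') : B.prod C ⟶ B'.prod C' :=
  Obj.lift (Obj.fst B C ≫ f) (Obj.snd B C ≫ g)

/-- the inverse of `assocM` -/
def assocN (Y Z T : 𝒱.Obj) : (Y.prod Z).prod T ⟶ Y.prod (Z.prod T) :=
  Obj.lift (Obj.fst (Y.prod Z) T ≫ Obj.fst Y Z)
    (Obj.lift (Obj.fst (Y.prod Z) T ≫ Obj.snd Y Z) (Obj.snd (Y.prod Z) T))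

/-- `B → B × pt` -/
def rU (B : 𝒱.Obj) : B ⟶ B.prod Obj.pt := Obj.lift (𝟙 B) (Obj.toPt B)

/-- `B → pt × B` -/
def lU (B : 𝒱.Obj) : B ⟶ (Obj.pt : 𝒱.Obj).prod B := Obj.lift (Obj.toPt B) (𝟙 B)

theorem pm_comp {B B' B'' C C' C'' : 𝒱.Obj} (f : B ⟶ B') (f' : B' ⟶ B'') (g : C ⟶ C')
    (g' : C' ⟶ C'') : pm f g ≫ pm f' g' = pm (f ≫ f') (g ≫ g') := by
  unfold pm
  refine Obj.hom_ext ?_ ?_
  · rw [Category.assoc, Obj.lift_fst, ← Category.assoc, Obj.lift_fst, Obj.lift_fst,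
      Category.assoc]
  · rw [Category.assoc, Obj.lift_snd, ← Category.assoc, Obj.lift_snd, Obj.lift_snd,
      Category.assoc]

theorem pm_id (B C : 𝒱.Obj) : pm (𝟙 B) (𝟙 C) = 𝟙 (B.prod C) := by
  unfold pm
  refine Obj.hom_ext ?_ ?_
  · rw [Obj.lift_fst, Category.comp_id, Category.id_comp]
  · rw [Obj.lift_snd, Category.comp_id, Category.id_comp]

theorem assocM_N (Y Z T : 𝒱.Obj) : assocM Y Z T ≫ assocN Y Z T = 𝟙 _ := by
  have h1 : assocN Y Z T ≫ Obj.fst Y (Z.prod T) = Obj.fst (Y.prod Z) T ≫ Obj.fst Y Z :=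
    Obj.lift_fst _ _
  have h2 : assocN Y Z T ≫ Obj.snd Y (Z.prod T) =
    Obj.lift (Obj.fst (Y.prod Z) T ≫ Obj.snd Y Z) (Obj.snd (Y.prod Z) T) := Obj.lift_snd _ _
  refine Obj.hom_ext ?_ (Obj.hom_ext ?_ ?_)
  · rw [Category.assoc, h1, ← Category.assoc, Obj.lift_fst, Obj.lift_fst, Category.id_comp]
  · rw [Category.assoc (assocM Y Z T), h2, Category.assoc, Obj.lift_fst, ← Category.assoc,
      Obj.lift_fst, Obj.lift_snd, Category.id_comp]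
  · rw [Category.assoc (assocM Y Z T), h2, Category.assoc, Obj.lift_snd, Obj.lift_snd,
      Category.id_comp]

theorem rU_fst (B : 𝒱.Obj) : Obj.fst B Obj.pt ≫ rU B = 𝟙 _ := by
  unfold rU
  refine Obj.hom_ext ?_ (Obj.toPt_unique _ _)
  rw [Category.assoc, Obj.lift_fst, Category.comp_id, Category.id_comp]

theorem lU_snd (B : 𝒱.Obj) : lU B ≫ Obj.snd Obj.pt B = 𝟙 _ := Obj.lift_snd _ _

end mor

/-! ### Pull-backs of cross products -/

section pull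

theorem pull_pm {B B' C C' : 𝒱.Obj} (f : B ⟶ B') (g : C ⟶ C') (x : W.H B') (y : W.H C') :
    W.pull (pm f g) (W.p1 B' C' x * W.p2 B' C' y) =
      W.p1 B C (W.pull f x) * W.p2 B C (W.pull g y) := by
  unfold pm
  rw [map_mul, ← W.pull_comp, ← W.pull_comp, Obj.lift_fst, Obj.lift_snd, W.pull_comp, W.pull_comp]

theorem pull_assocN {Y Z T : 𝒱.Obj} (y : W.H Y) (z : W.H Z) (t : W.H T) :
    W.pull (assocN Y Z T) (W.p1 Y (Z.prod T) y * W.p2 Y (Z.prod T) (W.p1 Z T z * W.p2 Z T t)) =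
      W.p1 (Y.prod Z) T (W.p1 Y Z y * W.p2 Y Z z) * W.p2 (Y.prod Z) T t := by
  unfold assocN
  simp only [map_mul, ← W.pull_comp, Obj.lift_fst, Obj.lift_snd, ← Category.assoc, mul_assoc]

theorem pull_assocM' {Y Z T : 𝒱.Obj} (y : W.H Y) (z : W.H Z) (t : W.H T) :
    W.pull (assocM Y Z T) (W.p1 (Y.prod Z) T (W.p1 Y Z y * W.p2 Y Z z) *
      W.p2 (Y.prod Z) T t) =
      W.p1 Y (Z.prod T) y * W.p2 Y (Z.prod T) (W.p1 Z T z * W.p2 Z T t) := by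
  simp only [map_mul, ← W.pull_comp, Obj.lift_fst, Obj.lift_snd, ← Category.assoc, mul_assoc]

theorem pull_rU {B : 𝒱.Obj} (x : W.H B) (y : W.H (Obj.pt : 𝒱.Obj)) :
    W.pull (rU B) (W.p1 B Obj.pt x * W.p2 B Obj.pt y) = W.tr Obj.pt y • x := by
  unfold rU
  rw [map_mul, ← W.pull_comp, ← W.pull_comp, Obj.lift_fst, Obj.lift_snd, W.pull_id]
  conv_lhs => rw [W.eq_smul_one y]
  rw [map_smul, map_one, mul_smul_comm, mul_one]

theorem pull_lU {B : 𝒱.Obj} (x : W.H (Obj.pt : 𝒱.Obj)) (y : W.H B) :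
    W.pull (lU B) (W.p1 Obj.pt B x * W.p2 Obj.pt B y) = W.tr Obj.pt x • y := by
  unfold lU
  rw [map_mul, ← W.pull_comp, ← W.pull_comp, Obj.lift_fst, Obj.lift_snd, W.pull_id]
  conv_lhs => rw [W.eq_smul_one x]
  rw [map_smul, map_one, smul_mul_assoc, one_mul]

theorem parP_pull {B B' : 𝒱.Obj} (f : B ⟶ B') (n : ℤ) (y : W.H B') :
    parP W B n (W.pull f y) = W.pull f (parP W B' n y) := by
  rw [parP_def, parP_def]
  split_ifs
  · rfl
  · exact W.par_pull f y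

theorem parP_add {B : 𝒱.Obj} (m n : ℤ) (y : W.H B) :
    parP W B (m + n) y = parP W B n (parP W B m y) := by
  rw [parP_def, parP_def, parP_def]
  rcases Int.even_or_odd m with hm | hm <;> rcases Int.even_or_odd n with hn | hn
  · rw [if_pos (hm.add hn), if_pos hm, if_pos hn]; rfl
  · rw [if_neg (Int.not_even_iff_odd.2 (hm.add_odd hn)), if_pos hm,
      if_neg (Int.not_even_iff_odd.2 hn)]; rfl
  · rw [if_neg (Int.not_even_iff_odd.2 (hm.add_even hn)), if_neg (Int.not_even_iff_odd.2 hm),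
      if_pos hn]; rfl
  · rw [if_pos (hm.add_odd hn), if_neg (Int.not_even_iff_odd.2 hm),
      if_neg (Int.not_even_iff_odd.2 hn)]
    exact (W.par_par y).symm

theorem parP_one [CharZero K] (B : 𝒱.Obj) (n : ℤ) : parP W B n 1 = 1 :=
  parP_rat (W.one_mem_ratSpan B) n

theorem triple_induction {A B C : 𝒱.Obj} {P : W.H (A.prod (B.prod C)) → Prop}
    (hadd : ∀ a b, P a → P b → P (a + b))
    (h : ∀ x y z, P (W.p1 A (B.prod C) x * W.p2 A (B.prod C) (W.p1 B C y * W.p2 B C z)))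
    (u : W.H (A.prod (B.prod C))) : P u := by
  refine W.kunneth_induction A (B.prod C) hadd (fun x v => ?_) u
  refine W.kunneth_induction B C (P := fun v => P (W.p1 A (B.prod C) x * W.p2 A (B.prod C) v))
    ?_ (fun y z => h x y z) v
  intro a b ha hb
  rw [map_add, mul_add]
  exact hadd _ _ ha hb

theorem triple_induction' {A B C : 𝒱.Obj} {P : W.H ((A.prod B).prod C) → Prop}
    (hadd : ∀ a b, P a → P b → P (a + b))
    (h : ∀ x y z, P (W.p1 (A.prod B) C (W.p1 A B x * W.p2 A B y) * W.p2 (A.prod B) C z))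
    (u : W.H ((A.prod B).prod C)) : P u := by
  refine W.kunneth_induction (A.prod B) C hadd (fun v z => ?_) u
  refine W.kunneth_induction A B (P := fun v => P (W.p1 (A.prod B) C v * W.p2 (A.prod B) C z))
    ?_ (fun x y => h x y z) v
  intro a b ha hb
  rw [map_add, add_mul]
  exact hadd _ _ ha hb

end pull

/-! ### Systems -/

/-- The pull-back along `f` maps the images of the `π'` to images of the `π`. -/
def PullSys {B B' : 𝒱.Obj} (f : B ⟶ B') (S : Sys W₀ W B) (S' : Sys W₀ W B') : Prop :=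
  ∀ a' : S'.J, ∃ (a : S.J) (u : S.Y a ⟶ S'.Y a'), S.wt a = S'.wt a' ∧
    ∀ y, W.pull f (S'.π a' y) = S.π a (W₀.pull u y)

section sys

variable {B B' B'' C C' : 𝒱.Obj}

theorem PullSys.rep {f : B ⟶ B'} {S : Sys W₀ W B} {S' : Sys W₀ W B'} (h : PullSys f S S') {n : ℤ}
    {x : W.H B'} (hx : S'.Rep n x) : S.Rep n (W.pull f x) := by
  refine Rep.induction (P := fun x => S.Rep n (W.pull f x)) ?_ ?_ ?_ hx
  · rw [map_zero]; exact Rep.zero _ _
  · intro x y hx hy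
    rw [map_add]; exact Rep.add hx hy
  intro a' e he ha'
  obtain ⟨a, u, hwt, hu⟩ := h a'
  rw [hu]
  exact Rep.single a (W₀.pull_mem_ratSpan u he) fun hne => absurd (hwt.trans ha') hne

theorem PullSys.comp {f : B ⟶ B'} {g : B' ⟶ B''} {S : Sys W₀ W B} {S' : Sys W₀ W B'}
    {S'' : Sys W₀ W B''} (h : PullSys f S S') (h' : PullSys g S' S'') :
    PullSys (f ≫ g) S S'' := by
  intro a''
  obtain ⟨a', u', hwt', hu'⟩ := h' a''
  obtain ⟨a, u, hwt, hu⟩ := h a'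
  refine ⟨a, u ≫ u', hwt.trans hwt', fun y => ?_⟩
  rw [W.pull_comp, hu', hu, W₀.pull_comp]

theorem PullSys.id (S : Sys W₀ W B) : PullSys (𝟙 B) S S := fun a =>
  ⟨a, 𝟙 _, rfl, fun y => by rw [W.pull_id, W₀.pull_id]⟩

theorem pull_xtp {A A' D D' : 𝒱₀.Obj} {φ : W₀.H A →ₗ[K] W.H B} {ψ : W₀.H A' →ₗ[K] W.H C}
    {φ' : W₀.H D →ₗ[K] W.H B'} {ψ' : W₀.H D' →ₗ[K] W.H C'} {f : B ⟶ B'} {g : C ⟶ C'}
    {u : A ⟶ D} {v : A' ⟶ D'} (hu : ∀ y, W.pull f (φ' y) = φ (W₀.pull u y))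
    (hv : ∀ y, W.pull g (ψ' y) = ψ (W₀.pull v y)) (n : ℤ) (E : W₀.H (D.prod D')) :
    W.pull (pm f g) (xtp φ' ψ' n E) = xtp φ ψ n (W₀.pull (pm u v) E) := by
  refine W₀.kunneth_induction D D' (P := fun E => W.pull (pm f g) (xtp φ' ψ' n E) =
    xtp φ ψ n (W₀.pull (pm u v) E)) ?_ ?_ E
  · intro a b ha hb
    simp only [map_add, ha, hb]
  intro x y
  rw [xtp_cross, pull_pm, pull_pm, xtp_cross, hu, hv, parP_pull]

theorem PullSys.prod {f : B ⟶ B'} {g : C ⟶ C'} {S : Sys W₀ W B} {S' : Sys W₀ W B'}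
    {T : Sys W₀ W C} {T' : Sys W₀ W C'} (h : PullSys f S S') (h' : PullSys g T T') :
    PullSys (pm f g) (S.prod T) (S'.prod T') := by
  rintro ⟨a', b'⟩
  obtain ⟨a, u, hwt, hu⟩ := h a'
  obtain ⟨b, v, hwt', hv⟩ := h' b'
  refine ⟨(a, b), pm u v, ?_, fun y => ?_⟩
  · change S.wt a + T.wt b = S'.wt a' + T'.wt b'
    rw [hwt, hwt']
  · rw [prod_π, prod_π, ← hwt]
    exact pull_xtp hu hv _ y

theorem xtp_assoc {A A' A'' : 𝒱₀.Obj} {B B' B'' : 𝒱.Obj} (φ : W₀.H A →ₗ[K] W.H B)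
    (φ' : W₀.H A' →ₗ[K] W.H B') (φ'' : W₀.H A'' →ₗ[K] W.H B'') (m n : ℤ) (x : W₀.H A)
    (y : W₀.H A') (z : W₀.H A'') :
    xtp (xtp φ φ' m) φ'' (m + n)
      (W₀.p1 (A.prod A') A'' (W₀.p1 A A' x * W₀.p2 A A' y) * W₀.p2 (A.prod A') A'' z) =
    W.p1 (B.prod B') B'' (W.p1 B B' (φ x) * W.p2 B B' (φ' (parP W₀ A' m y))) *
      W.p2 (B.prod B') B'' (φ'' (parP W₀ A'' (m + n) z)) := by
  rw [xtp_cross, xtp_cross]

theorem xtp_assoc' {A A' A'' : 𝒱₀.Obj} {B B' B'' : 𝒱.Obj} (φ : W₀.H A →ₗ[K] W.H B)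
    (φ' : W₀.H A' →ₗ[K] W.H B') (φ'' : W₀.H A'' →ₗ[K] W.H B'') (m n : ℤ) (x : W₀.H A)
    (y : W₀.H A') (z : W₀.H A'') :
    xtp φ (xtp φ' φ'' n) m
      (W₀.p1 A (A'.prod A'') x * W₀.p2 A (A'.prod A'') (W₀.p1 A' A'' y * W₀.p2 A' A'' z)) =
    W.p1 B (B'.prod B'') (φ x) * W.p2 B (B'.prod B'') (W.p1 B' B'' (φ' (parP W₀ A' m y)) *
      W.p2 B' B'' (φ'' (parP W₀ A'' (m + n) z))) := by
  rw [xtp_cross, parP_cross, xtp_cross, parP_add]

theorem PullSys.assocM {S : Sys W₀ W B} {S' : Sys W₀ W B'} {S'' : Sys W₀ W B''} :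
    PullSys (Weil.assocM B B' B'') (S.prod (S'.prod S'')) ((S.prod S').prod S'') := by
  rintro ⟨⟨a, a'⟩, a''⟩
  refine ⟨(a, (a', a'')), Weil.assocM (S.Y a) (S'.Y a') (S''.Y a''), ?_, fun y => ?_⟩
  · change S.wt a + (S'.wt a' + S''.wt a'') = S.wt a + S'.wt a' + S''.wt a''
    ring
  change W.pull (Weil.assocM B B' B'') (xtp (xtp (S.π a) (S'.π a') (S.wt a)) (S''.π a'')
    (S.wt a + S'.wt a') y) = xtp (S.π a) (xtp (S'.π a') (S''.π a'') (S'.wt a')) (S.wt a)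
      (W₀.pull (Weil.assocM (S.Y a) (S'.Y a') (S''.Y a'')) y)
  refine triple_induction' (P := fun y => W.pull (Weil.assocM B B' B'')
    (xtp (xtp (S.π a) (S'.π a') (S.wt a)) (S''.π a'')
    (S.wt a + S'.wt a') y) = xtp (S.π a) (xtp (S'.π a') (S''.π a'') (S'.wt a')) (S.wt a)
      (W₀.pull (Weil.assocM (S.Y a) (S'.Y a') (S''.Y a'')) y)) ?_ ?_ y
  · intro a b ha hb
    simp only [map_add, ha, hb]
  intro x y z
  rw [xtp_assoc, pull_assocM', pull_assocM', xtp_assoc']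

theorem PullSys.assocN {S : Sys W₀ W B} {S' : Sys W₀ W B'} {S'' : Sys W₀ W B''} :
    PullSys (GSp.assocN B B' B'') ((S.prod S').prod S'') (S.prod (S'.prod S'')) := by
  rintro ⟨a, ⟨a', a''⟩⟩
  refine ⟨((a, a'), a''), GSp.assocN (S.Y a) (S'.Y a') (S''.Y a''), ?_, fun y => ?_⟩
  · change S.wt a + S'.wt a' + S''.wt a'' = S.wt a + (S'.wt a' + S''.wt a'')
    ring
  change W.pull (GSp.assocN B B' B'') (xtp (S.π a) (xtp (S'.π a') (S''.π a'') (S'.wt a')) (S.wt a)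
    y) = xtp (xtp (S.π a) (S'.π a') (S.wt a)) (S''.π a'') (S.wt a + S'.wt a')
      (W₀.pull (GSp.assocN (S.Y a) (S'.Y a') (S''.Y a'')) y)
  refine triple_induction (P := fun y => W.pull (GSp.assocN B B' B'')
    (xtp (S.π a) (xtp (S'.π a') (S''.π a'') (S'.wt a')) (S.wt a)
    y) = xtp (xtp (S.π a) (S'.π a') (S.wt a)) (S''.π a'') (S.wt a + S'.wt a')
      (W₀.pull (GSp.assocN (S.Y a) (S'.Y a') (S''.Y a'')) y)) ?_ ?_ y
  · intro a b ha hb
    simp only [map_add, ha, hb]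
  intro x y z
  rw [xtp_assoc', pull_assocN, pull_assocN, xtp_assoc]

theorem uπ_one [CharZero K] : uπ W₀ W 1 = 1 := by rw [uπ_apply, W₀.tr_pt_one, one_smul]

theorem PullSys.rU {S : Sys W₀ W B} : PullSys (GSp.rU B) S (S.prod Sys.unit) := by
  rintro ⟨a, ⟨⟩⟩
  refine ⟨a, GSp.rU (S.Y a), ?_, fun y => ?_⟩
  · change S.wt a = S.wt a + 0
    rw [add_zero]
  change W.pull (GSp.rU B) (xtp (S.π a) (uπ W₀ W) (S.wt a) y) = S.π a (W₀.pull (GSp.rU (S.Y a)) y)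
  refine W₀.kunneth_induction (S.Y a) Obj.pt (P := fun y => W.pull (GSp.rU B)
    (xtp (S.π a) (uπ W₀ W) (S.wt a) y) = S.π a (W₀.pull (GSp.rU (S.Y a)) y)) ?_ ?_ y
  · intro a b ha hb
    simp only [map_add, ha, hb]
  intro x y
  have h1 : W₀.tr Obj.pt (parP W₀ Obj.pt (S.wt a) y) = W₀.tr Obj.pt y := by
    rw [parP_def]
    split_ifs
    · rfl
    · exact W₀.tr_par y
  rw [xtp_cross, pull_rU, pull_rU, uπ_apply, map_smul, map_smul, W.tr_pt_one, h1, smul_eq_mul,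
    mul_one]

theorem PullSys.fst [CharZero K] {S : Sys W₀ W B} :
    PullSys (Obj.fst B Obj.pt) (S.prod Sys.unit) S := by
  intro a
  refine ⟨(a, ()), Obj.fst (S.Y a) Obj.pt, ?_, fun y => ?_⟩
  · change S.wt a + 0 = S.wt a
    rw [add_zero]
  change W.p1 B Obj.pt (S.π a y) = xtp (S.π a) (uπ W₀ W) (S.wt a) (W₀.p1 (S.Y a) Obj.pt y)
  have h1 : W₀.p1 (S.Y a) Obj.pt y = W₀.p1 (S.Y a) Obj.pt y * W₀.p2 (S.Y a) Obj.pt 1 := by
    rw [map_one, mul_one]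
  rw [h1, xtp_cross, parP_one, uπ_one, map_one, mul_one]

theorem PullSys.lU {S : Sys W₀ W B} : PullSys (GSp.lU B) S (Sys.unit.prod S) := by
  rintro ⟨⟨⟩, a⟩
  refine ⟨a, GSp.lU (S.Y a), ?_, fun y => ?_⟩
  · change S.wt a = 0 + S.wt a
    rw [zero_add]
  change W.pull (GSp.lU B) (xtp (uπ W₀ W) (S.π a) 0 y) = S.π a (W₀.pull (GSp.lU (S.Y a)) y)
  refine W₀.kunneth_induction Obj.pt (S.Y a) (P := fun y => W.pull (GSp.lU B)
    (xtp (uπ W₀ W) (S.π a) 0 y) = S.π a (W₀.pull (GSp.lU (S.Y a)) y)) ?_ ?_ y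
  · intro a b ha hb
    simp only [map_add, ha, hb]
  intro x y
  rw [xtp_cross, pull_lU, pull_lU, uπ_apply, map_smul, map_smul, W.tr_pt_one, parP_zero,
    smul_eq_mul, mul_one]

theorem PullSys.snd [CharZero K] {S : Sys W₀ W B} :
    PullSys (Obj.snd Obj.pt B) (Sys.unit.prod S) S := by
  intro a
  refine ⟨((), a), Obj.snd Obj.pt (S.Y a), ?_, fun y => ?_⟩
  · change 0 + S.wt a = S.wt a
    rw [zero_add]
  change W.p2 Obj.pt B (S.π a y) = xtp (uπ W₀ W) (S.π a) 0 (W₀.p2 Obj.pt (S.Y a) y)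
  have h1 : W₀.p2 Obj.pt (S.Y a) y = W₀.p1 Obj.pt (S.Y a) 1 * W₀.p2 Obj.pt (S.Y a) y := by
    rw [map_one, one_mul]
  rw [h1, xtp_cross, parP_zero, uπ_one, map_one, one_mul]

end sys

end Pool.Agent.GSp
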