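import Mathlib

set_option autoImplicit false

/-!
# Linear algebra: weights, `sl_2`, rational forms
-/

noncomputable section

namespace Pool.Agent.GSp

variable {K V : Type*} [Field K] [CharZero K] [AddCommGroup V] [Module K V]

/-- Eigenvectors `u_a` of `h` with integral eigenvalues `w_a` and sum an eigenvector with eigenvalue `c`:
only the `u_a` with `w_a = c` contribute. -/
theorem sum_eigen {J : Type} [Fintype J] (h : V →ₗ[K] V) (u : J → V) (w : J → ℤ) (c : ℤ)
    (hu : ∀ a, h (u a) = (w a : K) • u a) (hs : h (∑ a, u a) = (c : K) • ∑ a, u a) :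
    ∑ a, u a = ∑ a, if w a = c then u a else 0 := by
  classical
  -- group by weights
  obtain ⟨s, hsd⟩ : ∃ s : Finset ℤ, s = insert c (Finset.univ.image w) := ⟨_, rfl⟩
  obtain ⟨U, hU⟩ : ∃ U : ℤ → V, U = fun n => ∑ a, if w a = n then u a else 0 := ⟨_, rfl⟩
  have hUe : ∀ n, h (U n) = (n : K) • U n := by
    intro n
    rw [hU]
    simp only [map_sum, Finset.smul_sum]
    refine Finset.sum_congr rfl fun a _ => ?_
    split_ifs with ha
    · rw [hu, ha]
    · rw [map_zero, smul_zero]
  have htot : ∑ n ∈ s, U n = ∑ a, u a := by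
    rw [hU, Finset.sum_comm]
    refine Finset.sum_congr rfl fun a _ => ?_
    rw [Finset.sum_ite_eq, if_pos]
    rw [hsd]
    exact Finset.mem_insert_of_mem (Finset.mem_image_of_mem w (Finset.mem_univ a))
  have h0 : ∑ n ∈ s, ((n : K) - c) • U n = 0 := by
    simp only [sub_smul, Finset.sum_sub_distrib]
    rw [← Finset.smul_sum, htot, ← hs, ← htot, map_sum, sub_eq_zero]
    exact Finset.sum_congr rfl fun n _ => (hUe n).symm
  have hind := (Module.End.eigenspaces_iSupIndep h)
  have hinj : Function.Injective (fun n : ℤ => (n : K)) := Int.cast_injective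
  have hind2 : iSupIndep fun n : ℤ => Module.End.eigenspace h (n : K) := hind.comp hinj
  have hz : ∀ n ∈ s, ((n : K) - c) • U n = 0 := by
    refine (iSupIndep_iff_finsetSum_eq_zero_imp_eq_zero _).1 hind2 s _ (fun n _ => ?_) h0
    rw [Module.End.mem_eigenspace_iff, map_smul, hUe, smul_comm]
  have hU0 : ∀ n ∈ s, n ≠ c → U n = 0 := by
    intro n hn hne
    rcases smul_eq_zero.1 (hz n hn) with h1 | h1
    · exact absurd (hinj (sub_eq_zero.1 h1)) hne
    · exact h1
  rw [← htot, Finset.sum_eq_single c (fun n hn hne => hU0 n hn hne)]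
  · rw [hU]
  · intro hc
    exact absurd (by rw [hsd]; exact Finset.mem_insert_self _ _) hc

/-- Lowering a vector `x` of weight `-2` with `N f x = -2 x`. -/
theorem sl2_aux [FiniteDimensional K V] {h N f : V →ₗ[K] V}
    (hf : ∀ x, h (f x) - f (h x) = -(2 : K) • f x) (hNf : ∀ x, N (f x) - f (N x) = h x) {x : V}
    (hx : h x = -(2 : K) • x) (hx' : N (f x) = -(2 : K) • x) : x = 0 := by
  have h1 : ∀ j : ℕ, h ((f ^ j) x) = (-(2 : K) - 2 * j) • (f ^ j) x := by
    intro j
    induction j with
    | zero => simpa using hx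
    | succ j ih =>
      rw [pow_succ', Module.End.mul_apply]
      have := hf ((f ^ j) x)
      rw [ih, map_smul, sub_eq_iff_eq_add] at this
      rw [this, ← add_smul]
      congr 1
      push_cast
      ring
  have h2 : ∀ j : ℕ, N ((f ^ (j + 1)) x) = (-((j : K) + 1) * (j + 2)) • (f ^ j) x := by
    intro j
    induction j with
    | zero => simpa using hx'
    | succ j ih =>
      rw [pow_succ', Module.End.mul_apply]
      have := hNf ((f ^ (j + 1)) x)
      rw [ih, h1, map_smul, sub_eq_iff_eq_add] at this
      rw [this, ← Module.End.mul_apply, ← pow_succ', ← add_smul]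
      congr 1
      push_cast
      ring
  have h3 : ∃ j : ℕ, (f ^ j) x = 0 := by
    by_contra hcon
    push Not at hcon
    have hli : LinearIndependent K fun j : ℕ => (f ^ j) x := by
      refine Module.End.eigenvectors_linearIndependent' h (fun j : ℕ => -(2 : K) - 2 * j) ?_ _
        fun j => ?_
      · intro i j hij
        have h4 : (2 : K) * i = 2 * j := by simpa using hij
        exact_mod_cast mul_left_cancel₀ (two_ne_zero) h4
      · exact Module.End.hasEigenvector_iff.2 ⟨Module.End.mem_eigenspace_iff.2 (h1 j), hcon j⟩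
    have := hli.finite
    exact not_finite ℕ
  obtain ⟨j, hj⟩ := h3
  induction j with
  | zero => simpa using hj
  | succ j ih =>
    refine ih ?_
    have h4 := h2 j
    rw [hj, map_zero] at h4
    rcases smul_eq_zero.1 h4.symm with h5 | h5
    · exfalso
      have h6 : ((j : K) + 1) * (j + 2) = 0 := by linear_combination -h5
      rcases mul_eq_zero.1 h6 with h7 | h7
      · have : ((j + 1 : ℕ) : K) ≠ 0 := by exact_mod_cast (Nat.succ_ne_zero j)
        exact this (by push_cast; exact h7)
      · have : ((j + 2 : ℕ) : K) ≠ 0 := by exact_mod_cast (Nat.succ_ne_zero (j + 1))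
        exact this (by push_cast; exact h7)
    · exact h5

/-- `N ^ 2` is injective on vectors of weight `-2`. -/
theorem sl2_inj [FiniteDimensional K V] {h N f : V →ₗ[K] V}
    (hN : ∀ x, h (N x) - N (h x) = (2 : K) • N x)
    (hf : ∀ x, h (f x) - f (h x) = -(2 : K) • f x) (hNf : ∀ x, N (f x) - f (N x) = h x) {x : V}
    (hx : h x = -(2 : K) • x) (hx' : N (N x) = 0) : x = 0 := by
  have h1 : h (N x) = 0 := by
    have := hN x
    rw [hx, map_smul, sub_eq_iff_eq_add, ← add_smul] at this
    rw [this]
    simp
  have h2 : f (N x) = 0 := by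
    refine sl2_aux hf hNf ?_ ?_
    · have := hf (N x)
      rw [h1, map_zero, sub_zero] at this
      exact this
    · have h3 : N (f (N x)) = 0 := by
        have := hNf (N x)
        rw [h1, hx', map_zero, sub_zero] at this
        exact this
      have h4 := hNf (f (N x))
      rw [h3, map_zero, sub_zero] at h4
      rw [h4]
      have := hf (N x)
      rw [h1, map_zero, sub_zero] at this
      exact this
  refine sl2_aux hf hNf hx ?_
  have := hNf x
  rw [h2, sub_zero, hx] at this
  exact this

end Pool.Agent.GSp
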