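import Mathlib

set_option autoImplicit false

/-!
# Linear algebra: rational forms
-/

noncomputable section

namespace Pool.Agent.GSp

variable {K V : Type*} [Field K] [CharZero K] [AddCommGroup V] [Module K V] [Module ℚ V]
  [IsScalarTower ℚ K V]

theorem lb_finrank (β : V →ₗ[K] V →ₗ[K] K) (P : Submodule ℚ V) {s : ℕ} (y : Fin s → V)
    (hrat : ∀ x ∈ P, ∀ j, ∃ q : ℚ, β x (y j) = q)
    (h0 : ∀ x ∈ P, (∀ j, β x (y j) = 0) → x = 0) :
    FiniteDimensional ℚ P ∧ Module.finrank ℚ P ≤ s := by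
  choose q hq using hrat
  have hinj : Function.Injective (fun q : ℚ => (q : K)) := Rat.cast_injective
  let f : P →ₗ[ℚ] (Fin s → ℚ) :=
    { toFun := fun x j => q x.1 x.2 j
      map_add' := by
        intro x x'
        funext j
        apply hinj
        change ((q (x.1 + x'.1) _ j : ℚ) : K) = ((q x.1 _ j + q x'.1 _ j : ℚ) : K)
        rw [← hq, Rat.cast_add, ← hq, ← hq, map_add, LinearMap.add_apply]
      map_smul' := by
        intro c x
        funext j
        apply hinj
        change ((q (c • x.1) _ j : ℚ) : K) = ((c * q x.1 _ j : ℚ) : K)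
        have h1 : c • x.1 = (c : K) • x.1 := by
          rw [← one_smul K x.1, ← smul_assoc, smul_smul, mul_one]
          congr 1
          exact Rat.smul_one_eq_cast K c
        rw [← hq, Rat.cast_mul, ← hq, h1, map_smul, LinearMap.smul_apply, smul_eq_mul] }
  have hf : Function.Injective f := by
    rw [injective_iff_map_eq_zero]
    intro x hx
    apply Subtype.ext
    refine h0 x.1 x.2 fun j => ?_
    rw [hq x.1 x.2 j]
    have : f x j = 0 := by rw [hx]; rfl
    change ((f x j : ℚ) : K) = 0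
    rw [this, Rat.cast_zero]
  refine ⟨FiniteDimensional.of_injective f hf, ?_⟩
  have := LinearMap.finrank_le_finrank_of_injective hf
  simpa using this

/-- A finite-dimensionality statement: `Q` separates the points of `P`. -/
theorem lb_finite [FiniteDimensional K V] (β : V →ₗ[K] V →ₗ[K] K) (P Q : Submodule ℚ V)
    (hrat : ∀ x ∈ P, ∀ y ∈ Q, ∃ q : ℚ, β x y = q)
    (h0 : ∀ x ∈ P, (∀ y ∈ Q, β x y = 0) → x = 0) : FiniteDimensional ℚ P := by
  obtain ⟨t, ht, hts⟩ : ∃ t : Finset V, (t : Set V) ⊆ Q ∧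
      Submodule.span K (t : Set V) = Submodule.span K (Q : Set V) := by
    have h1 : (Submodule.span K (Q : Set V)).FG := IsNoetherian.noetherian _
    obtain ⟨t, ht, h2⟩ := Submodule.fg_span_iff_fg_span_finset_subset (Q : Set V) |>.1 h1
    exact ⟨t, ht, h2.symm⟩
  let e := t.equivFin.symm
  refine (lb_finrank β P (fun j => (e j : V)) (fun x hx j => hrat x hx _ (ht (e j).2))
    fun x hx h => h0 x hx fun y hy => ?_).1
  have hy' : y ∈ Submodule.span K (t : Set V) := by
    rw [hts]; exact Submodule.subset_span hy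
  refine Submodule.span_induction (p := fun y _ => β x y = 0) ?_ (map_zero _) ?_ ?_ hy'
  · intro z hz
    have := h (e.symm ⟨z, hz⟩)
    simpa using this
  · intro a b _ _ ha hb
    rw [map_add, ha, hb, add_zero]
  · intro c a _ ha
    rw [map_smul, ha, smul_zero]

theorem lb_le [FiniteDimensional K V] (β : V →ₗ[K] V →ₗ[K] K) (P Q : Submodule ℚ V)
    [FiniteDimensional ℚ Q]
    (hrat : ∀ x ∈ P, ∀ y ∈ Q, ∃ q : ℚ, β x y = q)
    (h0 : ∀ x ∈ P, (∀ y ∈ Q, β x y = 0) → x = 0) :
    Module.finrank ℚ P ≤ Module.finrank ℚ Q := by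
  let b := Module.finBasis ℚ Q
  refine (lb_finrank β P (fun j => (b j : V)) (fun x hx j => hrat x hx _ (b j).2)
    fun x hx h => h0 x hx fun y hy => ?_).2
  have hy' : (⟨y, hy⟩ : Q) ∈ Submodule.span ℚ (Set.range b) := by
    rw [b.span_eq]; exact Submodule.mem_top
  refine Submodule.span_induction (p := fun (y : Q) _ => β x (y : V) = 0) ?_ (map_zero _) ?_ ?_ hy'
  · rintro _ ⟨j, rfl⟩
    exact h j
  · intro a b _ _ ha hb
    rw [Submodule.coe_add, map_add, ha, hb, add_zero]
  · intro c a _ ha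
    have h1 : ((c • a : Q) : V) = (c : K) • (a : V) := by
      rw [Submodule.coe_smul, ← one_smul K (a : V), ← smul_assoc, smul_smul, mul_one]
      congr 1
      exact Rat.smul_one_eq_cast K c
    rw [h1, map_smul, ha, smul_zero]

/-- The lemma on rational forms. -/
theorem lb_surj [FiniteDimensional K V] (β : V →ₗ[K] V →ₗ[K] K) (P Q : Submodule ℚ V)
    (hrat : ∀ x ∈ P, ∀ y ∈ Q, ∃ q : ℚ, β x y = q)
    (hl : ∀ x ∈ P, (∀ y ∈ Q, β x y = 0) → x = 0)
    (hr : ∀ y ∈ Q, (∀ x ∈ P, β x y = 0) → y = 0)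
    (g : V →ₗ[K] V) (hg : ∀ y ∈ Q, g y ∈ P) (hinj : ∀ y ∈ Q, g y = 0 → y = 0) :
    ∀ x ∈ P, ∃ y ∈ Q, g y = x := by
  have := lb_finite β P Q hrat hl
  have := lb_finite β.flip Q P (fun x hx y hy => hrat y hy x hx) hr
  have h1 := lb_le β P Q hrat hl
  have h2 := lb_le β.flip Q P (fun x hx y hy => hrat y hy x hx) hr
  let g₀ : Q →ₗ[ℚ] P := (g.restrictScalars ℚ).restrict (p := Q) (q := P) hg
  have hg₀ : Function.Injective g₀ := by
    rw [injective_iff_map_eq_zero]
    intro y hy
    apply Subtype.ext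
    exact hinj y.1 y.2 (congrArg Subtype.val hy)
  have hs : Function.Surjective g₀ :=
    (LinearMap.injective_iff_surjective_of_finrank_eq_finrank (le_antisymm h2 h1)).1 hg₀
  intro x hx
  obtain ⟨y, hy⟩ := hs ⟨x, hx⟩
  exact ⟨y.1, y.2, congrArg Subtype.val hy⟩

end Pool.Agent.GSp
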