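import Mathlib.LinearAlgebra.TensorProduct.Map
import Mathlib.Algebra.DirectSum.Internal
import Mathlib.Algebra.Module.Submodule.Lattice
import Mathlib.LinearAlgebra.FreeModule.Basic

set_option autoImplicit false

/-!
# Linear algebra for the statement
-/

noncomputable section

namespace Pool.Agent.GSp

open scoped TensorProduct

universe v w w'

/-- The sign `(-1) ^ n`. -/
def sg (K : Type v) [Field K] (n : ℤ) : K := if Even n then 1 else -1

section tensor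

variable {K : Type v} [Field K] {U U' T : Type w'} {V V' S : Type w} [AddCommGroup U]
  [AddCommGroup U'] [AddCommGroup T] [AddCommGroup V] [AddCommGroup V'] [AddCommGroup S]
  [Module K U] [Module K U'] [Module K T] [Module K V] [Module K V'] [Module K S]

/-- The inverse of a bijective map. -/
def inv (k : U →ₗ[K] T) (h : Function.Bijective k) : T →ₗ[K] U :=
  (LinearEquiv.ofBijective k h).symm.toLinearMap

/-- The tensor product of `φ` and `ψ ε`, as a map from `T = U ⊗ U'` to `S = V ⊗ V'`. -/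
def tens (q : T →ₗ[K] U ⊗[K] U') (k : V ⊗[K] V' →ₗ[K] S) (φ : U →ₗ[K] V) (ψ : U' →ₗ[K] V')
    (ε : U' →ₗ[K] U') : T →ₗ[K] S := k ∘ₗ TensorProduct.map φ (ψ ∘ₗ ε) ∘ₗ q

/-- The operator `D ⊗ 1 + 1 ⊗ φ` on `S = V ⊗ V'`. -/
def tensDer (q : S →ₗ[K] V ⊗[K] V') (k : V ⊗[K] V' →ₗ[K] S) (D : V →ₗ[K] V)
    (φ : V' →ₗ[K] V') : S →ₗ[K] S :=
  tens q k D LinearMap.id LinearMap.id + tens q k LinearMap.id φ LinearMap.id

/-- The map `y ↦ t(y) e`. -/
def rankOne (t : U →ₗ[K] K) (e : V) : U →ₗ[K] V := LinearMap.toSpanSingleton K V e ∘ₗ t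

/-- The equality `β (φ y, ψ (ε y')) = β₀ (y, κ y')` of bilinear forms. -/
abbrev FormEq (β : V → V → K) (φ : U →ₗ[K] V) (ψ : U' →ₗ[K] V) (ε : U' →ₗ[K] U')
    (β₀ : U → U → K) (κ : U' →ₗ[K] U) : Prop := ∀ y y', β (φ y) (ψ (ε y')) = β₀ y (κ y')

end tensor

section grad

variable {K : Type v} [Field K] {V : Type w} [AddCommGroup V] [Module K V]

/-- The power with exponent `n` of the parity operator of a graded vector space: multiplication by
`(-1)^(n i)` on `V^i`. -/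
def parPow (G : ℕ → Submodule K V) (hG : DirectSum.IsInternal G) (n : ℤ) : V →ₗ[K] V :=
  (DirectSum.toModule K ℕ V fun i => sg K (n * i) • (G i).subtype) ∘ₗ
    inv (DirectSum.coeLinearMap G) hG

/-- `h`, `N`, `f` form an `sl_2`: `[h, N] = 2 N`, `[h, f] = -2 f`, `[N, f] = h`. -/
abbrev Sl2 (h N f : V →ₗ[K] V) : Prop :=
  (∀ x, h (N x) - N (h x) = (2 : K) • N x) ∧ (∀ x, h (f x) - f (h x) = -(2 : K) • f x) ∧
    ∀ x, N (f x) - f (N x) = h x

/-- The operators `φ` and `N` commute. -/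
abbrev Comm (φ N : V →ₗ[K] V) : Prop := ∀ x, φ (N x) = N (φ x)

/-- `φ = p φ p` has values in `I` and is the multiplication by the nonzero constant `c` on `I`. -/
abbrev CutBy (p φ : V →ₗ[K] V) (I : Submodule K V) (c : K) : Prop :=
  c ≠ 0 ∧ (∀ x, p (φ x) = φ x ∧ φ (p x) = φ x ∧ φ x ∈ I) ∧ ∀ x ∈ I, φ x = c • x

/-- `x = p x` is primitive, `N^(n+1) x = 0`, and isotropic, `β (N^n x, θ(x)) = 0`. -/
abbrev PrimIso (β : V → V → K) (p θ N : V →ₗ[K] V) (n : ℕ) (x : V) : Prop :=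
  p x = x ∧ (N ^ (n + 1)) x = 0 ∧ β ((N ^ n) x) (θ x) = 0

end grad

section family

variable {K : Type v} [Field K] {J : Type} {U : J → Type w'} {V : Type w}
  [∀ a, AddCommGroup (U a)] [AddCommGroup V] [∀ a, Module K (U a)] [Module K V]

/-- The images of the `π_a` span `V`; `h` is the multiplication by `wt a` on the image of `π_a`; the `π_a`
commute with the operators `ε_a` and `ε` up to the sign `(-1) ^ (wt a)`. -/
abbrev IsGrading (π : ∀ a, U a →ₗ[K] V) (wt : J → ℤ) (h : V →ₗ[K] V) (ε₀ : ∀ a, U a →ₗ[K] U a)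
    (ε : V →ₗ[K] V) : Prop :=
  (∀ a y, h (π a y) = (wt a : K) • π a y ∧ ε (π a y) = sg K (wt a) • π a (ε₀ a y)) ∧
    ⨆ a, LinearMap.range (π a) = ⊤

/-- `φ (π_b y) = ∑_a π_a (ν_{ab} y)` -/
abbrev IsMatrix [Fintype J] (π : ∀ a, U a →ₗ[K] V) (ν : ∀ a b, U b →ₗ[K] U a)
    (φ : V →ₗ[K] V) : Prop := ∀ b y, φ (π b y) = ∑ a, π a (ν a b y)

/-- `x = ∑_a π_a (e_a)`, with `e_a = 0` unless `wt a = n` -/
abbrev IsSum [Fintype J] (π : ∀ a, U a →ₗ[K] V) (wt : J → ℤ) (n : ℤ) (e : ∀ a, U a) (x : V) : Prop :=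
  (∀ a, wt a ≠ n → e a = 0) ∧ x = ∑ a, π a (e a)

end family

end Pool.Agent.GSp
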