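import Pool.Agent.W_f569db_gs.TDeg
import Pool.Agent.W_f569db_g.FinalS

set_option autoImplicit false

/-!
# The main theorem
-/

noncomputable section

namespace Pool.Agent.GSp

open Pool.Agent.WeilH_h6 Pool.Agent.WeilH_h6.VarClass

universe u v w u' w'

/-- If `D` fails for a power of `X` there is a nonzero isotropic stable subspace of the generator `U` which
is cut out by every degeneration of `X` for which `D` holds for the products of the varieties `Y_a`. -/
theorem degen_obstruction {k : Type u} [Field k] {𝒱 : VarClass k} {K : Type v} [Field K] [CharZero K]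
    {W : Weil.{u, v, w} 𝒱 K} (X : 𝒱.Obj) (hpr : W.ParityRat X) (P : W.Polarised X)
    (hcon : ∃ m, ¬ W.HomEqNum (X.pow m)) :
    ∃ I : Submodule K (W.H X), I ≠ ⊥ ∧ P.IsotropicStable I ∧
      ∀ {k₀ : Type u'} [Field k₀] {𝒱₀ : VarClass k₀} (W₀ : Weil.{u', v, w'} 𝒱₀ K)
        (D : Degen W₀ W X), (∀ m a, W₀.HomEqNum ((D.toSys.pow m).Y a)) → D.CutOut P I := by
  obtain ⟨I, h0, h1, h2⟩ := GTh.exists_obstruction X hpr P hcon
  refine ⟨I, h0, h1, ?_⟩
  intro k₀ _ 𝒱₀ W₀ D hD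
  exact T_cutOut (h2 D.T fun m => T_numEq m (hD m))

/-- Totally degenerate reduction. -/
theorem degen_total {k : Type u} [Field k] {𝒱 : VarClass k} {K : Type v} [Field K] [CharZero K]
    {W : Weil.{u, v, w} 𝒱 K} (X : 𝒱.Obj) (hpr : W.ParityRat X) (P : W.Polarised X)
    {k₀ : Type u'} [Field k₀] {𝒱₀ : VarClass k₀} (W₀ : Weil.{u', v, w'} 𝒱₀ K)
    (D : Degen W₀ W X) (hA : ∀ a, W₀.algSpan (D.Y a) = ⊤) (hpos : D.Definite P) (m : ℕ) :
    W.HomEqNum (X.pow m) := by
  by_contra hm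
  obtain ⟨I, h0, h1, h2⟩ := degen_obstruction X hpr P ⟨m, hm⟩
  refine h0 (cutOut_eq_bot hA (fun n x hr hp hN hT => hpos n x hr ⟨hp, hN, hT⟩) (fun x hx y hy => (h1.2.1 P.θ P.θ_alg x hx).2 y hy)
    (h2 W₀ D fun m a => homEqNum_of_algSpan (algSpan_pow hA m a)))

end Pool.Agent.GSp
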