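import Pool.Agent.W_f569db_gs.Skew
import Pool.Agent.W_f569db_gs.LB
import Pool.Agent.W_f569db_g.Spec

set_option autoImplicit false

/-!
# Numerical equivalence for representable classes killed by `N`
-/

noncomputable section

namespace Pool.Agent.GSp

open Pool.Agent.WeilH_h6 Pool.Agent.WeilH_h6.VarClass Pool.Agent.WeilH_h6.Weil GTh
open scoped TensorProduct

universe u v w u' w'

variable {k₀ : Type u'} {k : Type u} [Field k₀] [Field k] {𝒱₀ : VarClass k₀} {𝒱 : VarClass k}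
  {K : Type v} [Field K] {W₀ : Weil.{u', v, w'} 𝒱₀ K} {W : Weil.{u, v, w} 𝒱 K}

/-- The trace of a rational class is rational. -/
theorem tr_rat [CharZero K] {Y : 𝒱.Obj} {a : W.H Y} (ha : a ∈ W.ratSpan Y) :
    ∃ q : ℚ, W.tr Y a = q := by
  refine AddSubmonoid.closure_induction (motive := fun a _ => ∃ q : ℚ, W.tr Y a = q) ?_ ?_ ?_ ha
  · rintro _ ⟨i, z, rfl⟩
    by_cases h : i = Y.dim
    · refine ⟨z.sum fun _ q => q, ?_⟩
      unfold Weil.cl cycSum Finsupp.sum
      rw [map_sum, Rat.cast_sum]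
      refine Finset.sum_congr rfl fun x _ => ?_
      rw [map_smul, W.tr_clPt Y x.1 (by rw [x.2, h]), smul_eq_mul, mul_one]
    · refine ⟨0, ?_⟩
      rw [Rat.cast_zero]
      exact W.tr_grad Y (2 * i) _ (W.cl_mem_grad z) (by omega)
  · exact ⟨0, by rw [map_zero, Rat.cast_zero]⟩
  · rintro x y _ _ ⟨q, hq⟩ ⟨r, hr⟩
    exact ⟨q + r, by rw [map_add, hq, hr, Rat.cast_add]⟩

section

variable {B : 𝒱.Obj} {S : Sys W₀ W B}

theorem tr_rep_single (a b : S.J) {κ : W₀.Hom (S.Y b) (S.Y a)}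
    (hκt : ∀ y y', W.tr B (S.π a y * S.π b (parP W₀ (S.Y b) (S.wt a) y')) =
      W₀.tr (S.Y a) (y * κ y')) {e : W₀.H (S.Y b)} (he : e ∈ W₀.ratSpan (S.Y b))
    (y : W₀.H (S.Y a)) : W.tr B (S.π a y * S.π b e) = W₀.tr (S.Y a) (y * κ e) := by
  rw [← hκt, parP_rat he]

/-- The pairing of classes of opposite weights is rational. -/
theorem rep_rat [CharZero K] (hS : S.Good) {n : ℤ} {x y : W.H B} (hx : S.Rep n x)
    (hy : S.Rep (-n) y) : ∃ q : ℚ, W.tr B (x * y) = q := by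
  refine Rep.induction (P := fun x => ∃ q : ℚ, W.tr B (x * y) = q) ?_ ?_ ?_ hx
  · exact ⟨0, by rw [zero_mul, map_zero, Rat.cast_zero]⟩
  · rintro x x' ⟨q, hq⟩ ⟨r, hr⟩
    exact ⟨q + r, by rw [add_mul, map_add, hq, hr, Rat.cast_add]⟩
  intro a e he _
  refine Rep.induction (P := fun y => ∃ q : ℚ, W.tr B (S.π a e * y) = q) ?_ ?_ ?_ hy
  · exact ⟨0, by rw [mul_zero, map_zero, Rat.cast_zero]⟩
  · rintro x x' ⟨q, hq⟩ ⟨r, hr⟩
    exact ⟨q + r, by rw [mul_add, map_add, hq, hr, Rat.cast_add]⟩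
  intro b f hf _
  obtain ⟨κ, hκ, _, hκt⟩ := hS.form a b
  rw [tr_rep_single a b hκt hf]
  exact tr_rat (W₀.mul_mem_ratSpan he (hκ.apply_mem hf))

/-- The pairing of classes of opposite weights is nondegenerate. -/
theorem rep_nondeg [CharZero K] (hS : S.Good) (hD : ∀ a, W₀.HomEqNum (S.Y a)) {n : ℤ} {x : W.H B}
    (hx : S.Rep n x) (h : ∀ y, S.Rep (-n) y → W.tr B (x * y) = 0) : x = 0 := by
  obtain ⟨e, he, he0, hxe⟩ := hx
  choose κ hκ hκ0 hκt using hS.form
  have key : ∀ a y, W.tr B (S.π a y * x) = W₀.tr (S.Y a) (y * ∑ b, κ a b (e b)) := by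
    intro a y
    rw [hxe, Finset.mul_sum, map_sum, Finset.mul_sum, map_sum]
    exact Finset.sum_congr rfl fun b _ => tr_rep_single a b (hκt a b) (he b) y
  refine hS.eq_zero fun a y => ?_
  rw [key]
  have hz : ∑ b, κ a b (e b) = 0 := by
    by_cases ha : S.wt a = -n
    · have hr : ∑ b, κ a b (e b) ∈ W₀.ratSpan (S.Y a) :=
        sum_mem fun b _ => (hκ a b).apply_mem (he b)
      have horth : ∀ c ∈ W₀.ratSpan (S.Y a), W₀.tr (S.Y a) ((∑ b, κ a b (e b)) * c) = 0 := by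
        intro c hc
        rw [W₀.tr_comm, par_rat hr, ← key, W.tr_comm, hS.par, par_rat hc, mul_smul_comm, map_smul,
          h _ (Rep.single a hc fun hne => absurd ha hne), smul_zero]
      exact W₀.nt_eq_zero_of_homEqNum (hD a) ⟨W₀.ratSpan_le hr, Spec_orth horth⟩
    · refine Finset.sum_eq_zero fun b _ => ?_
      by_cases hb : S.wt b = n
      · rw [hκ0 a b (by rw [hb]; intro h0; exact ha (by linarith)), LinearMap.zero_apply]
      · rw [he0 b hb, map_zero]
  rw [hz, mul_zero, map_zero]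

/-- `N ^ 2` maps the classes of weight `-2` onto the classes of weight `2`. -/
theorem rep_surj [CharZero K] (hS : S.Good) (hD : ∀ a, W₀.HomEqNum (S.Y a))
    {N h f : W.Hom B B} (hN2 : S.Shift 2 N) (hh : S.HEig h)
    (c1 : ∀ x, h (N x) - N (h x) = (2 : K) • N x) (c2 : ∀ x, h (f x) - f (h x) = -(2 : K) • f x)
    (c3 : ∀ x, N (f x) - f (N x) = h x) {x : W.H B} (hx : S.Rep 2 x) :
    ∃ y, S.Rep (-2) y ∧ N (N y) = x := by
  let _ : Module ℚ (W.H B) := Module.compHom (W.H B) (algebraMap ℚ K)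
  have hsm : ∀ (q : ℚ) (x : W.H B), q • x = (q : K) • x := fun q x => rfl
  have : IsScalarTower ℚ K (W.H B) := ⟨fun q c x => by
    rw [hsm, Rat.smul_def q c, mul_smul]⟩
  let R : ℤ → Submodule ℚ (W.H B) := fun n =>
    { carrier := {x | S.Rep n x}
      add_mem' := fun ha hb => Rep.add ha hb
      zero_mem' := Rep.zero S n
      smul_mem' := fun q x hx => by
        change S.Rep n (q • x)
        rw [hsm]
        exact Rep.smulQ hx q }
  obtain ⟨y, hy, hyx⟩ := lb_surj ((LinearMap.mul K (W.H B)).compr₂ (W.tr B)) (R 2) (R (-2))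
    (fun x hx y hy => rep_rat hS hx hy)
    (fun x hx h0 => rep_nondeg hS hD hx fun y hy => h0 y hy)
    (fun y hy h0 => rep_nondeg hS hD hy fun x hx => by
      have hx' : S.Rep 2 x := by rwa [neg_neg] at hx
      have h1 := h0 x hx'
      change W.tr B (x * y) = 0 at h1
      have h2 : W.par B x = sg K 2 • x := Rep.par hS hx'
      rw [sg_of_even even_two, one_smul] at h2
      rw [W.tr_comm, Rep.par hS hy, mul_smul_comm, map_smul, h1, smul_zero])
    (N ∘ₗ N) (fun y hy => by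
      have h1 : S.Rep (-2 + 2) (N y) := Shift.rep hN2 hy
      have h2 : S.Rep (-2 + 2 + 2) (N (N y)) := Shift.rep hN2 h1
      exact h2)
    (fun y hy h0 => by
      have h1 := HEig.rep hh hy
      refine sl2_inj c1 c2 c3 (x := y) ?_ h0
      rw [h1]
      push_cast
      rfl) x hx
  exact ⟨y, hy, hyx⟩

/-- The classes of weight `0` killed by `N`: only `0` is orthogonal to all of them. -/
theorem num_core [CharZero K] (hS : S.Good) (hD : ∀ a, W₀.HomEqNum (S.Y a))
    {N h f : W.Hom B B} (hN2 : S.Shift 2 N) (hsk : Skew N) (hh : S.HEig h)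
    (c1 : ∀ x, h (N x) - N (h x) = (2 : K) • N x) (c2 : ∀ x, h (f x) - f (h x) = -(2 : K) • f x)
    (c3 : ∀ x, N (f x) - f (N x) = h x) {b : W.H B} (hb : S.Rep 0 b) (hNb : N b = 0)
    (hc : ∀ c, S.Rep 0 c → N c = 0 → W.tr B (b * c) = 0) : b = 0 := by
  refine rep_nondeg hS hD hb fun y hy => ?_
  rw [neg_zero] at hy
  have h1 : S.Rep 2 (N y) := by
    have := Shift.rep hN2 hy
    rwa [zero_add] at this
  obtain ⟨d, hd, hd2⟩ := rep_surj hS hD hN2 hh c1 c2 c3 h1
  have h2 : S.Rep 0 (N d) := by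
    have := Shift.rep hN2 hd
    have e : (-2 + 2 : ℤ) = 0 := by norm_num
    rwa [e] at this
  have h3 : W.tr B (b * (y + ((-1 : ℚ) : K) • N d)) = 0 := by
    refine hc _ (Rep.add hy (Rep.smulQ h2 (-1))) ?_
    rw [map_add, map_smul, hd2, Rat.cast_neg, Rat.cast_one, neg_one_smul, add_neg_cancel]
  have h4 : W.tr B (b * N d) = 0 := by
    have := hsk b d
    rw [hNb, zero_mul, map_zero] at this
    exact neg_eq_zero.1 this.symm
  rw [mul_add, map_add, mul_smul_comm, map_smul, h4, smul_zero, add_zero] at h3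
  exact h3

end

end Pool.Agent.GSp
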