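import Pool.Agent.W_f569db_gs.Act

set_option autoImplicit false

/-!
# Representable classes act on representable classes
-/

noncomputable section

namespace Pool.Agent.GSp

open Pool.Agent.WeilH_h6 Pool.Agent.WeilH_h6.VarClass Pool.Agent.WeilH_h6.Weil GTh
open scoped TensorProduct

universe u v w u' w'

variable {k₀ : Type u'} {k : Type u} [Field k₀] [Field k] {𝒱₀ : VarClass k₀} {𝒱 : VarClass k}
  {K : Type v} [Field K] {W₀ : Weil.{u', v, w'} 𝒱₀ K} {W : Weil.{u, v, w} 𝒱 K}

section

variable {B B' : 𝒱.Obj} {S : Sys W₀ W B} {S' : Sys W₀ W B'}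

theorem act_zero {Y Z : 𝒱.Obj} : W.act (0 : W.H (Y.prod Z)) = 0 := by
  have := W.act_smul (0 : K) (0 : W.H (Y.prod Z))
  simpa using this

/-- The class of a correspondence `α` of weight `0` maps classes of weight `0` to classes of weight
`0`. -/
theorem rep_act [CharZero K] (hS : S.Good) (hS' : S'.Good) {α : W.H (B.prod B')}
    (hα : (S.prod S').Rep 0 α) {x : W.H B} (hx : S.Rep 0 x) : S'.Rep 0 (W.act α x) := by
  refine Rep.induction (P := fun α => S'.Rep 0 (W.act α x)) ?_ ?_ ?_ hα
  · rw [act_zero]; exact Rep.zero _ _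
  · intro a b ha hb
    rw [W.act_add]; exact Rep.add ha hb
  rintro ⟨a, a'⟩ E hE haa
  change E ∈ W₀.ratSpan ((S.Y a).prod (S'.Y a')) at hE
  change S.wt a + S'.wt a' = 0 at haa
  refine Rep.induction (P := fun x => S'.Rep 0 (W.act ((S.prod S').π (a, a') E) x)) ?_ ?_ ?_ hx
  · rw [map_zero]; exact Rep.zero _ _
  · intro x y hx hy
    rw [map_add]; exact Rep.add hx hy
  intro c e he hc
  obtain ⟨κ, hκ, hκ0, hκt⟩ := hS.form a c
  have h1 : W.act ((S.prod S').π (a, a') E) (S.π c e) = S'.π a' (W₀.act E (κ e)) := by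
    refine (act_xtp_general hS hS' a c a' hκ hκt hE (t := 0) (y := e) ?_).trans ?_
    · rw [sg_zero, one_smul, par_rat he]
    · rw [hc]
      have : (0 : ℤ) * (S'.wt a' + 0) + 0 * S'.wt a' = 0 := by ring
      rw [this, sg_zero, one_smul]
  rw [h1]
  refine Rep.single a' ((RatMap.act hE).apply_mem (hκ.apply_mem he)) fun hne => ?_
  rw [hκ0, LinearMap.zero_apply, map_zero]
  rw [hc, add_zero]
  intro h0
  rw [h0, zero_add] at haa
  exact hne haa

theorem RatOp.zero (S : Sys W₀ W B) : S.RatOp 0 :=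
  ⟨fun _ _ => 0, fun _ _ => RatMap.zero _ _, fun b y => by
    simp only [LinearMap.zero_apply, map_zero, Finset.sum_const_zero]⟩

theorem RatOp.add [CharZero K] {φ ψ : W.Hom B B} (h : S.RatOp φ) (h' : S.RatOp ψ) :
    S.RatOp (φ + ψ) := by
  obtain ⟨ν, hν, hνe⟩ := h
  obtain ⟨ν', hν', hνe'⟩ := h'
  refine ⟨fun a b => ν a b + ν' a b, fun a b => (hν a b).add (hν' a b), fun b y => ?_⟩
  simp only [LinearMap.add_apply, map_add, Finset.sum_add_distrib]
  rw [hνe, hνe']

theorem RatOp.single {φ : W.Hom B B} (b : S.J) (μ : ∀ c, W₀.Hom (S.Y c) (S.Y b))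
    (hμ : ∀ c, RatMap W₀ (μ c)) (h : ∀ c y, φ (S.π c y) = S.π b (μ c y)) : S.RatOp φ := by
  classical
  refine ⟨fun b' c => if hb : b = b' then hb ▸ μ c else 0, fun b' c => ?_, fun c y => ?_⟩
  · by_cases hb : b = b'
    · subst hb
      simpa using hμ c
    · simp only [hb, dite_false]
      exact RatMap.zero _ _
  · rw [Finset.sum_eq_single b]
    · simpa using h c y
    · intro b' _ hb
      simp only [Ne.symm hb, dite_false, LinearMap.zero_apply, map_zero]
    · intro hb
      exact absurd (Finset.mem_univ b) hb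

/-- A correspondence of weight `0` acts as an operator given by cycles. -/
theorem act_ratOp [CharZero K] (hS : S.Good) {α : W.H (B.prod B)}
    (hα : (S.prod S).Rep 0 α) : S.RatOp (W.act α) := by
  refine Rep.induction (P := fun α => S.RatOp (W.act α)) ?_ ?_ ?_ hα
  · rw [act_zero]; exact RatOp.zero _
  · intro a b ha hb
    rw [W.act_add]; exact RatOp.add ha hb
  rintro ⟨a, b⟩ E hE hab
  change E ∈ W₀.ratSpan ((S.Y a).prod (S.Y b)) at hE
  change S.wt a + S.wt b = 0 at hab
  choose κ hκ hκ0 hκt using fun c => hS.form a c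
  refine RatOp.single b (fun c => sg K (S.wt c * S.wt b) • (W₀.act E ∘ₗ κ c))
    (fun c => ((hκ c).comp (RatMap.act hE)).sg_smul _) fun c y => ?_
  refine par_induction (P := fun y => W.act ((S.prod S).π (a, b) E) (S.π c y) =
    S.π b ((sg K (S.wt c * S.wt b) • (W₀.act E ∘ₗ κ c)) y)) ?_ ?_ y
  · intro y y' hy hy'
    rw [map_add, map_add, hy, hy', map_add, map_add]
  intro t y hy
  refine (act_xtp_general hS hS a c b (hκ c) (hκt c) hE hy).trans ?_
  rw [LinearMap.smul_apply, map_smul, LinearMap.comp_apply]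
  by_cases h0 : S.wt a + S.wt c = 0
  · have hb : S.wt b = S.wt c := by linarith
    rw [hb]
    congr 1
    apply sg_congr
    exact ⟨t * S.wt c + S.wt c * S.wt c, by ring⟩
  · rw [hκ0 c h0, LinearMap.zero_apply, map_zero, map_zero, smul_zero, smul_zero]

end

end Pool.Agent.GSp
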