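import Pool.Agent.W_f569db_gs.Split
import Pool.Agent.W_f569db_gs.RepAct
import Pool.Agent.W_f569db_gs.Num

set_option autoImplicit false

/-!
# Consequences of the axioms of a degeneration
-/

noncomputable section

namespace Pool.Agent.GSp

open AlgebraicGeometry CategoryTheory
open Pool.Agent.WeilH_h6 Pool.Agent.WeilH_h6.VarClass Pool.Agent.WeilH_h6.Weil GTh
open scoped TensorProduct

universe u v w u' w'

variable {k₀ : Type u'} {k : Type u} [Field k₀] [Field k] {𝒱₀ : VarClass k₀} {𝒱 : VarClass k}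
  {K : Type v} [Field K] {W₀ : Weil.{u', v, w'} 𝒱₀ K} {W : Weil.{u, v, w} 𝒱 K}

/-- Extensionality for linear maps on `H(B)`. -/
theorem sys_ext {B : 𝒱.Obj} {S : Sys W₀ W B} (hS : ⨆ a, LinearMap.range (S.π a) = ⊤) {M : Type*}
    [AddCommGroup M] [Module K M] {f g : W.H B →ₗ[K] M} (h : ∀ a y, f (S.π a y) = g (S.π a y)) :
    f = g := by
  ext x
  have hx : x ∈ ⨆ a, LinearMap.range (S.π a) := by rw [hS]; exact Submodule.mem_top
  refine Submodule.iSup_induction _ (motive := fun x => f x = g x) hx ?_ ?_ ?_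
  · rintro a _ ⟨y, rfl⟩
    exact h a y
  · rw [map_zero, map_zero]
  · intro x y hx hy
    rw [map_add, map_add, hx, hy]

theorem parC_of_shift [CharZero K] {B : 𝒱.Obj} {S : Sys W₀ W B}
    (hS : ⨆ a, LinearMap.range (S.π a) = ⊤)
    (hp : ∀ a y, W.par B (S.π a y) = sg K (S.wt a) • S.π a (W₀.par (S.Y a) y)) {r : ℤ}
    (hr : Even r) {φ : W.Hom B B} (hφ : S.Shift r φ) : ParC φ := by
  obtain ⟨ν, hν, hν0, hνe⟩ := hφ
  have h : φ ∘ₗ W.par B = W.par B ∘ₗ φ := by
    refine sys_ext hS fun b y => ?_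
    rw [LinearMap.comp_apply, LinearMap.comp_apply, hp, map_smul, hνe, hνe, map_sum,
      Finset.smul_sum]
    refine Finset.sum_congr rfl fun a _ => ?_
    rw [hp, (hν a b).par_comm]
    by_cases ha : S.wt a = S.wt b + r
    · congr 1
      apply sg_congr
      rw [ha]
      obtain ⟨j, rfl⟩ := hr
      exact ⟨S.wt b + j, by ring⟩
    · rw [hν0 a b ha, LinearMap.zero_apply, map_zero, map_zero, smul_zero, smul_zero]
  exact fun x => LinearMap.congr_fun h x

theorem parC_of_hEig [CharZero K] {B : 𝒱.Obj} {S : Sys W₀ W B}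
    (hS : ⨆ a, LinearMap.range (S.π a) = ⊤)
    (hp : ∀ a y, W.par B (S.π a y) = sg K (S.wt a) • S.π a (W₀.par (S.Y a) y))
    {h : W.Hom B B} (hh : S.HEig h) : ParC h := by
  have e : h ∘ₗ W.par B = W.par B ∘ₗ h := by
    refine sys_ext hS fun b y => ?_
    rw [LinearMap.comp_apply, LinearMap.comp_apply, hh, hp, map_smul, map_smul, hh, hp, smul_comm]
  exact fun x => LinearMap.congr_fun e x

section

variable {X : 𝒱.Obj} (D : Degen W₀ W X)

theorem Degen.axSurj : ⨆ a, LinearMap.range (D.π a) = ⊤ := D.axGrading.2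

theorem Degen.axPar : ∀ a y, W.par X (D.π a y) = sg K (D.wt a) • D.π a (W₀.par (D.Y a) y) := by
  intro a y
  rw [← parP_exp_one, ← parP_exp_one]
  exact (D.axGrading.1 a y).2

theorem Degen.hEig : D.toSys.HEig D.h := fun a y => (D.axGrading.1 a y).1

theorem Degen.shift [CharZero K] : D.toSys.Shift 2 D.N := by
  obtain ⟨f, h1, _, _⟩ := D.axSl2
  refine shift_of_ratOp D.hEig D.axN fun x => ?_
  rw [h1]
  norm_num

theorem Degen.parC_N [CharZero K] : ParC D.N := parC_of_shift D.axSurj D.axPar even_two D.shift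

theorem Degen.parC_h [CharZero K] : ParC D.h := parC_of_hEig D.axSurj D.axPar D.hEig

theorem Degen.cyc_rep (m : ℕ) {x : W.H (X.pow m)} (hx : x ∈ W.ratSpan (X.pow m)) :
    (D.toSys.pow m).Rep 0 x ∧ der W D.N m x = 0 := by
  refine AddSubmonoid.closure_induction (motive := fun x _ =>
    (D.toSys.pow m).Rep 0 x ∧ der W D.N m x = 0) ?_ ?_ ?_ hx
  · rintro _ ⟨i, z, rfl⟩
    exact D.axCycle m i z
  · exact ⟨Rep.zero _ _, map_zero _⟩
  · intro x y _ _ hx hy
    exact ⟨Rep.add hx.1 hy.1, by rw [map_add, hx.2, hy.2, add_zero]⟩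

/-- The classes of cycles on `X^m × X^n`. -/
theorem Degen.cyc_prod [CharZero K] (m n : ℕ) {α : W.H ((X.pow m).prod (X.pow n))}
    (hα : α ∈ W.ratSpan ((X.pow m).prod (X.pow n))) :
    ((D.toSys.pow m).prod (D.toSys.pow n)).Rep 0 α ∧ dx (der W D.N m) (der W D.N n) α = 0 := by
  have h1 := D.cyc_rep (m + n) (W.pull_mem_ratSpan (spl X m n) hα)
  have h2 : α = W.pull (glu X m n) (W.pull (spl X m n) α) := by
    rw [← W.pull_comp, glu_spl, W.pull_id]
  refine ⟨?_, ?_⟩
  · rw [h2]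
    exact (glu_sys D.toSys m n).rep h1.1
  · rw [h2, ← glu_compat, h1.2, map_zero]

/-- The classes of cycles on `X × X`. -/
theorem Degen.cyc_prod2 [CharZero K] {α : W.H (X.prod X)}
    (hα : α ∈ W.ratSpan (X.prod X)) :
    (D.toSys.prod D.toSys).Rep 0 α ∧ dx D.N D.N α = 0 := by
  have h1 := D.cyc_rep 2 (W.pull_mem_ratSpan (spl2 X) hα)
  have h2 : α = W.pull (glu2 X) (W.pull (spl2 X) α) := by
    rw [← W.pull_comp, glu_spl2, W.pull_id]
  refine ⟨?_, ?_⟩
  · rw [h2]
    exact (glu2_sys D.toSys).rep h1.1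
  · rw [h2, ← glu2_compat, h1.2, map_zero]

theorem exists_delta [CharZero K] (X : 𝒱.Obj) : ∃ δ ∈ W.ratSpan (X.prod X), ∀ v w,
    W.tr (X.prod X) (δ * (W.p1 X X v * W.p2 X X w)) = W.tr X (v * w) := by
  obtain ⟨δ, hδ, h⟩ := THom.id (T := cycT W) X
  refine ⟨δ, hδ, fun v w => ?_⟩
  rw [← W.tr_act, h]
  rfl

theorem Degen.skew_N [CharZero K] : Skew D.N := by
  obtain ⟨δ, hδ, h⟩ := exists_delta (W := W) X
  exact skew_of_delta D.parC_N h (D.cyc_prod2 hδ).2

theorem Degen.skew_h [CharZero K] : Skew D.h := by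
  obtain ⟨δ, hδ, h⟩ := exists_delta (W := W) X
  refine skew_of_delta D.parC_h h ?_
  have h1 := HEig.rep (HEig.ext D.hEig D.hEig) (D.cyc_prod2 hδ).1
  rw [Int.cast_zero, zero_smul] at h1
  exact h1

theorem Degen.good [CharZero K] : D.toSys.Good where
  surj := D.axSurj
  par := D.axPar
  form := by
    intro a b
    obtain ⟨κ, hκ, hκt⟩ := D.axForm a b
    refine ⟨κ, hκ, fun hne => ?_, hκt⟩
    ext y'
    refine W₀.ext_tr' fun y => ?_
    rw [LinearMap.zero_apply, mul_zero, map_zero]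
    refine (hκt y y').symm.trans ?_
    have h1 := D.skew_h (D.π a y) (D.π b (parP W₀ (D.Y b) (D.wt a) y'))
    rw [D.hEig, D.hEig, smul_mul_assoc, mul_smul_comm, map_smul, map_smul, smul_eq_mul,
      smul_eq_mul, eq_neg_iff_add_eq_zero, ← add_mul] at h1
    refine (mul_eq_zero.1 h1).resolve_left ?_
    rw [← Int.cast_add]
    exact_mod_cast hne

/-- Numerical equivalence for the classes of weight `0` on `X^m` killed by `N`. -/
theorem Degen.num [CharZero K] (m : ℕ) (hD : ∀ a, W₀.HomEqNum ((D.toSys.pow m).Y a))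
    {b : W.H (X.pow m)} (hb : (D.toSys.pow m).Rep 0 b) (hNb : der W D.N m b = 0)
    (hc : ∀ c, (D.toSys.pow m).Rep 0 c → der W D.N m c = 0 → W.tr (X.pow m) (b * c) = 0) :
    b = 0 := by
  obtain ⟨f, c1, c2, c3⟩ := D.axSl2
  refine num_core (D.good.pow m) hD (N := der W D.N m) (h := der W D.h m) (f := der W f m)
    (Shift.der even_two D.shift m) (der_skew D.skew_N D.parC_N m) (HEig.der D.hEig m) ?_ ?_ ?_
    hb hNb hc
  · intro x
    rw [der_comm (C := (2 : K) • D.N) (fun x => c1 x) m x, der_smul]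
    rfl
  · intro x
    rw [der_comm (C := -(2 : K) • f) (fun x => c2 x) m x, der_smul]
    rfl
  · intro x
    exact der_comm c3 m x

end

end Pool.Agent.GSp
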