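import Pool.Agent.W_f569db_gs.Xt

set_option autoImplicit false

/-!
# Signs in products
-/

noncomputable section

namespace Pool.Agent.GSp

open Pool.Agent.WeilH_h6 Pool.Agent.WeilH_h6.VarClass Pool.Agent.WeilH_h6.Weil GTh
open scoped TensorProduct

universe u v w

variable {k : Type u} [Field k] {𝒱 : VarClass k} {K : Type v} [Field K] {W : Weil.{u, v, w} 𝒱 K}

theorem sg_natAbs (n : ℤ) : sg K n = (-1 : K) ^ n.natAbs := by
  unfold sg
  split_ifs with h
  · rw [(Int.natAbs_even.2 h).neg_one_pow]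
  · rw [(Int.natAbs_odd.2 (Int.not_even_iff_odd.1 h)).neg_one_pow]

theorem supercomm_sg [CharZero K] {Y : 𝒱.Obj} {i j : ℤ} {x y : W.H Y}
    (hx : W.par Y x = sg K i • x) (hy : W.par Y y = sg K j • y) :
    x * y = sg K (i * j) • (y * x) := by
  rw [sg_natAbs] at hx hy
  rw [sg_natAbs, Int.natAbs_mul]
  exact W.supercomm hx hy

theorem sg_ne_zero (n : ℤ) : sg K n ≠ 0 := by
  rcases sg_eq (K := K) n with h | h <;> rw [h] <;> simp

theorem sg_smul_smul {M : Type*} [AddCommGroup M] [Module K M] (n : ℤ) (x : M) :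
    sg K n • sg K n • x = x := by
  rw [smul_smul, sg_mul_self, one_smul]

theorem sg_mul_comm (i j : ℤ) : sg K (i * j) = sg K (j * i) := by rw [mul_comm]

/-- Elements of opposite parity have product of trace zero -/
theorem tr_zero_of_parity [CharZero K] {Y : 𝒱.Obj} {i j : ℤ} {x y : W.H Y}
    (hx : W.par Y x = sg K i • x) (hy : W.par Y y = sg K j • y) (h : ¬ Even (i + j)) :
    W.tr Y (x * y) = 0 := by
  have h1 := W.tr_par (x * y)
  rw [W.par_mul, hx, hy, smul_mul_smul_comm, ← sg_add, sg, if_neg h, neg_one_smul, map_neg] at h1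
  have h2 : (2 : K) * W.tr Y (x * y) = 0 := by linear_combination -h1
  exact (mul_eq_zero.1 h2).resolve_left two_ne_zero

/-- `Tr ((u × v) (u' × v')) = ± Tr (u u') Tr (v v')` -/
theorem tr_cross_mul [CharZero K] {B B' : 𝒱.Obj} {t s : ℤ} (u u' : W.H B) (v v' : W.H B')
    (hv : W.par B' v = sg K t • v) (hu' : W.par B u' = sg K s • u') :
    W.tr (B.prod B') (W.p1 B B' u * W.p2 B B' v * (W.p1 B B' u' * W.p2 B B' v')) =
      sg K (t * s) * (W.tr B (u * u') * W.tr B' (v * v')) := by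
  have h1 : W.p2 B B' v * W.p1 B B' u' = sg K (t * s) • (W.p1 B B' u' * W.p2 B B' v) := by
    refine supercomm_sg ?_ ?_
    · rw [W.par_pull, hv, map_smul]
    · rw [W.par_pull, hu', map_smul]
  have h2 : W.p1 B B' u * W.p2 B B' v * (W.p1 B B' u' * W.p2 B B' v') =
      sg K (t * s) • (W.p1 B B' (u * u') * W.p2 B B' (v * v')) := by
    rw [map_mul, map_mul, mul_assoc, ← mul_assoc (W.p2 B B' v), h1, smul_mul_assoc,
      mul_smul_comm, mul_assoc, mul_assoc]
  rw [h2, map_smul, W.tr_prod, smul_eq_mul]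

/-- parity of an image -/
theorem RatMap.parity [CharZero K] {Y Z : 𝒱.Obj} {φ : W.Hom Y Z} (h : RatMap W φ) {n : ℤ}
    {x : W.H Y} (hx : W.par Y x = sg K n • x) : W.par Z (φ x) = sg K n • φ x := by
  rw [← h.par_comm, hx, map_smul]

end Pool.Agent.GSp
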