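import Pool.Agent.W_f569db_gs.Good
import Pool.Agent.W_f569db_gs.LA

set_option autoImplicit false

/-!
# Operators given by cycles
-/

noncomputable section

namespace Pool.Agent.GSp

open Pool.Agent.WeilH_h6 Pool.Agent.WeilH_h6.VarClass Pool.Agent.WeilH_h6.Weil GTh
open scoped TensorProduct

universe u v w u' w'

variable {k₀ : Type u'} {k : Type u} [Field k₀] [Field k] {𝒱₀ : VarClass k₀} {𝒱 : VarClass k}
  {K : Type v} [Field K] {W₀ : Weil.{u', v, w'} 𝒱₀ K} {W : Weil.{u, v, w} 𝒱 K}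

/-- Operators given by cycles which raise the weight by `r`. -/
def Sys.Shift {B : 𝒱.Obj} (S : Sys W₀ W B) (r : ℤ) (φ : W.Hom B B) : Prop :=
  ∃ ν : ∀ a b, W₀.Hom (S.Y b) (S.Y a), (∀ a b, RatMap W₀ (ν a b)) ∧
    (∀ a b, S.wt a ≠ S.wt b + r → ν a b = 0) ∧ ∀ b y, φ (S.π b y) = ∑ a, S.π a (ν a b y)

/-- `h` is multiplication by the weight. -/
def Sys.HEig {B : 𝒱.Obj} (S : Sys W₀ W B) (h : W.Hom B B) : Prop :=
  ∀ a y, h (S.π a y) = (S.wt a : K) • S.π a y

section

variable {B B' : 𝒱.Obj} {S : Sys W₀ W B} {S' : Sys W₀ W B'}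

theorem Shift.zero (S : Sys W₀ W B) (r : ℤ) : S.Shift r 0 :=
  ⟨fun _ _ => 0, fun _ _ => RatMap.zero _ _, fun _ _ _ => rfl, fun b y => by
    simp only [LinearMap.zero_apply, map_zero, Finset.sum_const_zero]⟩

theorem Shift.add [CharZero K] {r : ℤ} {φ ψ : W.Hom B B} (h : S.Shift r φ) (h' : S.Shift r ψ) :
    S.Shift r (φ + ψ) := by
  obtain ⟨ν, hν, hν0, hνe⟩ := h
  obtain ⟨ν', hν', hν0', hνe'⟩ := h'
  refine ⟨fun a b => ν a b + ν' a b, fun a b => (hν a b).add (hν' a b), fun a b hab => ?_,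
    fun b y => ?_⟩
  · change ν a b + ν' a b = 0
    rw [hν0 a b hab, hν0' a b hab, add_zero]
  · simp only [LinearMap.add_apply, map_add, Finset.sum_add_distrib]
    rw [hνe, hνe']

/-- The identity. -/
theorem Shift.id [CharZero K] (S : Sys W₀ W B) : S.Shift 0 LinearMap.id := by
  classical
  refine ⟨fun a b => if h : b = a then h ▸ LinearMap.id else 0, fun a b => ?_, fun a b hab => ?_,
    fun b y => ?_⟩
  · by_cases h : b = a
    · subst h
      simp only [dite_true]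
      exact RatMap.id _
    · simp only [h, dite_false]
      exact RatMap.zero _ _
  · by_cases h : b = a
    · subst h
      simp at hab
    · simp only [h, dite_false]
  · rw [Finset.sum_eq_single b]
    · simp
    · intro a _ ha
      simp only [Ne.symm ha, dite_false, LinearMap.zero_apply, map_zero]
    · intro hb
      exact absurd (Finset.mem_univ b) hb

/-- A class of weight `n` becomes a class of weight `n + r`. -/
theorem Shift.rep [CharZero K] {r n : ℤ} {φ : W.Hom B B} (h : S.Shift r φ) {x : W.H B}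
    (hx : S.Rep n x) : S.Rep (n + r) (φ x) := by
  obtain ⟨ν, hν, hν0, hνe⟩ := h
  obtain ⟨e, he, he0, rfl⟩ := hx
  refine ⟨fun a => ∑ b, ν a b (e b), fun a => ?_, fun a ha => ?_, ?_⟩
  · exact sum_mem fun b _ => (hν a b).apply_mem (he b)
  · refine Finset.sum_eq_zero fun b _ => ?_
    by_cases hb : S.wt b = n
    · rw [hν0 a b (by rw [hb]; exact ha), LinearMap.zero_apply]
    · rw [he0 b hb, map_zero]
  · rw [map_sum]
    simp only [hνe, map_sum]
    exact Finset.sum_comm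

theorem parP_congr {W : Weil.{u, v, w} 𝒱 K} (Y : 𝒱.Obj) {m n : ℤ} (h : Even (m + n)) :
    parP W Y m = parP W Y n := by
  rw [parP_def, parP_def]
  rcases Int.even_or_odd m with hm | hm
  · rw [if_pos hm, if_pos ((Int.even_add.1 h).1 hm)]
  · rw [if_neg (Int.not_even_iff_odd.2 hm), if_neg]
    intro hn
    exact (Int.not_even_iff_odd.2 hm) ((Int.even_add.1 h).2 hn)

theorem RatMap.parP_comm [CharZero K] {Y Z : 𝒱.Obj} {φ : W.Hom Y Z} (h : RatMap W φ) (n : ℤ)
    (x : W.H Y) : φ (parP W Y n x) = parP W Z n (φ x) := by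
  rw [parP_def, parP_def]
  split_ifs
  · rfl
  · exact h.par_comm x

theorem extHom_zero {C C' D D' : 𝒱.Obj} {κ : W.Hom C D} {κ' : W.Hom C' D'}
    (h : κ = 0 ∨ κ' = 0) : W.extHom κ κ' = 0 := by
  rcases h with rfl | rfl
  · exact extHom_zero_left _
  · exact extHom_zero_right _

theorem shift_ext_aux [CharZero K] {r : ℤ} (hr : Even r) {φ : W.Hom B B} {ψ : W.Hom B' B'} {b : S.J}
    {b' : S'.J} {ν : ∀ a, W₀.Hom (S.Y b) (S.Y a)} {ν' : ∀ a, W₀.Hom (S'.Y b') (S'.Y a)}
    (hν' : ∀ a, RatMap W₀ (ν' a)) (hν0 : ∀ a, S.wt a ≠ S.wt b + r → ν a = 0)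
    (hνe : ∀ y, φ (S.π b y) = ∑ a, S.π a (ν a y))
    (hνe' : ∀ y, ψ (S'.π b' y) = ∑ a, S'.π a (ν' a y)) (u : W₀.H ((S.Y b).prod (S'.Y b'))) :
    W.extHom φ ψ (xtp (S.π b) (S'.π b') (S.wt b) u) =
      ∑ p : S.J × S'.J, xtp (S.π p.1) (S'.π p.2) (S.wt p.1) (W₀.extHom (ν p.1) (ν' p.2) u) := by
  refine W₀.kunneth_induction (S.Y b) (S'.Y b') (P := fun u => W.extHom φ ψ
    (xtp (S.π b) (S'.π b') (S.wt b) u) =
      ∑ p : S.J × S'.J, xtp (S.π p.1) (S'.π p.2) (S.wt p.1) (W₀.extHom (ν p.1) (ν' p.2) u)) ?_ ?_ u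
  · intro x y hx hy
    simp only [map_add, Finset.sum_add_distrib] at hx hy ⊢
    rw [hx, hy]
  intro x y
  rw [xtp_cross, W.extHom_apply, hνe, hνe', map_sum, map_sum, Finset.sum_mul_sum,
    Fintype.sum_prod_type]
  refine Finset.sum_congr rfl fun a _ => Finset.sum_congr rfl fun a' _ => ?_
  change _ = xtp (S.π a) (S'.π a') (S.wt a) (W₀.extHom (ν a) (ν' a') _)
  rw [W₀.extHom_apply, xtp_cross]
  by_cases ha : S.wt a = S.wt b + r
  · rw [(hν' a').parP_comm, parP_congr (S'.Y a') (m := S.wt b) (n := S.wt a)]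
    rw [ha]
    obtain ⟨j, rfl⟩ := hr
    exact ⟨S.wt b + j, by ring⟩
  · rw [hν0 a ha, LinearMap.zero_apply, map_zero, map_zero, zero_mul, zero_mul]

theorem Shift.ext [CharZero K] {r s : ℤ} (hr : Even r) {φ : W.Hom B B} {ψ : W.Hom B' B'}
    (h : S.Shift r φ) (h' : S'.Shift s ψ) : (S.prod S').Shift (r + s) (W.extHom φ ψ) := by
  obtain ⟨ν, hν, hν0, hνe⟩ := h
  obtain ⟨ν', hν', hν0', hνe'⟩ := h'
  refine ⟨fun a b => W₀.extHom (ν a.1 b.1) (ν' a.2 b.2), fun a b => (hν _ _).extHom (hν' _ _),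
    fun a b hne => ?_, fun b u => ?_⟩
  · have h1 : S.wt a.1 ≠ S.wt b.1 + r ∨ S'.wt a.2 ≠ S'.wt b.2 + s := by
      by_contra hcon
      push Not at hcon
      apply hne
      change S.wt a.1 + S'.wt a.2 = S.wt b.1 + S'.wt b.2 + (r + s)
      rw [hcon.1, hcon.2]; ring
    exact extHom_zero (h1.imp (hν0 _ _) (hν0' _ _))
  · exact shift_ext_aux hr (fun a => hν' a b.2) (fun a => hν0 a b.1) (hνe b.1) (hνe' b.2) u

/-- The derivation attached to an operator. -/
theorem Shift.der [CharZero K] {X : 𝒱.Obj} {S : Sys W₀ W X} {r : ℤ} (hr : Even r)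
    {φ : W.Hom X X} (h : S.Shift r φ) : ∀ m, (S.pow m).Shift r (der W φ m)
  | 0 => Shift.zero _ r
  | m + 1 => by
    have h1 : ((S.pow m).prod S).Shift r (W.extHom (GSp.der W φ m) LinearMap.id) := by
      have := Shift.ext hr (Shift.der hr h m) (Shift.id S)
      rwa [add_zero] at this
    have h2 : ((S.pow m).prod S).Shift r (W.extHom LinearMap.id φ) := by
      have := Shift.ext Even.zero (Shift.id (S.pow m)) h
      rwa [zero_add] at this
    rw [der_succ]
    exact Shift.add h1 h2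

theorem HEig.ext [CharZero K] {h : W.Hom B B} {h' : W.Hom B' B'} (hh : S.HEig h)
    (hh' : S'.HEig h') :
    (S.prod S').HEig (W.extHom h LinearMap.id + W.extHom LinearMap.id h') := by
  rintro ⟨a, a'⟩ u
  change W.extHom h LinearMap.id (xtp (S.π a) (S'.π a') (S.wt a) u) +
    W.extHom LinearMap.id h' (xtp (S.π a) (S'.π a') (S.wt a) u) =
    ((S.wt a + S'.wt a' : ℤ) : K) • xtp (S.π a) (S'.π a') (S.wt a) u
  refine W₀.kunneth_induction (S.Y a) (S'.Y a') (P := fun u =>
    W.extHom h LinearMap.id (xtp (S.π a) (S'.π a') (S.wt a) u) +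
    W.extHom LinearMap.id h' (xtp (S.π a) (S'.π a') (S.wt a) u) =
    ((S.wt a + S'.wt a' : ℤ) : K) • xtp (S.π a) (S'.π a') (S.wt a) u) ?_ ?_ u
  · intro x y hx hy
    rw [map_add, map_add, map_add, smul_add, ← hx, ← hy]
    abel
  intro x y
  rw [xtp_cross, W.extHom_apply, W.extHom_apply, hh, hh', map_smul, map_smul,
    smul_mul_assoc, mul_smul_comm, LinearMap.id_apply, LinearMap.id_apply, ← add_smul,
    Int.cast_add]

theorem HEig.der [CharZero K] {X : 𝒱.Obj} {S : Sys W₀ W X} {h : W.Hom X X} (hh : S.HEig h) :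
    ∀ m, (S.pow m).HEig (der W h m)
  | 0 => by
    intro a y
    change (0 : W.H Obj.pt) = ((0 : ℤ) : K) • uπ W₀ W y
    rw [Int.cast_zero, zero_smul]
  | m + 1 => by
    rw [der_succ]
    exact HEig.ext (HEig.der hh m) hh

/-- A representable class is an eigenvector. -/
theorem HEig.rep {h : W.Hom B B} (hh : S.HEig h) {n : ℤ} {x : W.H B} (hx : S.Rep n x) :
    h x = (n : K) • x := by
  obtain ⟨e, he, he0, rfl⟩ := hx
  rw [map_sum, Finset.smul_sum]
  refine Finset.sum_congr rfl fun a _ => ?_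
  by_cases ha : S.wt a = n
  · rw [hh, ha]
  · rw [he0 a ha, map_zero, map_zero, smul_zero]

/-- The weight of an operator given by cycles. -/
theorem shift_of_ratOp [CharZero K] {h φ : W.Hom B B} (hh : S.HEig h) {r : ℤ} (hφ : S.RatOp φ)
    (hc : ∀ x, h (φ x) - φ (h x) = (r : K) • φ x) : S.Shift r φ := by
  classical
  obtain ⟨ν, hν, hνe⟩ := hφ
  refine ⟨fun a b => if S.wt a = S.wt b + r then ν a b else 0, fun a b => ?_, fun a b hab => ?_,
    fun b y => ?_⟩
  · dsimp only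
    split_ifs
    · exact hν a b
    · exact RatMap.zero _ _
  · dsimp only
    rw [if_neg hab]
  · have h1 := sum_eigen h (fun a => S.π a (ν a b y)) S.wt (S.wt b + r) (fun a => hh a _) ?_
    · rw [hνe, h1]
      refine Finset.sum_congr rfl fun a _ => ?_
      dsimp only
      split_ifs
      · rfl
      · rw [LinearMap.zero_apply, map_zero]
    · rw [← hνe]
      have := hc (S.π b y)
      rw [hh, map_smul, sub_eq_iff_eq_add] at this
      rw [this, ← add_smul, Int.cast_add, add_comm]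

end

end Pool.Agent.GSp
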