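import Pool.Agent.W_f569db_gs.Act

set_option autoImplicit false

/-!
# Skew operators, derivations
-/

noncomputable section

namespace Pool.Agent.GSp

open Pool.Agent.WeilH_h6 Pool.Agent.WeilH_h6.VarClass Pool.Agent.WeilH_h6.Weil GTh
open scoped TensorProduct

universe u v w u' w'

variable {k₀ : Type u'} {k : Type u} [Field k₀] [Field k] {𝒱₀ : VarClass k₀} {𝒱 : VarClass k}
  {K : Type v} [Field K] {W₀ : Weil.{u', v, w'} 𝒱₀ K} {W : Weil.{u, v, w} 𝒱 K}

/-- Skew operators. -/
def Skew {B : 𝒱.Obj} (D : W.Hom B B) : Prop := ∀ x y, W.tr B (D x * y) = - W.tr B (x * D y)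

/-- Operators which commute with the parity. -/
def ParC {B : 𝒱.Obj} (D : W.Hom B B) : Prop := ∀ x, D (W.par B x) = W.par B (D x)

theorem ParC.parity {B : 𝒱.Obj} {D : W.Hom B B} (h : ParC D) {n : ℤ} {x : W.H B}
    (hx : W.par B x = sg K n • x) : W.par B (D x) = sg K n • D x := by
  rw [← h, hx, map_smul]

theorem ParC.parP {B : 𝒱.Obj} {D : W.Hom B B} (h : ParC D) (n : ℤ) (x : W.H B) :
    D (parP W B n x) = parP W B n (D x) := by
  rw [parP_def]
  split_ifs
  · rfl
  · exact h x

section adj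

variable {B B' : 𝒱.Obj}

theorem adj_par [CharZero K] {φ φ' : W.Hom B B} {ψ ψ' : W.Hom B' B'} (hψ : ParC ψ)
    (hφ' : ParC φ') (h : ∀ v v', W.tr B (φ v * v') = W.tr B (v * φ' v'))
    (h' : ∀ v v', W.tr B' (ψ v * v') = W.tr B' (v * ψ' v')) (a b : W.H (B.prod B')) :
    W.tr (B.prod B') (W.extHom φ ψ a * b) = W.tr (B.prod B') (a * W.extHom φ' ψ' b) := by
  refine cross_induction (W₀ := W) (P := fun a => W.tr (B.prod B') (W.extHom φ ψ a * b) =
    W.tr (B.prod B') (a * W.extHom φ' ψ' b)) ?_ ?_ a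
  · intro a a' ha ha'
    rw [map_add, add_mul, add_mul, map_add, map_add, ha, ha']
  intro i j y y' _ hy'
  refine cross_induction (W₀ := W) (P := fun b => W.tr (B.prod B') (W.extHom φ ψ
    (W.p1 B B' y * W.p2 B B' y') * b) = W.tr (B.prod B')
      ((W.p1 B B' y * W.p2 B B' y') * W.extHom φ' ψ' b)) ?_ ?_ b
  · intro b b' hb hb'
    rw [map_add (W.extHom φ' ψ'), mul_add, mul_add, map_add, map_add, hb, hb']
  intro i' j' z z' hz _
  rw [W.extHom_apply, W.extHom_apply, tr_cross_mul _ _ _ _ (hψ.parity hy') hz,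
    tr_cross_mul _ _ _ _ hy' (hφ'.parity hz), h, h']

theorem parC_id (B : 𝒱.Obj) : ParC (LinearMap.id : W.Hom B B) := fun _ => rfl

theorem skew_left [CharZero K] {D : W.Hom B B} (hD : Skew D) (hp : ParC D)
    (a b : W.H (B.prod B')) :
    W.tr (B.prod B') (W.extHom D LinearMap.id a * b) =
      - W.tr (B.prod B') (a * W.extHom D LinearMap.id b) := by
  have h1 : ∀ b, W.extHom (-D) (LinearMap.id : W.Hom B' B') b = - W.extHom D LinearMap.id b := by
    intro b
    have : W.extHom (-D) (LinearMap.id : W.Hom B' B') = - W.extHom D LinearMap.id := by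
      refine ext_cross fun x y => ?_
      rw [W.extHom_apply, LinearMap.neg_apply, LinearMap.neg_apply, W.extHom_apply, map_neg, neg_mul]
    rw [this, LinearMap.neg_apply]
  rw [adj_par (φ' := -D) (ψ' := LinearMap.id) (parC_id B') ?_ ?_ (fun _ _ => rfl), h1, mul_neg,
    map_neg]
  · intro x
    rw [LinearMap.neg_apply, LinearMap.neg_apply, hp, map_neg]
  · intro x y
    rw [hD, LinearMap.neg_apply, mul_neg, map_neg]

theorem skew_right [CharZero K] {D : W.Hom B' B'} (hD : Skew D) (hp : ParC D)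
    (a b : W.H (B.prod B')) :
    W.tr (B.prod B') (W.extHom LinearMap.id D a * b) =
      - W.tr (B.prod B') (a * W.extHom LinearMap.id D b) := by
  have h1 : ∀ b, W.extHom (LinearMap.id : W.Hom B B) (-D) b = - W.extHom LinearMap.id D b := by
    intro b
    have : W.extHom (LinearMap.id : W.Hom B B) (-D) = - W.extHom LinearMap.id D := by
      refine ext_cross fun x y => ?_
      rw [W.extHom_apply, LinearMap.neg_apply, LinearMap.neg_apply, W.extHom_apply, map_neg, mul_neg]
    rw [this, LinearMap.neg_apply]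
  rw [adj_par (φ' := LinearMap.id) (ψ' := -D) hp (parC_id B) (fun _ _ => rfl) ?_, h1, mul_neg,
    map_neg]
  intro x y
  rw [hD, LinearMap.neg_apply, mul_neg, map_neg]

theorem skew_ext [CharZero K] {D : W.Hom B B} {D' : W.Hom B' B'} (hD : Skew D) (hp : ParC D)
    (hD' : Skew D') (hp' : ParC D') :
    Skew (W.extHom D LinearMap.id + W.extHom LinearMap.id D') := by
  intro a b
  rw [LinearMap.add_apply, LinearMap.add_apply, add_mul, mul_add, map_add, map_add, skew_left hD hp,
    skew_right hD' hp', neg_add]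

theorem parC_ext {D : W.Hom B B} {D' : W.Hom B' B'} (hp : ParC D)
    (hp' : ParC D') : ParC (W.extHom D D') := by
  intro a
  refine W.kunneth_induction B B' (P := fun a => W.extHom D D' (W.par (B.prod B') a) =
    W.par (B.prod B') (W.extHom D D' a)) ?_ ?_ a
  · intro a b ha hb
    rw [map_add, map_add, ha, hb, map_add, map_add]
  intro x y
  rw [par_cross, W.extHom_apply, W.extHom_apply, par_cross, hp, hp']

theorem ParC.add {D D' : W.Hom B B} (hp : ParC D) (hp' : ParC D') : ParC (D + D') := by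
  intro x
  rw [LinearMap.add_apply, LinearMap.add_apply, hp, hp', map_add]

/-- The action of a class killed by `D ⊗ 1 + 1 ⊗ D'` commutes with the operators. -/
theorem act_der [CharZero K] {D : W.Hom B B} {D' : W.Hom B' B'} (hD : Skew D) (hp : ParC D)
    (hD' : Skew D') (hp' : ParC D') {α : W.H (B.prod B')}
    (h : W.extHom D LinearMap.id α + W.extHom LinearMap.id D' α = 0) (x : W.H B) :
    D' (W.act α x) = W.act α (D x) := by
  refine W.ext_tr fun w => ?_
  have h1 : W.extHom LinearMap.id D' α = - W.extHom D LinearMap.id α :=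
    eq_neg_of_add_eq_zero_right h
  have e1 : W.p1 B B' x * W.p2 B B' (D' w) =
      W.extHom LinearMap.id D' (W.p1 B B' x * W.p2 B B' w) := by
    rw [W.extHom_apply]; rfl
  have e2 : W.p1 B B' (D x) * W.p2 B B' w =
      W.extHom D LinearMap.id (W.p1 B B' x * W.p2 B B' w) := by
    rw [W.extHom_apply]; rfl
  rw [hD', W.tr_act, W.tr_act, e1, e2, ← skew_right hD' hp', h1, neg_mul, map_neg, skew_left hD hp,
    neg_neg]

/-- The transposed operator. -/
theorem exists_transpose (D : W.Hom B B) :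
    ∃ D' : W.Hom B B, ∀ u x, W.tr B (D u * x) = W.tr B (u * D' x) := by
  refine ⟨(W.pd B).symm.toLinearMap ∘ₗ ((LinearMap.mul K (W.H B)).compr₂ (W.tr B)).flip.compl₂
    (D ∘ₗ W.par B), fun u x => ?_⟩
  rw [W.tr_comm u]
  change _ = W.pd B ((W.pd B).symm (((((LinearMap.mul K (W.H B)).compr₂ (W.tr B)).flip.compl₂
    (D ∘ₗ W.par B))) x)) _
  rw [LinearEquiv.apply_symm_apply]
  change _ = W.tr B (D (W.par B (W.par B u)) * x)
  rw [W.par_par]

theorem parC_transpose {D D' : W.Hom B B} (h : ∀ u x, W.tr B (D u * x) = W.tr B (u * D' x))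
    (hp : ParC D) : ParC D' := by
  intro x
  refine W.ext_tr' fun v => ?_
  have e1 : W.tr B (v * W.par B (D' x)) = W.tr B (W.par B v * D' x) := by
    rw [← W.tr_par (v * _), W.par_mul, W.par_par]
  have e2 : W.tr B (D v * W.par B x) = W.tr B (W.par B (D v) * x) := by
    rw [← W.tr_par (_ * W.par B x), W.par_mul, W.par_par]
  rw [← h, e1, ← h, e2, hp]

/-- If the diagonal class is killed by `D ⊗ 1 + 1 ⊗ D` then `D` is skew. -/
theorem skew_of_delta [CharZero K] {D : W.Hom B B} (hp : ParC D) {δ : W.H (B.prod B)}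
    (hδ : ∀ v w, W.tr (B.prod B) (δ * (W.p1 B B v * W.p2 B B w)) = W.tr B (v * w))
    (h : W.extHom D LinearMap.id δ + W.extHom LinearMap.id D δ = 0) : Skew D := by
  obtain ⟨D', hD'⟩ := exists_transpose D
  have hp' := parC_transpose hD' hp
  have h1 : ∀ x y, W.tr (B.prod B) (W.extHom D LinearMap.id δ * (W.p1 B B x * W.p2 B B y)) =
      W.tr B (D' x * y) := by
    intro x y
    rw [adj_par (φ' := D') (ψ' := LinearMap.id) (parC_id B) hp' hD' (fun _ _ => rfl),
      W.extHom_apply, hδ, LinearMap.id_apply]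
  have h2 : ∀ x y, W.tr (B.prod B) (W.extHom LinearMap.id D δ * (W.p1 B B x * W.p2 B B y)) =
      W.tr B (x * D' y) := by
    intro x y
    rw [adj_par (φ' := LinearMap.id) (ψ' := D') hp (parC_id B) (fun _ _ => rfl) hD',
      W.extHom_apply, hδ, LinearMap.id_apply]
  have h3 : ∀ x y, W.tr B (D' x * y) = - W.tr B (x * D' y) := by
    intro x y
    rw [← h1, ← h2, ← sub_eq_zero, sub_neg_eq_add, ← map_add, ← add_mul, h, zero_mul, map_zero]
  have h4 : ∀ x, D x = - D' x := by
    intro x
    refine W.ext_tr fun y => ?_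
    rw [hD', neg_mul, map_neg, h3, neg_neg]
  intro x y
  rw [hD', h4, mul_neg, map_neg, neg_neg]

end adj

section der

variable {X : 𝒱.Obj} {D : W.Hom X X}

theorem parC_zero (B : 𝒱.Obj) : ParC (0 : W.Hom B B) := fun _ => by
  rw [LinearMap.zero_apply, LinearMap.zero_apply, map_zero]

theorem skew_zero (B : 𝒱.Obj) : Skew (0 : W.Hom B B) := fun x y => by
  rw [LinearMap.zero_apply, LinearMap.zero_apply, zero_mul, mul_zero, map_zero, neg_zero]

theorem der_parC (hp : ParC D) : ∀ m, ParC (der W D m)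
  | 0 => parC_zero _
  | m + 1 => by
    rw [der_succ]
    exact (parC_ext (der_parC hp m) (parC_id X)).add (parC_ext (parC_id (X.pow m)) hp)

theorem der_skew [CharZero K] (hD : Skew D) (hp : ParC D) : ∀ m, Skew (der W D m)
  | 0 => skew_zero _
  | m + 1 => by
    rw [der_succ]
    exact skew_ext (der_skew hD hp m) (der_parC hp m) hD hp

theorem extHom_add_left {Y Z Y' Z' : 𝒱.Obj} (φ φ' : W.Hom Y Z) (ψ : W.Hom Y' Z') :
    W.extHom (φ + φ') ψ = W.extHom φ ψ + W.extHom φ' ψ := by
  refine ext_cross fun x y => ?_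
  rw [W.extHom_apply, LinearMap.add_apply, LinearMap.add_apply, W.extHom_apply, W.extHom_apply,
    map_add, add_mul]

theorem extHom_add_right {Y Z Y' Z' : 𝒱.Obj} (φ : W.Hom Y Z) (ψ ψ' : W.Hom Y' Z') :
    W.extHom φ (ψ + ψ') = W.extHom φ ψ + W.extHom φ ψ' := by
  refine ext_cross fun x y => ?_
  rw [W.extHom_apply, LinearMap.add_apply, LinearMap.add_apply, W.extHom_apply, W.extHom_apply,
    map_add, mul_add]

theorem extHom_smul_left {Y Z Y' Z' : 𝒱.Obj} (c : K) (φ : W.Hom Y Z) (ψ : W.Hom Y' Z') :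
    W.extHom (c • φ) ψ = c • W.extHom φ ψ := by
  refine ext_cross fun x y => ?_
  rw [W.extHom_apply, LinearMap.smul_apply, LinearMap.smul_apply, W.extHom_apply,
    map_smul, smul_mul_assoc]

theorem extHom_smul_right {Y Z Y' Z' : 𝒱.Obj} (c : K) (φ : W.Hom Y Z) (ψ : W.Hom Y' Z') :
    W.extHom φ (c • ψ) = c • W.extHom φ ψ := by
  refine ext_cross fun x y => ?_
  rw [W.extHom_apply, LinearMap.smul_apply, LinearMap.smul_apply, W.extHom_apply,
    map_smul, mul_smul_comm]

theorem extHom_comp {Y Z T Y' Z' T' : 𝒱.Obj} (φ : W.Hom Y Z) (φ' : W.Hom Z T)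
    (ψ : W.Hom Y' Z') (ψ' : W.Hom Z' T') (x : W.H (Y.prod Y')) :
    W.extHom φ' ψ' (W.extHom φ ψ x) = W.extHom (φ' ∘ₗ φ) (ψ' ∘ₗ ψ) x := by
  refine W.kunneth_induction Y Y' (P := fun x => W.extHom φ' ψ' (W.extHom φ ψ x) =
    W.extHom (φ' ∘ₗ φ) (ψ' ∘ₗ ψ) x) ?_ ?_ x
  · intro a b ha hb
    simp only [map_add, ha, hb]
  intro a b
  rw [W.extHom_apply, W.extHom_apply, W.extHom_apply]
  rfl

/-- `[der A, der B] = der [A, B]` -/
theorem der_comm {A B C : W.Hom X X} (h : ∀ x, A (B x) - B (A x) = C x) :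
    ∀ m (x : W.H (X.pow m)), der W A m (der W B m x) - der W B m (der W A m x) = der W C m x
  | 0, x => by
    change (0 : W.H Obj.pt) - 0 = 0
    rw [sub_zero]
  | m + 1, x => by
    have hC : C = A ∘ₗ B - B ∘ₗ A := by
      ext x
      rw [LinearMap.sub_apply, LinearMap.comp_apply, LinearMap.comp_apply, h]
    have key : ∀ x : W.H ((X.pow m).prod X),
        (W.extHom (der W A m) LinearMap.id + W.extHom LinearMap.id A : W.Hom _ _)
          ((W.extHom (der W B m) LinearMap.id + W.extHom LinearMap.id B : W.Hom _ _) x) -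
        (W.extHom (der W B m) LinearMap.id + W.extHom LinearMap.id B : W.Hom _ _)
          ((W.extHom (der W A m) LinearMap.id + W.extHom LinearMap.id A : W.Hom _ _) x) =
        (W.extHom (der W C m) LinearMap.id + W.extHom LinearMap.id C : W.Hom _ _) x := by
      intro x
      refine W.kunneth_induction (X.pow m) X (P := fun x =>
        (W.extHom (der W A m) LinearMap.id + W.extHom LinearMap.id A : W.Hom _ _)
          ((W.extHom (der W B m) LinearMap.id + W.extHom LinearMap.id B : W.Hom _ _) x) -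
        (W.extHom (der W B m) LinearMap.id + W.extHom LinearMap.id B : W.Hom _ _)
          ((W.extHom (der W A m) LinearMap.id + W.extHom LinearMap.id A : W.Hom _ _) x) =
        (W.extHom (der W C m) LinearMap.id + W.extHom LinearMap.id C : W.Hom _ _) x) ?_ ?_ x
      · intro a b ha hb
        simp only [map_add] at ha hb ⊢
        rw [← ha, ← hb]
        abel
      intro a b
      simp only [LinearMap.add_apply, W.extHom_apply, map_add, LinearMap.id_apply]
      rw [← der_comm h m a, ← h b, map_sub, map_sub, sub_mul, mul_sub]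
      abel
    rw [der_succ, der_succ, der_succ]
    exact key x

theorem der_smul (c : K) (A : W.Hom X X) : ∀ m, der W (c • A) m = c • der W A m
  | 0 => (smul_zero c).symm
  | m + 1 => by
    rw [der_succ, der_succ, der_smul c A m, extHom_smul_left, extHom_smul_right]
    exact (smul_add c _ _).symm

end der

end Pool.Agent.GSp
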