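import Pool.Agent.W_f569db_gs.LA

set_option autoImplicit false

/-!
# Linear algebra: `N ^ n` is injective on vectors of weight `-n`
-/

noncomputable section

namespace Pool.Agent.GSp

variable {K V : Type*} [Field K] [CharZero K] [AddCommGroup V] [Module K V]

/-- Lowering a vector `x` of weight `l ≤ 0` with `N f x = ν x`, `ν < 0`. -/
theorem sl2_auxg [FiniteDimensional K V] {h N f : V →ₗ[K] V}
    (hf : ∀ x, h (f x) - f (h x) = -(2 : K) • f x) (hNf : ∀ x, N (f x) - f (N x) = h x) {x : V}
    {l ν : ℤ} (hl : l ≤ 0) (hν : ν < 0)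
    (hx : h x = (l : K) • x) (hx' : N (f x) = (ν : K) • x) : x = 0 := by
  have h1 : ∀ j : ℕ, h ((f ^ j) x) = ((l - 2 * j : ℤ) : K) • (f ^ j) x := by
    intro j
    induction j with
    | zero => simpa using hx
    | succ j ih =>
      rw [pow_succ', Module.End.mul_apply]
      have := hf ((f ^ j) x)
      rw [ih, map_smul, sub_eq_iff_eq_add] at this
      rw [this, ← add_smul]
      congr 1
      push_cast
      ring
  have h2 : ∀ j : ℕ, N ((f ^ (j + 1)) x) = ((ν + j * l - j * (j + 1) : ℤ) : K) • (f ^ j) x := by
    intro j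
    induction j with
    | zero => simpa using hx'
    | succ j ih =>
      rw [pow_succ', Module.End.mul_apply]
      have := hNf ((f ^ (j + 1)) x)
      rw [ih, h1, map_smul, sub_eq_iff_eq_add] at this
      rw [this, ← Module.End.mul_apply, ← pow_succ', ← add_smul]
      congr 1
      push_cast
      ring
  have h3 : ∃ j : ℕ, (f ^ j) x = 0 := by
    by_contra hcon
    push Not at hcon
    have hli : LinearIndependent K fun j : ℕ => (f ^ j) x := by
      refine Module.End.eigenvectors_linearIndependent' h
        (fun j : ℕ => ((l - 2 * j : ℤ) : K)) ?_ _ fun j => ?_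
      · intro i j hij
        have h4 : (l - 2 * i : ℤ) = l - 2 * j := Int.cast_injective hij
        omega
      · exact Module.End.hasEigenvector_iff.2 ⟨Module.End.mem_eigenspace_iff.2 (h1 j), hcon j⟩
    have := hli.finite
    exact not_finite ℕ
  obtain ⟨j, hj⟩ := h3
  induction j with
  | zero => simpa using hj
  | succ j ih =>
    refine ih ?_
    have h4 := h2 j
    rw [hj, map_zero] at h4
    rcases smul_eq_zero.1 h4.symm with h5 | h5
    · exfalso
      have h6 : (ν + j * l - j * (j + 1) : ℤ) = 0 := by exact_mod_cast h5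
      have h7 : (j : ℤ) * l ≤ 0 := mul_nonpos_of_nonneg_of_nonpos (Int.natCast_nonneg j) hl
      have h8 : (0 : ℤ) ≤ j * (j + 1) := by positivity
      linarith
    · exact h5

/-- `[N ^ j, f]` on a vector of weight `w`. -/
theorem sl2_comm {h N f : V →ₗ[K] V} (hN : ∀ x, h (N x) - N (h x) = (2 : K) • N x)
    (hNf : ∀ x, N (f x) - f (N x) = h x) {v : V} {w : ℤ} (hv : h v = (w : K) • v) :
    ∀ j : ℕ, (N ^ (j + 1)) (f v) = f ((N ^ (j + 1)) v) +
      (((j + 1) * (w + j) : ℤ) : K) • (N ^ j) v := by
  have h1 : ∀ j : ℕ, h ((N ^ j) v) = ((w + 2 * j : ℤ) : K) • (N ^ j) v := by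
    intro j
    induction j with
    | zero => simpa using hv
    | succ j ih =>
      rw [pow_succ', Module.End.mul_apply]
      have := hN ((N ^ j) v)
      rw [ih, map_smul, sub_eq_iff_eq_add] at this
      rw [this, ← add_smul]
      congr 1
      push_cast
      ring
  intro j
  induction j with
  | zero =>
    have := hNf v
    rw [sub_eq_iff_eq_add, hv] at this
    simp [this, add_comm]
  | succ j ih =>
    rw [pow_succ', Module.End.mul_apply, ih, map_add, map_smul]
    have h2 := hNf ((N ^ (j + 1)) v)
    rw [sub_eq_iff_eq_add, h1] at h2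
    rw [h2, ← Module.End.mul_apply N (N ^ j), ← pow_succ', ← Module.End.mul_apply N (N ^ (j + 1)),
      ← pow_succ', add_comm (_ • _) (f _), add_assoc, ← add_smul]
    congr 2
    push_cast
    ring

/-- A vector of weight `l ≤ -j` killed by `N ^ j` is zero. -/
theorem sl2_claim [FiniteDimensional K V] {h N f : V →ₗ[K] V}
    (hN : ∀ x, h (N x) - N (h x) = (2 : K) • N x)
    (hf : ∀ x, h (f x) - f (h x) = -(2 : K) • f x) (hNf : ∀ x, N (f x) - f (N x) = h x) (j : ℕ) :
    ∀ (l : ℤ) (x : V), l ≤ -j → h x = (l : K) • x → (N ^ j) x = 0 → x = 0 := by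
  induction j with
  | zero =>
    intro l x _ _ hx
    simpa using hx
  | succ j ih =>
    intro l x hl hx hx'
    push_cast at hl
    -- `f N x = μ x`
    have hw : h (N x) = ((l + 2 : ℤ) : K) • N x := by
      have := hN x
      rw [hx, map_smul, sub_eq_iff_eq_add, ← add_smul] at this
      rw [this]
      congr 1
      push_cast
      ring
    have hwf : h (f (N x)) = (l : K) • f (N x) := by
      have := hf (N x)
      rw [hw, map_smul, sub_eq_iff_eq_add, ← add_smul] at this
      rw [this]
      congr 1
      push_cast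
      ring
    have key : f (N x) = ((j * (l + j + 1) : ℤ) : K) • x := by
      rw [← sub_eq_zero]
      refine ih l _ (by linarith) ?_ ?_
      · rw [map_sub, map_smul, hwf, hx, smul_sub, smul_comm]
      · cases j with
        | zero =>
          have h0 : N x = 0 := by simpa using hx'
          simp [h0]
        | succ j =>
          have h2 := sl2_comm hN hNf hw j
          have h3 : (N ^ (j + 1)) (N x) = 0 := by
            rw [← Module.End.mul_apply, ← pow_succ]
            exact hx'
          have h4 : (N ^ j) (N x) = (N ^ (j + 1)) x := by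
            rw [← Module.End.mul_apply, ← pow_succ]
          rw [h3, map_zero, zero_add, h4] at h2
          rw [map_sub, h2, map_smul, ← sub_smul]
          have h5 : (((j + 1) * (l + 2 + j) : ℤ) : K) -
              ((((j + 1 : ℕ) : ℤ) * (l + ((j + 1 : ℕ) : ℤ) + 1) : ℤ) : K) = 0 := by
            push_cast
            ring
          rw [h5, zero_smul]
    refine sl2_auxg (l := l) (ν := j * (l + j + 1) + l) hf hNf (by linarith) ?_ hx ?_
    · have h6 : (j : ℤ) * (l + j + 1) ≤ 0 :=
        mul_nonpos_of_nonneg_of_nonpos (Int.natCast_nonneg j) (by linarith)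
      have h7 : (0 : ℤ) ≤ j := Int.natCast_nonneg j
      linarith
    · have := hNf x
      rw [sub_eq_iff_eq_add, key, hx, ← add_smul] at this
      rw [this]
      congr 1
      push_cast
      ring

end Pool.Agent.GSp
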