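import Pool.Agent.W_f569db_gs.Iso

set_option autoImplicit false

/-!
# `X^(m+n) = X^m × X^n`
-/

noncomputable section

namespace Pool.Agent.GSp

open AlgebraicGeometry CategoryTheory
open Pool.Agent.WeilH_h6 Pool.Agent.WeilH_h6.VarClass Pool.Agent.WeilH_h6.Weil GTh
open scoped TensorProduct

universe u v w u' w'

variable {k₀ : Type u'} {k : Type u} [Field k₀] [Field k] {𝒱₀ : VarClass k₀} {𝒱 : VarClass k}
  {K : Type v} [Field K] {W₀ : Weil.{u', v, w'} 𝒱₀ K} {W : Weil.{u, v, w} 𝒱 K}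

/-- The pull-back along `f` commutes with the operators `D` and `D'`. -/
def Compat {B B' : 𝒱.Obj} (f : B ⟶ B') (D : W.Hom B B) (D' : W.Hom B' B') : Prop :=
  ∀ x, W.pull f (D' x) = D (W.pull f x)

/-- `D ⊗ 1 + 1 ⊗ E` -/
def dx {B C : 𝒱.Obj} (D : W.Hom B B) (E : W.Hom C C) : W.Hom (B.prod C) (B.prod C) :=
  W.extHom D LinearMap.id + W.extHom LinearMap.id E

theorem dx_cross {B C : 𝒱.Obj} (D : W.Hom B B) (E : W.Hom C C) (x : W.H B) (y : W.H C) :
    dx D E (W.p1 B C x * W.p2 B C y) =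
      W.p1 B C (D x) * W.p2 B C y + W.p1 B C x * W.p2 B C (E y) := by
  unfold dx
  rw [LinearMap.add_apply, W.extHom_apply, W.extHom_apply, LinearMap.id_apply, LinearMap.id_apply]

section

variable {B B' B'' C C' : 𝒱.Obj}

theorem Compat.id (D : W.Hom B B) : Compat (𝟙 B) D D := fun x => by
  rw [W.pull_id, W.pull_id]

theorem Compat.comp {f : B ⟶ B'} {g : B' ⟶ B''} {D : W.Hom B B} {D' : W.Hom B' B'}
    {D'' : W.Hom B'' B''} (h : Compat f D D') (h' : Compat g D' D'') : Compat (f ≫ g) D D'' := by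
  intro x
  rw [W.pull_comp, h', h, W.pull_comp]

theorem Compat.pm {f : B ⟶ B'} {g : C ⟶ C'} {D : W.Hom B B} {D' : W.Hom B' B'}
    {E : W.Hom C C} {E' : W.Hom C' C'} (h : Compat f D D') (h' : Compat g E E') :
    Compat (pm f g) (dx D E) (dx D' E') := by
  intro u
  refine W.kunneth_induction B' C' (P := fun u => W.pull (GSp.pm f g) (dx D' E' u) =
    dx D E (W.pull (GSp.pm f g) u)) ?_ ?_ u
  · intro a b ha hb
    simp only [map_add, ha, hb]
  intro x y
  rw [dx_cross, map_add, pull_pm, pull_pm, pull_pm, dx_cross, h, h']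

theorem Compat.assocM (D : W.Hom B B) (D' : W.Hom B' B') (D'' : W.Hom B'' B'') :
    Compat (Weil.assocM B B' B'') (dx D (dx D' D'')) (dx (dx D D') D'') := by
  intro u
  refine triple_induction' (P := fun u => W.pull (Weil.assocM B B' B'') (dx (dx D D') D'' u) =
    dx D (dx D' D'') (W.pull (Weil.assocM B B' B'') u)) ?_ ?_ u
  · intro a b ha hb
    simp only [map_add, ha, hb]
  intro x y z
  rw [dx_cross, dx_cross, pull_assocM', dx_cross, dx_cross, map_add, map_add, add_mul, map_add,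
    pull_assocM', pull_assocM', pull_assocM', map_add, mul_add, add_assoc]

theorem Compat.assocN (D : W.Hom B B) (D' : W.Hom B' B') (D'' : W.Hom B'' B'') :
    Compat (GSp.assocN B B' B'') (dx (dx D D') D'') (dx D (dx D' D'')) := by
  intro u
  refine triple_induction (P := fun u => W.pull (GSp.assocN B B' B'') (dx D (dx D' D'') u) =
    dx (dx D D') D'' (W.pull (GSp.assocN B B' B'') u)) ?_ ?_ u
  · intro a b ha hb
    simp only [map_add, ha, hb]
  intro x y z
  rw [dx_cross, dx_cross, pull_assocN, dx_cross, dx_cross, map_add, map_add, mul_add, map_add,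
    pull_assocN, pull_assocN, pull_assocN, map_add, add_mul, add_assoc]

theorem Compat.rU (D : W.Hom B B) : Compat (GSp.rU B) D (dx D 0) := by
  intro u
  refine W.kunneth_induction B Obj.pt (P := fun u => W.pull (GSp.rU B) (dx D 0 u) =
    D (W.pull (GSp.rU B) u)) ?_ ?_ u
  · intro a b ha hb
    simp only [map_add, ha, hb]
  intro x y
  rw [dx_cross, LinearMap.zero_apply, map_zero, mul_zero, add_zero, pull_rU, pull_rU, map_smul]

theorem Compat.fst (D : W.Hom B B) : Compat (Obj.fst B Obj.pt) (dx D 0) D := by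
  intro x
  have h1 : ∀ y, W.pull (Obj.fst B Obj.pt) y = W.p1 B Obj.pt y * W.p2 B Obj.pt 1 := by
    intro y
    rw [map_one, mul_one]
  rw [h1 (D x), h1 x, dx_cross, LinearMap.zero_apply, map_zero, mul_zero, add_zero]

theorem Compat.lU (D : W.Hom B B) : Compat (GSp.lU B) D (dx 0 D) := by
  intro u
  refine W.kunneth_induction Obj.pt B (P := fun u => W.pull (GSp.lU B) (dx 0 D u) =
    D (W.pull (GSp.lU B) u)) ?_ ?_ u
  · intro a b ha hb
    simp only [map_add, ha, hb]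
  intro x y
  rw [dx_cross, LinearMap.zero_apply, map_zero, zero_mul, zero_add, pull_lU, pull_lU, map_smul]

theorem Compat.snd (D : W.Hom B B) : Compat (Obj.snd Obj.pt B) (dx 0 D) D := by
  intro x
  have h1 : ∀ y, W.pull (Obj.snd Obj.pt B) y = W.p1 Obj.pt B 1 * W.p2 Obj.pt B y := by
    intro y
    rw [map_one, one_mul]
  rw [h1 (D x), h1 x, dx_cross, LinearMap.zero_apply, map_zero, zero_mul, zero_add]

end

/-! ### The splitting -/

/-- `X^(m+n) → X^m × X^n` -/
def spl (X : 𝒱.Obj) (m : ℕ) : ∀ n, X.pow (m + n) ⟶ (X.pow m).prod (X.pow n)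
  | 0 => rU (X.pow m)
  | n + 1 => pm (spl X m n) (𝟙 X) ≫ assocN (X.pow m) (X.pow n) X

/-- `X^m × X^n → X^(m+n)` -/
def glu (X : 𝒱.Obj) (m : ℕ) : ∀ n, (X.pow m).prod (X.pow n) ⟶ X.pow (m + n)
  | 0 => Obj.fst (X.pow m) Obj.pt
  | n + 1 => assocM (X.pow m) (X.pow n) X ≫ pm (glu X m n) (𝟙 X)

theorem glu_spl (X : 𝒱.Obj) (m : ℕ) : ∀ n, glu X m n ≫ spl X m n = 𝟙 _
  | 0 => rU_fst (X.pow m)
  | n + 1 => by
    have key : (assocM (X.pow m) (X.pow n) X ≫ pm (glu X m n) (𝟙 X)) ≫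
        (pm (spl X m n) (𝟙 X) ≫ assocN (X.pow m) (X.pow n) X) = 𝟙 _ := by
      rw [Category.assoc, ← Category.assoc (pm (glu X m n) (𝟙 X)), pm_comp, glu_spl X m n,
        Category.comp_id, pm_id, Category.id_comp, assocM_N]
    exact key

theorem spl_sys {X : 𝒱.Obj} (S : Sys W₀ W X) (m : ℕ) : ∀ n,
    PullSys (spl X m n) (S.pow (m + n)) ((S.pow m).prod (S.pow n))
  | 0 => PullSys.rU
  | n + 1 => ((spl_sys S m n).prod (PullSys.id S)).comp PullSys.assocN

theorem glu_sys [CharZero K] {X : 𝒱.Obj} (S : Sys W₀ W X) (m : ℕ) : ∀ n,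
    PullSys (glu X m n) ((S.pow m).prod (S.pow n)) (S.pow (m + n))
  | 0 => PullSys.fst
  | n + 1 => PullSys.comp PullSys.assocM ((glu_sys S m n).prod (PullSys.id S))

theorem der_dx {X : 𝒱.Obj} (D : W.Hom X X) (m : ℕ) : der W D (m + 1) = dx (der W D m) D :=
  der_succ D m

theorem spl_compat {X : 𝒱.Obj} (D : W.Hom X X) (m : ℕ) : ∀ n,
    Compat (spl X m n) (der W D (m + n)) (dx (der W D m) (der W D n))
  | 0 => Compat.rU (der W D m)
  | n + 1 => by
    have h1 := ((spl_compat D m n).pm (Compat.id D)).comp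
      (Compat.assocN (der W D m) (der W D n) D)
    rw [← der_dx, ← der_dx] at h1
    exact h1

theorem glu_compat {X : 𝒱.Obj} (D : W.Hom X X) (m : ℕ) : ∀ n,
    Compat (glu X m n) (dx (der W D m) (der W D n)) (der W D (m + n))
  | 0 => Compat.fst (der W D m)
  | n + 1 => by
    have h1 := (Compat.assocM (der W D m) (der W D n) D).comp
      ((glu_compat D m n).pm (Compat.id D))
    rw [← der_dx, ← der_dx] at h1
    exact h1

/-! ### `X^2 = X × X` -/

/-- `X^2 → X × X` -/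
def spl2 (X : 𝒱.Obj) : X.pow 2 ⟶ X.prod X := pm (Obj.snd Obj.pt X) (𝟙 X)

/-- `X × X → X^2` -/
def glu2 (X : 𝒱.Obj) : X.prod X ⟶ X.pow 2 := pm (lU X) (𝟙 X)

theorem glu_spl2 (X : 𝒱.Obj) : glu2 X ≫ spl2 X = 𝟙 _ := by
  have key : pm (lU X) (𝟙 X) ≫ pm (Obj.snd Obj.pt X) (𝟙 X) = 𝟙 _ := by
    rw [pm_comp, lU_snd, Category.comp_id, pm_id]
  exact key

theorem spl2_sys [CharZero K] {X : 𝒱.Obj} (S : Sys W₀ W X) :
    PullSys (spl2 X) (S.pow 2) (S.prod S) := PullSys.snd.prod (PullSys.id S)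

theorem glu2_sys {X : 𝒱.Obj} (S : Sys W₀ W X) :
    PullSys (glu2 X) (S.prod S) (S.pow 2) := PullSys.lU.prod (PullSys.id S)

theorem spl2_compat {X : 𝒱.Obj} (D : W.Hom X X) :
    Compat (spl2 X) (der W D 2) (dx D D) := by
  have h1 := (Compat.snd D).pm (Compat.id D)
  have h2 : der W D 2 = dx (dx (0 : W.Hom Obj.pt Obj.pt) D) D := by
    rw [der_dx, der_dx]
    rfl
  rw [h2]
  exact h1

theorem glu2_compat {X : 𝒱.Obj} (D : W.Hom X X) :
    Compat (glu2 X) (dx D D) (der W D 2) := by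
  have h1 := (Compat.lU D).pm (Compat.id D)
  have h2 : der W D 2 = dx (dx (0 : W.Hom Obj.pt Obj.pt) D) D := by
    rw [der_dx, der_dx]
    rfl
  rw [h2]
  exact h1

end Pool.Agent.GSp
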