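import Pool.Agent.W_f569db_g.Defs
import Pool.Agent.W_f569db_gs.Lin

set_option autoImplicit false

/-!
# Degenerations of a variety to a pure motive

Definitions for the statement.  `k` and `k₀` are fields, `W` and `W₀` Weil cohomology theories for
varieties over `k` and over `k₀`, with the same coefficients `K`.  For a semistable degeneration `k` is
an algebraic closure of the function field of the base and `k₀` the residue field of the base.
-/

noncomputable section

namespace Pool.Agent.GSp

open Pool.Agent.WeilH_h6 Pool.Agent.WeilH_h6.VarClass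

universe u v w u' w'

section single

variable {k : Type u} [Field k] {𝒱 : VarClass k} {K : Type v} [Field K] (W : Weil.{u, v, w} 𝒱 K)

/-- `a` is (a sum of) classes of cycles on `Y` with rational coefficients. -/
abbrev RatCl {Y : 𝒱.Obj} (a : W.H Y) : Prop := a ∈ W.ratSpan Y

/-- The bilinear form `Tr (x · y)`. -/
abbrev pr (Y : 𝒱.Obj) (x y : W.H Y) : K := W.deg (x * y)

/-- The `K`-linear map `φ : H(Y) → H(Z)` is given by (a sum of) cycles on `Y × Z` with rational
coefficients. -/
def RatMap {Y Z : 𝒱.Obj} (φ : W.Hom Y Z) : Prop :=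
  ∃ α : W.H (Y.prod Z), RatCl W α ∧ ∀ v v', pr W Z (W.ap φ v) v' = pr W (Y.prod Z) α (W.cross v v')

/-- The power of the parity operator with exponent `n`: multiplication by `(-1)^(n i)` on `H^i(Y)`. -/
def parP (Y : 𝒱.Obj) (n : ℤ) : W.Hom Y Y := parPow (W.grad Y) (W.axInternal Y) n

/-- The inverse of the Künneth isomorphism `H(Y) ⊗ H(Z) → H(Y × Z)`. -/
def kinv (Y Z : 𝒱.Obj) : W.H (Y.prod Z) →ₗ[K] TensorProduct K (W.H Y) (W.H Z) :=
  inv (W.kunnethMap Y Z) (W.axKunneth Y Z)

/-- The operator `D ⊗ 1 + 1 ⊗ φ` of `H(Y × Z) = H(Y) ⊗ H(Z)`. -/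
def derProd {Y Z : 𝒱.Obj} (D : W.Hom Y Y) (φ : W.Hom Z Z) : W.Hom (Y.prod Z) (Y.prod Z) :=
  tensDer (kinv W Y Z) (W.kunnethMap Y Z) D φ

/-- The derivation `φ ⊗ 1 ⊗ ⋯ ⊗ 1 + ⋯ + 1 ⊗ ⋯ ⊗ 1 ⊗ φ` of `H(X^m) = H(X)^{⊗ m}`. -/
def der {X : 𝒱.Obj} (φ : W.Hom X X) : ∀ m : ℕ, W.Hom (X.pow m) (X.pow m) :=
  Nat.rec 0 fun _ d => derProd W d φ

end single

variable {k₀ : Type u'} {k : Type u} [Field k₀] [Field k] {𝒱₀ : VarClass k₀} {𝒱 : VarClass k}
  {K : Type v} [Field K] (W₀ : Weil.{u', v, w'} 𝒱₀ K) (W : Weil.{u, v, w} 𝒱 K)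

/-- The external product `H₀(A × A') → H(B × B')` of the linear maps `φ : H₀(A) → H(B)` and
`ψ : H₀(A') → H(B')`, with the sign `(-1) ^ (n * deg y)`: `x × y ↦ (-1) ^ (n * deg y) φ(x) × ψ(y)`. -/
def extProd {A A' : 𝒱₀.Obj} {B B' : 𝒱.Obj} (n : ℤ) (φ : W₀.H A →ₗ[K] W.H B)
    (ψ : W₀.H A' →ₗ[K] W.H B') : W₀.H (A.prod A') →ₗ[K] W.H (B.prod B') :=
  tens (kinv W₀ A A') (W.kunnethMap B B') φ ψ (parP W₀ A' n)

/-- A finite family of varieties `Y_a` over `k₀` with weights and linear maps
`π_a : H₀(Y_a) → H(B)`, where `B` is a variety over `k`. -/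
structure Sys (B : 𝒱.Obj) where
  /-- the index set -/
  J : Type
  [fin : Fintype J]
  Y : J → 𝒱₀.Obj
  wt : J → ℤ
  π : ∀ a, W₀.H (Y a) →ₗ[K] W.H B

attribute [instance] Sys.fin

variable {W₀ W}

namespace Sys

/-- The system with one member, the point over `k₀`, for the point over `k`. -/
def unit : Sys W₀ W Obj.pt where
  J := Unit
  Y := fun _ => Obj.pt
  wt := fun _ => 0
  π := fun _ => rankOne (W₀.tr Obj.pt) 1

/-- The product of two systems: the varieties `Y_a × Y'_b` with the weights `wt a + wt b` and the maps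
`x × y ↦ π_a (x) × π'_b (y)`, with the sign `(-1) ^ (wt a * deg y)`. -/
def prod {B B' : 𝒱.Obj} (S : Sys W₀ W B) (S' : Sys W₀ W B') : Sys W₀ W (B.prod B') where
  J := S.J × S'.J
  Y := fun a => (S.Y a.1).prod (S'.Y a.2)
  wt := fun a => S.wt a.1 + S'.wt a.2
  π := fun a => extProd W₀ W (S.wt a.1) (S.π a.1) (S'.π a.2)

/-- The powers of a system: the varieties `Y_{a_1} × ⋯ × Y_{a_m}` with their maps to `H(X^m)`. -/
def pow {X : 𝒱.Obj} (S : Sys W₀ W X) : ∀ m : ℕ, Sys W₀ W (X.pow m) :=
  Nat.rec unit fun _ T => T.prod S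

/-- `x` is a sum of classes `π_a (e_a)`, where `e_a` is the class of a cycle on `Y_a` with rational
coefficients, and the weight of `a` is `n`. -/
def Rep {B : 𝒱.Obj} (S : Sys W₀ W B) (n : ℤ) (x : W.H B) : Prop :=
  ∃ e : ∀ a, W₀.H (S.Y a), (∀ a, RatCl W₀ (e a)) ∧ IsSum S.π S.wt n e x

/-- The endomorphism `φ` of `H(B)` is given by cycles with rational coefficients on the
`Y_b × Y_a`. -/
def RatOp {B : 𝒱.Obj} (S : Sys W₀ W B) (φ : W.Hom B B) : Prop :=
  ∃ ν : ∀ a b, W₀.Hom (S.Y b) (S.Y a), (∀ a b, RatMap W₀ (ν a b)) ∧ IsMatrix S.π ν φ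

end Sys

variable (W₀ W)

/-- A degeneration of `X` to a pure motive over `k₀`: a system of varieties over `k₀` together with the
monodromy operator `N` and the weight operator `h` on `H(X)`.

Examples.  (1) If `X` has good reduction `X₀` there is one `Y_a`, the variety `X₀`, of weight `0`, and
`N = 0`.  (2) Suppose that `X` has strictly semistable reduction over `k₀` (`H` the `ℓ`-adic cohomology),
and that `D` is true for the products of two strata `Y_a` of the special fibre.  A Frobenius element
splits the weight filtration of `H(X)`, so that `H(X)` is the `E_2`-term of the weight spectral sequence,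
which is a direct factor, cut out by cycles, of the `E_1`-term, the direct sum of the `H₀(Y_a)`; and the
cycles on `X^m` specialise to cycles on the products of strata. -/
structure Degen (X : 𝒱.Obj) extends Sys W₀ W X where
  /-- the monodromy operator -/
  N : W.Hom X X
  /-- the weight operator -/
  h : W.Hom X X
  /-- `H(X)` is the sum of the images of the `π_a`; the weight operator is multiplication by the weight;
  the `π_a` change the parity of the degree by the weight -/
  axGrading : IsGrading π wt h (fun a => parP W₀ (Y a) 1) (parP W X 1)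
  /-- up to sign, the bilinear form `Tr_X (π_a (y) · π_b (y'))` is given by cycles with rational
  coefficients on `Y_b × Y_a` -/
  axForm : ∀ a b, ∃ κ : W₀.Hom (Y b) (Y a), RatMap W₀ κ ∧
    FormEq (pr W X) (π a) (π b) (parP W₀ (Y b) (wt a)) (pr W₀ (Y a)) κ
  /-- the monodromy operator is given by cycles -/
  axN : toSys.RatOp N
  /-- the monodromy operator and the weight operator belong to an action of `sl_2`: monodromy weight
  conjecture -/
  axSl2 : ∃ f : W.Hom X X, Sl2 h N f
  /-- specialisation of cycles: the class of every cycle on `X^m` is a sum of classes `π_a (e_a)` of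
  weight `0` with cycles `e_a` on the `Y_{a_1} × ⋯ × Y_{a_m}`, and it is annihilated by the monodromy
  operator -/
  axCycle : ∀ (m i : ℕ) (z : Cyc (X.pow m) i),
    (toSys.pow m).Rep 0 (W.cl z) ∧ der W N m (W.cl z) = 0

variable {W₀ W}

/-- The endomorphism `φ` of `H(X)` is given by cycles on the `Y_b × Y_a` and commutes with the monodromy
and the weight operator. -/
def Degen.Invariant {X : 𝒱.Obj} (D : Degen W₀ W X) (φ : W.Hom X X) : Prop :=
  D.RatOp φ ∧ Comm φ D.N ∧ Comm φ D.h

/-- The subspace `I` of the generator `U = p H(X)` is cut out by cycles on the `Y_b × Y_a`: there is an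
endomorphism `φ = p φ p` given by cycles on the `Y_b × Y_a`, commuting with the monodromy and the weight
operator, whose image is `I` and which is the multiplication by a nonzero constant on `I`. -/
def Degen.CutOut {X : 𝒱.Obj} (D : Degen W₀ W X) (P : W.Polarised X)
    (I : Submodule K (W.H X)) : Prop :=
  ∃ (φ : W.Hom X X) (c : K), D.Invariant φ ∧ CutBy P.p φ I c

/-- The rational forms `Tr (N^n x · θ(x))` on the primitive classes of weight `-n` are anisotropic: if the
element `x = p x` of the generator `U = p H(X)` is a sum of classes `π_a (e_a)`, where `e_a` is the class of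
a cycle on `Y_a` with rational coefficients and the weight of `a` is `-n`, and `N^(n+1) x = 0` and
`Tr (N^n x · θ(x)) = 0`, then `x = 0`. -/
def Degen.Definite {X : 𝒱.Obj} (D : Degen W₀ W X) (P : W.Polarised X) : Prop :=
  ∀ (n : ℕ) (x : W.H X), D.Rep (-n) x → PrimIso (pr W X) P.p P.θ D.N n x → x = 0

end Pool.Agent.GSp
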