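import Pool.Agent.W_f569db_gs.Theory
import Pool.Agent.W_f569db_gs.Sl2
import Pool.Agent.W_f569db_h13.Main

set_option autoImplicit false

/-!
# Totally degenerate reduction
-/

noncomputable section

namespace Pool.Agent.GSp

open AlgebraicGeometry CategoryTheory
open Pool.Agent.WeilH_h6 Pool.Agent.WeilH_h6.VarClass Pool.Agent.WeilH_h6.Weil GTh
open scoped TensorProduct

universe u v w u' w'

variable {k₀ : Type u'} {k : Type u} [Field k₀] [Field k] {𝒱₀ : VarClass k₀} {𝒱 : VarClass k}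
  {K : Type v} [Field K] {W₀ : Weil.{u', v, w'} 𝒱₀ K} {W : Weil.{u, v, w} 𝒱 K}

/-! ### Cohomology spanned by algebraic classes -/

theorem algSpan_prod [CharZero K] {Y Z : 𝒱.Obj} (hY : W.algSpan Y = ⊤) (hZ : W.algSpan Z = ⊤) :
    W.algSpan (Y.prod Z) = ⊤ := by
  rw [eq_top_iff]
  intro x _
  refine W.kunneth_induction Y Z (P := fun x => x ∈ W.algSpan (Y.prod Z)) ?_ ?_ x
  · intro a b ha hb
    exact Submodule.add_mem _ ha hb
  intro y z
  refine W.mul_mem_algSpan (W.pull_mem_algSpan _ ?_) (W.pull_mem_algSpan _ ?_)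
  · rw [hY]; exact Submodule.mem_top
  · rw [hZ]; exact Submodule.mem_top

theorem algSpan_pt [CharZero K] : W.algSpan (Obj.pt : 𝒱.Obj) = ⊤ := by
  rw [eq_top_iff]
  intro x _
  rw [W.eq_smul_one x]
  exact Submodule.smul_mem _ _ (W.one_mem_algSpan _)

theorem algSpan_pow [CharZero K] {X : 𝒱.Obj} {S : Sys W₀ W X}
    (h : ∀ a, W₀.algSpan (S.Y a) = ⊤) : ∀ m (a : (S.pow m).J), W₀.algSpan ((S.pow m).Y a) = ⊤
  | 0, _ => algSpan_pt
  | m + 1, (a, b) => algSpan_prod (algSpan_pow h m a) (h b)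

theorem homEqNum_of_algSpan [CharZero K] {Y : 𝒱.Obj} (h : W.algSpan Y = ⊤) : W.HomEqNum Y := by
  refine W.homEqNum_of_nondeg fun a _ hb => W.duality Y a fun y => hb y ?_
  rw [h]
  exact Submodule.mem_top

/-! ### Powers of `N` -/

section pow

variable {B : 𝒱.Obj} {S : Sys W₀ W B}

theorem Shift.powN [CharZero K] {N : W.Hom B B} (hN2 : S.Shift 2 N) {m : ℤ} {x : W.H B}
    (hx : S.Rep m x) : ∀ n : ℕ, S.Rep (m + 2 * n) ((N ^ n) x)
  | 0 => by simpa using hx
  | n + 1 => by
    have h1 := Shift.rep hN2 (Shift.powN hN2 hx n)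
    rw [pow_succ', Module.End.mul_apply]
    have e : m + 2 * (n : ℤ) + 2 = m + 2 * ((n + 1 : ℕ) : ℤ) := by push_cast; ring
    rwa [e] at h1

/-- `N ^ n` maps the classes of weight `-n` onto the classes of weight `n`. -/
theorem rep_surjn [CharZero K] (hS : S.Good) (hD : ∀ a, W₀.HomEqNum (S.Y a))
    {N h f : W.Hom B B} (hN2 : S.Shift 2 N) (hh : S.HEig h)
    (c1 : ∀ x, h (N x) - N (h x) = (2 : K) • N x) (c2 : ∀ x, h (f x) - f (h x) = -(2 : K) • f x)
    (c3 : ∀ x, N (f x) - f (N x) = h x) (n : ℕ) {x : W.H B} (hx : S.Rep n x) :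
    ∃ y, S.Rep (-n) y ∧ (N ^ n) y = x := by
  let _ : Module ℚ (W.H B) := Module.compHom (W.H B) (algebraMap ℚ K)
  have hsm : ∀ (q : ℚ) (x : W.H B), q • x = (q : K) • x := fun q x => rfl
  have : IsScalarTower ℚ K (W.H B) := ⟨fun q c x => by
    rw [hsm, Rat.smul_def q c, mul_smul]⟩
  let R : ℤ → Submodule ℚ (W.H B) := fun n =>
    { carrier := {x | S.Rep n x}
      add_mem' := fun ha hb => Rep.add ha hb
      zero_mem' := Rep.zero S n
      smul_mem' := fun q x hx => by
        change S.Rep n (q • x)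
        rw [hsm]
        exact Rep.smulQ hx q }
  obtain ⟨y, hy, hyx⟩ := lb_surj ((LinearMap.mul K (W.H B)).compr₂ (W.tr B)) (R n) (R (-n))
    (fun x hx y hy => rep_rat hS hx hy)
    (fun x hx h0 => rep_nondeg hS hD hx fun y hy => h0 y hy)
    (fun y hy h0 => rep_nondeg hS hD hy fun x hx => by
      have hx' : S.Rep n x := by rwa [neg_neg] at hx
      have h1 := h0 x hx'
      change W.tr B (x * y) = 0 at h1
      rw [W.tr_comm, Rep.par hS hy, mul_smul_comm, map_smul, h1, smul_zero])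
    (N ^ n) (fun y hy => by
      have h1 := Shift.powN hN2 hy n
      have e : -(n : ℤ) + 2 * n = n := by ring
      rwa [e] at h1)
    (fun y hy h0 => by
      have h1 := HEig.rep hh hy
      exact sl2_claim c1 c2 c3 n (-n) y le_rfl h1 h0) x hx
  exact ⟨y, hy, hyx⟩

/-- A nonzero class of weight `n`: `n` is a weight. -/
theorem Rep.exists_wt {n : ℤ} {x : W.H B} (hx : S.Rep n x) (hne : x ≠ 0) : ∃ a, S.wt a = n := by
  by_contra hcon
  push Not at hcon
  obtain ⟨e, _, he0, rfl⟩ := hx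
  exact hne (Finset.sum_eq_zero fun a _ => by rw [he0 a (hcon a), map_zero])

end pow

/-! ### No isotropic subspace -/

section main

variable {X : 𝒱.Obj} {D : Degen W₀ W X}

/-- Projectors given by cycles. -/
theorem invariant_rat [CharZero K] {p : W.Hom X X} (hp : W.InducedBy (fun α => α ∈ W.ratSpan (X.prod X)) p) :
    D.Invariant p := T_isEnd (D := D) (isEnd_iff.2 (THom.of_rat hp))

theorem Invariant.shift [CharZero K] {φ : W.Hom X X} (h : D.Invariant φ) :
    D.toSys.Shift 0 φ := by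
  refine shift_of_ratOp D.hEig h.1 fun x => ?_
  rw [h.2.2, sub_self, Int.cast_zero, zero_smul]

/-- If the cohomology of the `Y_a` is spanned by algebraic classes, an invariant endomorphism is zero
if it kills the classes `π_a (e)`, `e` rational. -/
theorem eq_zero_of_rep [CharZero K] (hA : ∀ a, W₀.algSpan (D.Y a) = ⊤) {φ : W.Hom X X}
    (h : ∀ n x, D.Rep n x → φ x = 0) : φ = 0 := by
  refine sys_ext D.axSurj fun a y => ?_
  rw [LinearMap.zero_apply]
  have hy : y ∈ W₀.algSpan (D.Y a) := by rw [hA]; exact Submodule.mem_top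
  refine Submodule.span_induction (p := fun y _ => φ (D.π a y) = 0) ?_ ?_ ?_ ?_ hy
  · rintro _ ⟨i, z, rfl⟩
    exact h (D.wt a) _ (Rep.single a (W₀.cl_mem_ratSpan z) fun hne => absurd rfl hne)
  · rw [map_zero, map_zero]
  · intro x y _ _ hx hy
    rw [map_add, map_add, hx, hy, add_zero]
  · intro c x _ hx
    rw [map_smul, map_smul, hx, smul_zero]

theorem comm_pow {φ N : W.Hom X X} (h : ∀ x, φ (N x) = N (φ x)) (n : ℕ) (x : W.H X) :
    φ ((N ^ n) x) = (N ^ n) (φ x) := by
  induction n with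
  | zero => rfl
  | succ n ih => rw [pow_succ', Module.End.mul_apply, Module.End.mul_apply, h, ih]

theorem cutOut_eq_bot [CharZero K] {P : W.Polarised X} (hA : ∀ a, W₀.algSpan (D.Y a) = ⊤)
    (hpos : ∀ (n : ℕ) (x : W.H X), D.Rep (-n) x → P.p x = x → (D.N ^ (n + 1)) x = 0 →
      W.tr X ((D.N ^ n) x * P.θ x) = 0 → x = 0) {I : Submodule K (W.H X)}
    (hI : ∀ x ∈ I, ∀ y ∈ I, W.tr X (x * P.θ y) = 0) (hcut : D.CutOut P I) : I = ⊥ := by
  obtain ⟨φ, c, hφ, hc, h1, h2⟩ := hcut
  obtain ⟨f, c1, c2, c3⟩ := D.axSl2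
  have hp := invariant_rat (D := D) P.p_rat
  have hD : ∀ a, W₀.HomEqNum (D.Y a) := fun a => homEqNum_of_algSpan (hA a)
  -- no classes of weight `n` in `I`
  have key : ∀ n z, D.Rep n z → z ∈ I → z = 0 := by
    by_contra hcon
    push Not at hcon
    -- a maximal weight
    obtain ⟨n, ⟨z, hz, hzI, hz0⟩, hmax⟩ : ∃ n : ℤ, (∃ z, D.Rep n z ∧ z ∈ I ∧ z ≠ 0) ∧
        ∀ m : ℤ, (∃ z, D.Rep m z ∧ z ∈ I ∧ z ≠ 0) → m ≤ n := by
      obtain ⟨n₀, z₀, h3, h4, h5⟩ := hcon
      let s : Set ℤ := {m | ∃ z, D.Rep m z ∧ z ∈ I ∧ z ≠ 0}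
      have hs : s.Finite := by
        refine (Set.finite_range D.wt).subset ?_
        rintro m ⟨z, hz, _, hz0⟩
        exact Rep.exists_wt hz hz0
      have hne : s.Nonempty := ⟨n₀, z₀, h3, h4, h5⟩
      obtain ⟨n, hn, hmax⟩ := hs.exists_maximal hne
      refine ⟨n, hn, fun m hm => ?_⟩
      by_contra hlt
      push Not at hlt
      exact absurd (hmax hm hlt.le) (not_le.2 hlt)
    have hφz : φ z = c • z := h2 z hzI
    have hpz : P.p z = z := by
      have h3 := (h1 z).1
      rw [hφz, map_smul] at h3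
      exact smul_right_injective _ hc h3
    have hNz : D.N z = 0 := by
      by_contra hne
      have h3 : D.N z ∈ I := by
        have h4 : φ (D.N z) = c • D.N z := by rw [hφ.2.1, hφz, map_smul]
        have h5 : φ (D.N z) ∈ I := (h1 (D.N z)).2.2
        rw [h4] at h5
        have h6 := I.smul_mem c⁻¹ h5
        rwa [smul_smul, inv_mul_cancel₀ hc, one_smul] at h6
      have h4 := hmax (n + 2) ⟨D.N z, Shift.rep D.shift hz, h3, hne⟩
      linarith
    have hn0 : 0 ≤ n := by
      by_contra hlt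
      push Not at hlt
      refine hz0 (sl2_claim c1 c2 c3 1 n z (by push_cast; linarith) (HEig.rep D.hEig hz) ?_)
      rw [pow_one]
      exact hNz
    obtain ⟨r, rfl⟩ := Int.eq_ofNat_of_zero_le hn0
    obtain ⟨y, hy, hyz⟩ := rep_surjn D.good hD D.shift D.hEig c1 c2 c3 r hz
    have hinj : ∀ x, D.h x = ((-(r : ℤ) : ℤ) : K) • x → (D.N ^ r) x = 0 → x = 0 :=
      fun x hx hx' => sl2_claim c1 c2 c3 r (-r) x le_rfl hx hx'
    have hhy := HEig.rep D.hEig hy
    have hpy : P.p y = y := by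
      rw [← sub_eq_zero]
      refine hinj _ ?_ ?_
      · rw [map_sub, ← hp.2.2, hhy, map_smul, smul_sub]
      · rw [map_sub, ← comm_pow hp.2.1, hyz, hpz, sub_self]
    have hφy : φ y = c • y := by
      rw [← sub_eq_zero]
      refine hinj _ ?_ ?_
      · rw [map_sub, ← hφ.2.2, hhy, map_smul, map_smul, hhy, smul_sub, smul_comm]
      · rw [map_sub, ← comm_pow hφ.2.1, hyz, hφz, map_smul, hyz, sub_self]
    have hyI : y ∈ I := by
      have h5 : φ y ∈ I := (h1 y).2.2
      rw [hφy] at h5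
      have h6 := I.smul_mem c⁻¹ h5
      rwa [smul_smul, inv_mul_cancel₀ hc, one_smul] at h6
    have hy0 : y = 0 := by
      refine hpos r y hy hpy ?_ ?_
      · rw [pow_succ', Module.End.mul_apply, hyz, hNz]
      · rw [hyz]
        exact hI z hzI y hyI
    rw [hy0, map_zero] at hyz
    exact hz0 hyz.symm
  have hφ0 : φ = 0 := by
    refine eq_zero_of_rep (D := D) hA fun n x hx => ?_
    have h3 := Shift.rep (Invariant.shift hφ) hx
    rw [add_zero] at h3
    exact key n _ h3 (h1 x).2.2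
  rw [eq_bot_iff]
  intro x hx
  rw [Submodule.mem_bot]
  have h3 := h2 x hx
  rw [hφ0] at h3
  change 0 = c • x at h3
  exact (smul_eq_zero.1 h3.symm).resolve_left hc

end main

end Pool.Agent.GSp
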