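import Pool.Agent.W_f569db_gs.Prep

set_option autoImplicit false

/-!
# The theory of rational classes attached to a degeneration
-/

noncomputable section

namespace Pool.Agent.GSp

open AlgebraicGeometry CategoryTheory
open Pool.Agent.WeilH_h6 Pool.Agent.WeilH_h6.VarClass Pool.Agent.WeilH_h6.Weil GTh
open scoped TensorProduct

universe u v w u' w'

variable {k₀ : Type u'} {k : Type u} [Field k₀] [Field k] {𝒱₀ : VarClass k₀} {𝒱 : VarClass k}
  {K : Type v} [Field K] {W₀ : Weil.{u', v, w'} 𝒱₀ K} {W : Weil.{u, v, w} 𝒱 K}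

section thom

variable {T : W.RatTheory}

theorem THom.pull [CharZero K] {Y Z : 𝒱.Obj} (f : Z ⟶ Y) :
    THom T ((W.pull f).toLinearMap : W.H Y →ₗ[K] W.H Z) := by
  obtain ⟨α, hα, h⟩ := T.C_push _ _ (Obj.lift f (𝟙 Z)) _ (one_mem_T T Z)
  rw [tHom_iff]
  refine ⟨α, hα, fun v w => ?_⟩
  have h2 := h (W.p1 Y Z v * W.p2 Y Z w)
  unfold WeilData.deg WeilData.pb at h2
  rw [h2, one_mul, map_mul (W.pull (Obj.lift f (𝟙 Z))), ← W.pull_comp, ← W.pull_comp,
    Obj.lift_fst, Obj.lift_snd, W.pull_id]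
  rfl

theorem THom.push [CharZero K] {Y Z : 𝒱.Obj} (f : Y ⟶ Z) : ∃ φ : W.H Y →ₗ[K] W.H Z, THom T φ ∧
    ∀ v w, W.tr Z (φ v * w) = W.tr Y (v * W.pull f w) := by
  obtain ⟨α, hα, h⟩ := T.C_push _ _ (Obj.lift (𝟙 Y) f) _ (one_mem_T T Y)
  refine ⟨W.act α, ⟨α, hα, rfl⟩, fun v w => ?_⟩
  have h2 := h (W.p1 Y Z v * W.p2 Y Z w)
  unfold WeilData.deg WeilData.pb at h2
  rw [W.tr_act, h2, one_mul, map_mul (W.pull (Obj.lift (𝟙 Y) f)), ← W.pull_comp, ← W.pull_comp,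
    Obj.lift_fst, Obj.lift_snd, W.pull_id]

theorem THom.const [CharZero K] {Y : 𝒱.Obj} {a : W.H Y} (ha : a ∈ T.C Y) :
    ∃ φ : W.H (Obj.pt : 𝒱.Obj) →ₗ[K] W.H Y, THom T φ ∧ φ 1 = a := by
  refine ⟨W.act (W.p2 Obj.pt Y a), ⟨_, T.C_pull _ _ (Obj.snd Obj.pt Y) _ ha, rfl⟩, ?_⟩
  have h1 : W.p2 Obj.pt Y a = W.p1 Obj.pt Y 1 * W.p2 Obj.pt Y a := by rw [map_one, one_mul]
  have h2 : W.par (Obj.pt : 𝒱.Obj) 1 = sg K 0 • 1 := by
    rw [sg_zero, one_smul, par_rat (W.one_mem_ratSpan _)]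
  rw [h1, act_cross h2, mul_one, W.tr_pt_one, one_smul, parP_zero]

/-- An element fixed by the parity operator is even. -/
theorem even_of_par [CharZero K] {Y : 𝒱.Obj} {a : W.H Y} (ha : W.par Y a = a) :
    a ∈ ⨆ i : ℕ, W.grad Y (2 * i) := by
  have h : ∀ x : W.H Y, x + W.par Y x ∈ ⨆ i : ℕ, W.grad Y (2 * i) := by
    intro x
    refine W.hom_induction (P := fun x => x + W.par Y x ∈ ⨆ i : ℕ, W.grad Y (2 * i)) ?_ ?_ ?_ x
    · rw [map_zero, add_zero]; exact Submodule.zero_mem _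
    · intro x y hx hy
      have e : x + y + W.par Y (x + y) = (x + W.par Y x) + (y + W.par Y y) := by
        rw [map_add]; abel
      rw [e]
      exact Submodule.add_mem _ hx hy
    · intro i x hx
      rw [W.par_apply hx]
      rcases Nat.even_or_odd i with hi | hi
      · rw [hi.neg_one_pow, one_smul]
        obtain ⟨j, rfl⟩ := hi
        refine Submodule.mem_iSup_of_mem (p := fun i : ℕ => W.grad Y (2 * i)) j ?_
        rw [← two_mul] at hx
        exact Submodule.add_mem _ hx hx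
      · rw [hi.neg_one_pow, neg_one_smul, add_neg_cancel]
        exact Submodule.zero_mem _
  have h1 := Submodule.smul_mem _ (2 : K)⁻¹ (h a)
  rw [ha, ← two_smul K a, smul_smul, inv_mul_cancel₀ (two_ne_zero' K), one_smul] at h1
  exact h1

end thom

section theory

variable {X : 𝒱.Obj} (D : Degen W₀ W X)

/-- The classes of weight `0` on `X^m` killed by the monodromy operator. -/
def Degen.Cm (m : ℕ) (γ : W.H (X.pow m)) : Prop :=
  (D.toSys.pow m).Rep 0 γ ∧ der W D.N m γ = 0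

/-- The generators of the theory: images of these classes under correspondences. -/
def Degen.gen (Y : 𝒱.Obj) : Set (W.H Y) :=
  {a | ∃ (m : ℕ) (γ : W.H (X.pow m)) (φ : W.Hom (X.pow m) Y), D.Cm m γ ∧ RatMap W φ ∧ φ γ = a}

/-- The classes of the theory. -/
def Degen.C (Y : 𝒱.Obj) : AddSubmonoid (W.H Y) := AddSubmonoid.closure (D.gen Y)

variable {D}

theorem C_map [CharZero K] {Y Z : 𝒱.Obj} {φ : W.Hom Y Z} (hφ : RatMap W φ) {a : W.H Y}
    (ha : a ∈ D.C Y) : φ a ∈ D.C Z := by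
  refine AddSubmonoid.closure_induction (motive := fun a _ => φ a ∈ D.C Z) ?_ ?_ ?_ ha
  · rintro _ ⟨m, γ, ψ, hγ, hψ, rfl⟩
    exact AddSubmonoid.subset_closure ⟨m, γ, φ ∘ₗ ψ, hγ, hψ.comp hφ, rfl⟩
  · rw [map_zero]; exact zero_mem _
  · intro x y _ _ hx hy
    rw [map_add]; exact add_mem hx hy

theorem Cm_par [CharZero K] {m : ℕ} {γ : W.H (X.pow m)} (h : D.Cm m γ) :
    W.par (X.pow m) γ = γ := by
  have := Rep.par (D.good.pow m) h.1
  rwa [sg_zero, one_smul] at this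

/-- The external product. -/
theorem Cm_cross [CharZero K] {m n : ℕ} {γ : W.H (X.pow m)} {γ' : W.H (X.pow n)}
    (h : D.Cm m γ) (h' : D.Cm n γ') :
    D.Cm (m + n) (W.pull (spl X m n) (W.p1 (X.pow m) (X.pow n) γ *
      W.p2 (X.pow m) (X.pow n) γ')) := by
  refine ⟨(spl_sys D.toSys m n).rep ?_, ?_⟩
  · have := Rep.cross h.1 h'.1
    rwa [add_zero] at this
  · rw [← spl_compat, dx_cross, h.2, h'.2, map_zero, map_zero, mul_zero, zero_mul, add_zero,
      map_zero]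

theorem one_Cm [CharZero K] : D.Cm 0 (1 : W.H (Obj.pt : 𝒱.Obj)) := by
  refine ⟨?_, rfl⟩
  have h1 : (Sys.unit : Sys W₀ W Obj.pt).Rep 0 (uπ W₀ W 1) :=
    Rep.single (S := (Sys.unit : Sys W₀ W Obj.pt)) (n := 0) () (W₀.one_mem_ratSpan _)
      fun h => absurd rfl h
  rw [uπ_one] at h1
  exact h1

theorem C_rat [CharZero K] {Y : 𝒱.Obj} {a : W.H Y} (ha : a ∈ W.ratSpan Y) : a ∈ D.C Y := by
  obtain ⟨φ, hφ, h⟩ := THom.const (T := cycT W) ha
  exact AddSubmonoid.subset_closure ⟨0, (1 : W.H (Obj.pt : 𝒱.Obj)), φ, one_Cm,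
    ratMap_iff.2 hφ, h⟩

theorem C_mul [CharZero K] {Y : 𝒱.Obj} {a b : W.H Y} (ha : a ∈ D.C Y) (hb : b ∈ D.C Y) :
    a * b ∈ D.C Y := by
  refine AddSubmonoid.closure_induction (motive := fun a _ => a * b ∈ D.C Y) ?_ ?_ ?_ ha
  · rintro _ ⟨m, γ, φ, hγ, hφ, rfl⟩
    refine AddSubmonoid.closure_induction (motive := fun b _ => φ γ * b ∈ D.C Y) ?_ ?_ ?_ hb
    · rintro _ ⟨n, γ', ψ, hγ', hψ, rfl⟩
      have h1 : φ γ * ψ γ' = W.pull (diag Y) (W.extHom φ ψ (W.pull (glu X m n)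
          (W.pull (spl X m n) (W.p1 (X.pow m) (X.pow n) γ * W.p2 (X.pow m) (X.pow n) γ')))) := by
        rw [← W.pull_comp, glu_spl, W.pull_id, W.extHom_apply, map_mul, W.pull_diag_p1,
          W.pull_diag_p2]
      rw [h1]
      have h2 : RatMap W (W.pull (diag Y)).toLinearMap :=
        ratMap_iff.2 (THom.pull (T := cycT W) (diag Y))
      have h3 : RatMap W (W.pull (glu X m n)).toLinearMap :=
        ratMap_iff.2 (THom.pull (T := cycT W) (glu X m n))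
      exact AddSubmonoid.subset_closure ⟨m + n, _, (W.pull (diag Y)).toLinearMap ∘ₗ
        (W.extHom φ ψ ∘ₗ (W.pull (glu X m n)).toLinearMap), Cm_cross hγ hγ',
        (h3.comp (hφ.extHom hψ)).comp h2, rfl⟩
    · rw [mul_zero]; exact zero_mem _
    · intro x y _ _ hx hy
      rw [mul_add]; exact add_mem hx hy
  · rw [zero_mul]; exact zero_mem _
  · intro x y _ _ hx hy
    rw [add_mul]; exact add_mem hx hy

theorem C_even [CharZero K] {Y : 𝒱.Obj} {a : W.H Y} (ha : a ∈ D.C Y) : W.par Y a = a := by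
  refine AddSubmonoid.closure_induction (motive := fun a _ => W.par Y a = a) ?_ ?_ ?_ ha
  · rintro _ ⟨m, γ, φ, hγ, hφ, rfl⟩
    rw [← hφ.par_comm, Cm_par hγ]
  · rw [map_zero]
  · intro x y _ _ hx hy
    rw [map_add, hx, hy]

variable (D)

/-- The theory. -/
def Degen.T [CharZero K] : W.RatTheory where
  C := D.C
  C_rat := by
    intro Y q a ha
    have h1 : RatMap W ((q : K) • (LinearMap.id : W.Hom Y Y)) :=
      ratMap_iff.2 ((THom.id (T := cycT W) Y).smulQ q)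
    exact C_map h1 ha
  C_even := fun Y a ha => even_of_par (C_even ha)
  C_cycles := fun Y i z => C_rat (W.cl_mem_ratSpan z)
  C_mul := fun Y a b ha hb => C_mul ha hb
  C_pull := fun Y Z f a ha => C_map (ratMap_iff.2 (THom.pull (T := cycT W) f)) ha
  C_push := by
    intro Y Z f a ha
    obtain ⟨φ, hφ, h⟩ := THom.push (T := cycT W) f
    exact ⟨φ a, C_map (ratMap_iff.2 hφ) ha, fun y => h a y⟩

variable {D}

theorem T_of_Cm [CharZero K] {m : ℕ} {γ : W.H (X.pow m)} (h : D.Cm m γ) :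
    γ ∈ D.T.C (X.pow m) :=
  AddSubmonoid.subset_closure ⟨m, γ, LinearMap.id, h, RatMap.id _, rfl⟩

theorem Cm_act [CharZero K] {m n : ℕ} {γ : W.H (X.pow m)} (h : D.Cm m γ)
    {φ : W.Hom (X.pow m) (X.pow n)} (hφ : RatMap W φ) : D.Cm n (φ γ) := by
  obtain ⟨α, hα, rfl⟩ := ratMap_iff'.1 hφ
  have h1 := D.cyc_prod m n hα
  refine ⟨rep_act (D.good.pow m) (D.good.pow n) h1.1 h.1, ?_⟩
  rw [act_der (der_skew D.skew_N D.parC_N m) (der_parC D.parC_N m)
    (der_skew D.skew_N D.parC_N n) (der_parC D.parC_N n) h1.2, h.2, map_zero]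

theorem Cm_of_T [CharZero K] {m : ℕ} {γ : W.H (X.pow m)} (h : γ ∈ D.T.C (X.pow m)) :
    D.Cm m γ := by
  refine AddSubmonoid.closure_induction (motive := fun γ _ => D.Cm m γ) ?_ ?_ ?_ h
  · rintro _ ⟨n, γ, φ, hγ, hφ, rfl⟩
    exact Cm_act hγ hφ
  · exact ⟨Rep.zero _ _, map_zero _⟩
  · intro x y _ _ hx hy
    exact ⟨Rep.add hx.1 hy.1, by rw [map_add, hx.2, hy.2, add_zero]⟩

/-- The theory is nondegenerate on the powers of `X`. -/
theorem T_numEq [CharZero K] (m : ℕ) (hD : ∀ a, W₀.HomEqNum ((D.toSys.pow m).Y a)) :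
    D.T.NumEq (X.pow m) := by
  intro a ha hb
  obtain ⟨h1, h2⟩ := Cm_of_T ha
  exact D.num m hD h1 h2 fun c hc hNc => hb c (T_of_Cm ⟨hc, hNc⟩)

/-- The classes of the theory on `X × X`. -/
theorem T_prod [CharZero K] {α : W.H (X.prod X)} (h : α ∈ D.T.C (X.prod X)) :
    (D.toSys.prod D.toSys).Rep 0 α ∧ dx D.N D.N α = 0 := by
  have h1 : D.Cm 2 (W.pull (spl2 X) α) := Cm_of_T (D.T.C_pull _ _ (spl2 X) α h)
  have h2 : α = W.pull (glu2 X) (W.pull (spl2 X) α) := by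
    rw [← W.pull_comp, glu_spl2, W.pull_id]
  refine ⟨?_, ?_⟩
  · rw [h2]
    exact (glu2_sys D.toSys).rep h1.1
  · rw [h2, ← glu2_compat, h1.2, map_zero]

/-- Endomorphisms given by classes of the theory. -/
theorem T_isEnd [CharZero K] {φ : W.Hom X X} (h : D.T.IsEnd X φ) :
    D.RatOp φ ∧ (∀ x, φ (D.N x) = D.N (φ x)) ∧ ∀ x, φ (D.h x) = D.h (φ x) := by
  obtain ⟨α, hα, rfl⟩ := isEnd_iff.1 h
  obtain ⟨h1, h2⟩ := T_prod hα
  refine ⟨act_ratOp D.good h1, fun x => ?_, fun x => ?_⟩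
  · exact (act_der D.skew_N D.parC_N D.skew_N D.parC_N h2 x).symm
  · refine (act_der D.skew_h D.parC_h D.skew_h D.parC_h ?_ x).symm
    have h1 := HEig.rep (HEig.ext D.hEig D.hEig) h1
    rw [Int.cast_zero, zero_smul] at h1
    exact h1

/-- The subspaces cut out by the theory are cut out by the degeneration. -/
theorem T_cutOut [CharZero K] {P : W.Polarised X} {I : Submodule K (W.H X)}
    (h : P.CutOut (fun α => α ∈ D.T.C (X.prod X)) I) : D.CutOut P I := by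
  obtain ⟨φ, c, hφ, hc, h1, h2⟩ := h
  obtain ⟨a, b, d⟩ := T_isEnd (φ := φ) hφ
  exact ⟨φ, c, ⟨a, b, d⟩, hc, h1, h2⟩

end theory

end Pool.Agent.GSp
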