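import Pool.Agent.W_f569db_gs.Stmt
import Pool.Agent.W_f569db_g.Th
import Pool.Agent.WeilH_h6.Par

set_option autoImplicit false

/-!
# External products of linear maps, powers of the parity operator
-/

noncomputable section

namespace Pool.Agent.GSp

open Pool.Agent.WeilH_h6 Pool.Agent.WeilH_h6.VarClass Pool.Agent.WeilH_h6.Weil GTh
open scoped TensorProduct

universe u v w u' w'

variable {k₀ : Type u'} {k : Type u} [Field k₀] [Field k] {𝒱₀ : VarClass k₀} {𝒱 : VarClass k}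
  {K : Type v} [Field K] {W₀ : Weil.{u', v, w'} 𝒱₀ K} {W : Weil.{u, v, w} 𝒱 K}

/-- The external product `H₀(A × A') → H(B × B')` of linear maps `φ : H₀(A) → H(B)` and
`ψ : H₀(A') → H(B')`. -/
def xt (W₀ : Weil.{u', v, w'} 𝒱₀ K) (W : Weil.{u, v, w} 𝒱 K) {A A' : 𝒱₀.Obj} {B B' : 𝒱.Obj}
    (φ : W₀.H A →ₗ[K] W.H B) (ψ : W₀.H A' →ₗ[K] W.H B') :
    W₀.H (A.prod A') →ₗ[K] W.H (B.prod B') :=
  W.kunnethMap B B' ∘ₗ TensorProduct.map φ ψ ∘ₗ
    (LinearEquiv.ofBijective (W₀.kunnethMap A A') (W₀.axKunneth A A')).symm.toLinearMap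

/-! ### Signs -/

theorem sg_mul_self (n : ℤ) : sg K n * sg K n = 1 := by
  unfold sg; split_ifs <;> simp

theorem sg_zero : sg K 0 = 1 := by simp [sg]

theorem sg_one : sg K 1 = -1 := by simp [sg]

theorem sg_eq (n : ℤ) : sg K n = 1 ∨ sg K n = -1 := by
  unfold sg; split_ifs <;> simp

theorem sg_add (m n : ℤ) : sg K (m + n) = sg K m * sg K n := by
  unfold sg
  rcases Int.even_or_odd m with hm | hm <;> rcases Int.even_or_odd n with hn | hn
  · rw [if_pos (hm.add hn), if_pos hm, if_pos hn, mul_one]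
  · rw [if_neg (Int.not_even_iff_odd.2 (hm.add_odd hn)), if_pos hm,
      if_neg (Int.not_even_iff_odd.2 hn), one_mul]
  · rw [if_neg (Int.not_even_iff_odd.2 (hm.add_even hn)), if_neg (Int.not_even_iff_odd.2 hm),
      if_pos hn, mul_one]
  · rw [if_pos (hm.add_odd hn), if_neg (Int.not_even_iff_odd.2 hm),
      if_neg (Int.not_even_iff_odd.2 hn)]
    norm_num

theorem sg_of_even {n : ℤ} (h : Even n) : sg K n = 1 := if_pos h

/-- The sign depends only on the parity. -/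
theorem sg_congr {m n : ℤ} (h : Even (m + n)) : sg K m = sg K n := by
  have h1 := sg_add (K := K) m n
  rw [sg_of_even h] at h1
  have h2 := sg_mul_self (K := K) n
  calc sg K m = sg K m * (sg K n * sg K n) := by rw [h2, mul_one]
    _ = (sg K m * sg K n) * sg K n := by ring
    _ = sg K n := by rw [← h1, one_mul]

/-! ### Powers of the parity operator -/

theorem parP_grad {Y : 𝒱.Obj} {i : ℕ} {x : W.H Y} (hx : x ∈ W.grad Y i) (n : ℤ) :
    parP W Y n x = sg K (n * i) • x := by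
  have h : (LinearEquiv.ofBijective (DirectSum.coeLinearMap (W.grad Y)) (W.axInternal Y)).symm x =
      DirectSum.lof K ℕ (fun i => W.grad Y i) i ⟨x, hx⟩ := by
    rw [LinearEquiv.symm_apply_eq]
    change x = DirectSum.coeLinearMap (W.grad Y) _
    rw [DirectSum.coeLinearMap_lof]
  change (DirectSum.toModule K ℕ (W.H Y) fun i => sg K (n * i) • (W.grad Y i).subtype)
    ((LinearEquiv.ofBijective (DirectSum.coeLinearMap (W.grad Y)) (W.axInternal Y)).symm x) = _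
  rw [h, DirectSum.toModule_lof]
  rfl

theorem parP_def (Y : 𝒱.Obj) (n : ℤ) :
    parP W Y n = if Even n then LinearMap.id else W.par Y := by
  ext x
  refine W.hom_induction (P := fun x => parP W Y n x =
    (if Even n then LinearMap.id else W.par Y : W.Hom Y Y) x) ?_ ?_ ?_ x
  · rw [map_zero, map_zero]
  · intro x y hx hy
    rw [map_add, map_add, hx, hy]
  · intro i x hx
    rw [parP_grad hx]
    by_cases h : Even n
    · rw [if_pos h, sg_of_even (h.mul_right _), one_smul]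
      rfl
    · rw [if_neg h, W.par_apply hx]
      congr 1
      rcases Nat.even_or_odd i with hi | hi
      · rw [hi.neg_one_pow, sg_of_even]
        exact ((Int.even_coe_nat i).2 hi).mul_left _
      · rw [hi.neg_one_pow]
        refine if_neg ?_
        rw [Int.not_even_iff_odd]
        exact (Int.not_even_iff_odd.1 h).mul (by exact_mod_cast hi)

theorem parP_exp_one (Y : 𝒱.Obj) : parP W Y 1 = W.par Y := by
  rw [parP_def, if_neg]
  decide

theorem parP_zero (Y : 𝒱.Obj) (x : W.H Y) : parP W Y 0 x = x := by simp [parP_def]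

/-- On an element of parity `τ` the operator `parP n` is the sign `(-1) ^ (n τ)`. -/
theorem parP_apply {Y : 𝒱.Obj} {x : W.H Y} {τ : ℤ} (hx : W.par Y x = sg K τ • x) (n : ℤ) :
    parP W Y n x = sg K (n * τ) • x := by
  rw [parP_def]
  split_ifs with h
  · rw [sg_of_even (h.mul_right τ), one_smul]; rfl
  · rw [hx]
    congr 1
    apply sg_congr
    have hn : Odd n := Int.not_even_iff_odd.1 h
    have h2 : Even (1 + n) := by
      obtain ⟨j, rfl⟩ := hn
      exact ⟨j + 1, by ring⟩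
    have h3 : τ + n * τ = (1 + n) * τ := by ring
    rw [h3]
    exact h2.mul_right τ

theorem parP_even {Y : 𝒱.Obj} {x : W.H Y} (hx : W.par Y x = x) (n : ℤ) : parP W Y n x = x := by
  rw [parP_def]
  split_ifs
  · rfl
  · exact hx

theorem par_rat {Y : 𝒱.Obj} {x : W.H Y} (hx : x ∈ W.ratSpan Y) : W.par Y x = x :=
  W.par_algSpan (W.ratSpan_le hx)

theorem parP_rat {Y : 𝒱.Obj} {x : W.H Y} (hx : x ∈ W.ratSpan Y) (n : ℤ) : parP W Y n x = x :=
  parP_even (par_rat hx) n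

/-- Every class is the sum of a class of parity `0` and a class of parity `1`.
Proof: `(x + par x) / 2`, `(x - par x) / 2`. -/
theorem exists_par_decomp [CharZero K] {Y : 𝒱.Obj} (x : W.H Y) : ∃ x₀ x₁ : W.H Y, x = x₀ + x₁ ∧
    W.par Y x₀ = sg K 0 • x₀ ∧ W.par Y x₁ = sg K 1 • x₁ := by
  refine ⟨(2 : K)⁻¹ • (x + W.par Y x), (2 : K)⁻¹ • (x - W.par Y x), ?_, ?_, ?_⟩
  · rw [← smul_add, add_add_sub_cancel, ← two_smul K x, smul_smul,
      inv_mul_cancel₀ (two_ne_zero), one_smul]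
  · rw [sg_zero, one_smul, map_smul, map_add, W.par_par, add_comm]
  · rw [sg_one, map_smul, map_sub, W.par_par, neg_one_smul, ← smul_neg, neg_sub]

/-- Induction on the parity. -/
theorem par_induction [CharZero K] {Y : 𝒱.Obj} {P : W.H Y → Prop}
    (hadd : ∀ x y, P x → P y → P (x + y))
    (h : ∀ (τ : ℤ) (x : W.H Y), W.par Y x = sg K τ • x → P x) (x : W.H Y) : P x := by
  obtain ⟨x₀, x₁, rfl, h0, h1⟩ := exists_par_decomp x
  exact hadd _ _ (h 0 _ h0) (h 1 _ h1)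

/-! ### Maps given by cycles -/

theorem ratMap_iff [CharZero K] {Y Z : 𝒱.Obj} {φ : W.Hom Y Z} :
    RatMap W φ ↔ THom (cycT W) φ := (tHom_iff (T := cycT W)).symm

theorem ratMap_iff' {Y Z : 𝒱.Obj} {φ : W.Hom Y Z} :
    RatMap W φ ↔ W.RatHom φ := W.ratHom_iff.symm

theorem RatMap.par_comm [CharZero K] {Y Z : 𝒱.Obj} {φ : W.Hom Y Z} (h : RatMap W φ)
    (x : W.H Y) : φ (W.par Y x) = W.par Z (φ x) := (ratMap_iff.1 h).par_comm x

theorem RatMap.apply_mem {Y Z : 𝒱.Obj} {φ : W.Hom Y Z} (h : RatMap W φ) {x : W.H Y}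
    (hx : x ∈ W.ratSpan Y) : φ x ∈ W.ratSpan Z := RatHom.apply_mem W (ratMap_iff'.1 h) hx

theorem RatMap.zero (Y Z : 𝒱.Obj) : RatMap W (0 : W.Hom Y Z) :=
  ⟨0, zero_mem _, fun v v' => by simp [pr]⟩

theorem RatMap.id [CharZero K] (Y : 𝒱.Obj) : RatMap W (LinearMap.id : W.Hom Y Y) :=
  ratMap_iff'.2 (RatHom.id W Y)

theorem RatMap.add [CharZero K] {Y Z : 𝒱.Obj} {φ ψ : W.Hom Y Z} (h : RatMap W φ)
    (h' : RatMap W ψ) : RatMap W (φ + ψ) := ratMap_iff.2 ((ratMap_iff.1 h).add (ratMap_iff.1 h'))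

theorem RatMap.sum [CharZero K] {Y Z : 𝒱.Obj} {ι : Type} (s : Finset ι) {φ : ι → W.Hom Y Z}
    (h : ∀ i ∈ s, RatMap W (φ i)) : RatMap W (∑ i ∈ s, φ i) := by
  classical
  induction s using Finset.induction_on with
  | empty => simpa using RatMap.zero Y Z
  | insert a s ha ih =>
    rw [Finset.sum_insert ha]
    exact (h a (Finset.mem_insert_self _ _)).add
      (ih fun i hi => h i (Finset.mem_insert_of_mem hi))

theorem RatMap.sg_smul [CharZero K] {Y Z : 𝒱.Obj} {φ : W.Hom Y Z} (h : RatMap W φ) (n : ℤ) :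
    RatMap W (sg K n • φ) := by
  rcases sg_eq (K := K) n with e | e
  · rw [e, one_smul]; exact h
  · rw [e]
    have := (ratMap_iff.1 h).smulQ (-1)
    rw [Rat.cast_neg, Rat.cast_one] at this
    exact ratMap_iff.2 this

theorem RatMap.comp [CharZero K] {Y Z T : 𝒱.Obj} {φ : W.Hom Y Z} {ψ : W.Hom Z T}
    (h : RatMap W φ) (h' : RatMap W ψ) : RatMap W (ψ ∘ₗ φ) :=
  ratMap_iff.2 ((ratMap_iff.1 h).comp (ratMap_iff.1 h'))

theorem RatMap.extHom [CharZero K] {Y Z Y' Z' : 𝒱.Obj} {φ : W.Hom Y Z} {ψ : W.Hom Y' Z'}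
    (h : RatMap W φ) (h' : RatMap W ψ) : RatMap W (W.extHom φ ψ) :=
  ratMap_iff.2 ((ratMap_iff.1 h).extHom (ratMap_iff.1 h'))

theorem RatMap.act {Y Z : 𝒱.Obj} {α : W.H (Y.prod Z)} (h : α ∈ W.ratSpan (Y.prod Z)) :
    RatMap W (W.act α) := ratMap_iff'.2 ⟨α, h, rfl⟩

/-! ### External products -/

section xt

variable {A A' : 𝒱₀.Obj} {B B' : 𝒱.Obj}

theorem xt_cross (φ : W₀.H A →ₗ[K] W.H B) (ψ : W₀.H A' →ₗ[K] W.H B') (x : W₀.H A)
    (y : W₀.H A') : xt W₀ W φ ψ (W₀.p1 A A' x * W₀.p2 A A' y) =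
      W.p1 B B' (φ x) * W.p2 B B' (ψ y) := by
  have h1 : (LinearEquiv.ofBijective (W₀.kunnethMap A A') (W₀.axKunneth A A')).symm
      (W₀.p1 A A' x * W₀.p2 A A' y) = x ⊗ₜ y := by
    rw [LinearEquiv.symm_apply_eq]
    simp [WeilData.kunnethMap]
  unfold xt
  rw [LinearMap.comp_apply, LinearMap.comp_apply]
  change W.kunnethMap B B' (TensorProduct.map φ ψ ((LinearEquiv.ofBijective (W₀.kunnethMap A A')
    (W₀.axKunneth A A')).symm (W₀.p1 A A' x * W₀.p2 A A' y))) = _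
  rw [h1, TensorProduct.map_tmul]
  simp [WeilData.kunnethMap]

/-- Extensionality for linear maps on `H(A × A')`. -/
theorem ext_cross {M : Type*} [AddCommGroup M] [Module K M] {f g : W₀.H (A.prod A') →ₗ[K] M}
    (h : ∀ x y, f (W₀.p1 A A' x * W₀.p2 A A' y) = g (W₀.p1 A A' x * W₀.p2 A A' y)) : f = g := by
  ext a
  refine W₀.kunneth_induction A A' (P := fun a => f a = g a) ?_ h a
  intro a b ha hb
  rw [map_add, map_add, ha, hb]

theorem xt_self (φ : W.Hom B B) (ψ : W.Hom B' B') : xt W W φ ψ = W.extHom φ ψ := by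
  refine ext_cross fun x y => ?_
  rw [xt_cross, W.extHom_apply]

theorem xt_comp_ext {C C' : 𝒱₀.Obj} (φ : W₀.H A →ₗ[K] W.H B) (ψ : W₀.H A' →ₗ[K] W.H B')
    (φ₀ : W₀.Hom C A) (ψ₀ : W₀.Hom C' A') (x : W₀.H (C.prod C')) :
    xt W₀ W φ ψ (W₀.extHom φ₀ ψ₀ x) = xt W₀ W (φ ∘ₗ φ₀) (ψ ∘ₗ ψ₀) x := by
  have h : xt W₀ W φ ψ ∘ₗ W₀.extHom φ₀ ψ₀ = xt W₀ W (φ ∘ₗ φ₀) (ψ ∘ₗ ψ₀) := by
    refine ext_cross fun x y => ?_
    rw [LinearMap.comp_apply, W₀.extHom_apply, xt_cross, xt_cross]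
    rfl
  exact LinearMap.congr_fun h x

theorem ext_comp_xt {C C' : 𝒱.Obj} (φ : W₀.H A →ₗ[K] W.H B) (ψ : W₀.H A' →ₗ[K] W.H B')
    (φ₁ : W.Hom B C) (ψ₁ : W.Hom B' C') (x : W₀.H (A.prod A')) :
    W.extHom φ₁ ψ₁ (xt W₀ W φ ψ x) = xt W₀ W (φ₁ ∘ₗ φ) (ψ₁ ∘ₗ ψ) x := by
  have h : W.extHom φ₁ ψ₁ ∘ₗ xt W₀ W φ ψ = xt W₀ W (φ₁ ∘ₗ φ) (ψ₁ ∘ₗ ψ) := by
    refine ext_cross fun x y => ?_
    rw [LinearMap.comp_apply, xt_cross, xt_cross, W.extHom_apply]
    rfl
  exact LinearMap.congr_fun h x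

theorem xt_sum_left {ι : Type} (s : Finset ι) (φ : ι → (W₀.H A →ₗ[K] W.H B))
    (ψ : W₀.H A' →ₗ[K] W.H B') (x : W₀.H (A.prod A')) :
    xt W₀ W (∑ i ∈ s, φ i) ψ x = ∑ i ∈ s, xt W₀ W (φ i) ψ x := by
  have h : xt W₀ W (∑ i ∈ s, φ i) ψ = ∑ i ∈ s, xt W₀ W (φ i) ψ := by
    refine ext_cross fun x y => ?_
    rw [xt_cross, LinearMap.sum_apply, LinearMap.sum_apply, map_sum, Finset.sum_mul]
    exact Finset.sum_congr rfl fun i _ => (xt_cross _ _ _ _).symm
  rw [h, LinearMap.sum_apply]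

theorem xt_sum_right {ι : Type} (s : Finset ι) (φ : W₀.H A →ₗ[K] W.H B)
    (ψ : ι → (W₀.H A' →ₗ[K] W.H B')) (x : W₀.H (A.prod A')) :
    xt W₀ W φ (∑ i ∈ s, ψ i) x = ∑ i ∈ s, xt W₀ W φ (ψ i) x := by
  have h : xt W₀ W φ (∑ i ∈ s, ψ i) = ∑ i ∈ s, xt W₀ W φ (ψ i) := by
    refine ext_cross fun x y => ?_
    rw [xt_cross, LinearMap.sum_apply, LinearMap.sum_apply, map_sum, Finset.mul_sum]
    exact Finset.sum_congr rfl fun i _ => (xt_cross _ _ _ _).symm
  rw [h, LinearMap.sum_apply]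

theorem xt_smul_left (c : K) (φ : W₀.H A →ₗ[K] W.H B) (ψ : W₀.H A' →ₗ[K] W.H B')
    (x : W₀.H (A.prod A')) : xt W₀ W (c • φ) ψ x = c • xt W₀ W φ ψ x := by
  have h : xt W₀ W (c • φ) ψ = c • xt W₀ W φ ψ := by
    refine ext_cross fun x y => ?_
    rw [xt_cross, LinearMap.smul_apply, LinearMap.smul_apply, xt_cross, map_smul,
      smul_mul_assoc]
  rw [h, LinearMap.smul_apply]

theorem xt_smul_right (c : K) (φ : W₀.H A →ₗ[K] W.H B) (ψ : W₀.H A' →ₗ[K] W.H B')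
    (x : W₀.H (A.prod A')) : xt W₀ W φ (c • ψ) x = c • xt W₀ W φ ψ x := by
  have h : xt W₀ W φ (c • ψ) = c • xt W₀ W φ ψ := by
    refine ext_cross fun x y => ?_
    rw [xt_cross, LinearMap.smul_apply, LinearMap.smul_apply, xt_cross, map_smul,
      mul_smul_comm]
  rw [h, LinearMap.smul_apply]

theorem par_cross (x : W.H B) (y : W.H B') : W.par (B.prod B') (W.p1 B B' x * W.p2 B B' y) =
    W.p1 B B' (W.par B x) * W.p2 B B' (W.par B' y) := by
  rw [W.par_mul, W.par_pull, W.par_pull]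

theorem parP_cross (n : ℤ) (x : W.H B) (y : W.H B') :
    parP W (B.prod B') n (W.p1 B B' x * W.p2 B B' y) =
      W.p1 B B' (parP W B n x) * W.p2 B B' (parP W B' n y) := by
  rw [parP_def, parP_def, parP_def]
  split_ifs
  · rfl
  · exact par_cross x y

end xt

theorem der_succ {X : 𝒱.Obj} (D : W.Hom X X) (m : ℕ) : der W D (m + 1) =
    (W.extHom (der W D m) LinearMap.id + W.extHom LinearMap.id D : W.Hom _ _) := by
  rw [← xt_self, ← xt_self]
  rfl

end Pool.Agent.GSp
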